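import Pool.Agent.TwoWell.Defs2
set_option autoImplicit false
open Set
namespace TwoWell.JQ4

open Matrix MeasureTheory




/-- general compactness lemma -/
theorem pwb_compact {X : Type*} [TopologicalSpace X] {S : Set X} (hS : IsCompact S)
    {h pen : X → ℝ} (hh : Continuous h) (hp : Continuous pen) (hpos : ∀ x ∈ S, 0 ≤ pen x)
    (hz : ∀ x ∈ S, pen x = 0 → h x ≤ 0) (e : ℝ) (he : 0 < e) :
    ∃ L : ℝ, 0 ≤ L ∧ ∀ x ∈ S, h x ≤ e + L * pen x := by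
  have hT : IsCompact (S ∩ {x | e ≤ h x}) := hS.inter_right (isClosed_le continuous_const hh)
  by_cases hne : (S ∩ {x | e ≤ h x}).Nonempty
  · obtain ⟨x0, hx0, hmin⟩ := hT.exists_isMinOn hne hp.continuousOn
    obtain ⟨x1, hx1, hmax⟩ := hT.exists_isMaxOn hne hh.continuousOn
    have hx0' : e ≤ h x0 := hx0.2
    have hpx0 : 0 < pen x0 := by
      rcases (hpos x0 hx0.1).eq_or_lt with h0 | h0
      · have := hz x0 hx0.1 h0.symm
        linarith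
      · exact h0
    have hx1' : e ≤ h x1 := hx1.2
    have hL : 0 ≤ h x1 / pen x0 := div_nonneg (by linarith) hpx0.le
    refine ⟨h x1 / pen x0, hL, fun x hx => ?_⟩
    by_cases hxe : e ≤ h x
    · have h1 : h x ≤ h x1 := hmax ⟨hx, hxe⟩
      have h2 : pen x0 ≤ pen x := hmin ⟨hx, hxe⟩
      have h3 : h x1 / pen x0 * pen x0 = h x1 := div_mul_cancel₀ _ hpx0.ne'
      have h4 : h x1 / pen x0 * pen x0 ≤ h x1 / pen x0 * pen x := mul_le_mul_of_nonneg_left h2 hL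
      linarith
    · push Not at hxe
      have := mul_nonneg hL (hpos x hx)
      linarith
  · refine ⟨0, le_rfl, fun x hx => ?_⟩
    rw [zero_mul, add_zero]
    by_contra hcon
    push Not at hcon
    exact hne ⟨x, hx, hcon.le⟩

/-- the vector with a single nonzero fine field -/
noncomputable def pwbv (j : Fin 8) (t : ℝ) : Fin 11 → ℝ :=
  ![kk j 0, kk j 1, kk j 2, if j = 0 then t else 0, if j = 1 then t else 0,
    if j = 2 then t else 0, if j = 3 then t else 0, if j = 4 then t else 0,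
    if j = 5 then t else 0, if j = 6 then t else 0, if j = 7 then t else 0]

theorem pwb_theta (j l : Fin 8) : theta (kk j) l = if j = l then 1 else 0 := by
  fin_cases j <;> fin_cases l <;> simp [theta, kk]

theorem pwb_pf (j : Fin 8) (b : Fin 8 → ℝ) : pf (kk j) b = pwbv j (b j) := by
  funext c
  unfold pf pwbv
  simp only [pwb_theta]
  fin_cases j <;> fin_cases c <;> simp

theorem pwb_Y0 (j : Fin 8) (t : ℝ) : Y0 (pwbv j t) = t := by
  unfold Y0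
  rw [Fin.sum_univ_eight]
  fin_cases j <;> simp [pwbv, iz]

theorem pwb_Yv (j : Fin 8) (t : ℝ) (i : Fin 3) : Yv (pwbv j t) i = t * pwbv j t (iM i) := by
  unfold Yv
  rw [Fin.sum_univ_eight]
  fin_cases j <;> fin_cases i <;> simp [pwbv, iz, iM, kk]

theorem pwb_cst (j : Fin 8) (t : ℝ) (ht : t ^ 2 = 1) : cst (pwbv j t) = 1 - kap j := by
  unfold cst
  rw [Fin.sum_univ_eight]
  fin_cases j <;> simp [pwbv, iz, kap, ht]

theorem pwb_kap (j : Fin 8) : kap j = kk j 0 * kk j 1 * kk j 2 := by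
  fin_cases j <;> simp [kap, kk]

theorem pwb_nrm (j : Fin 8) (t : ℝ) (ht : t ^ 2 = 1) :
    nrm (fun a => pwbv j t a - t * pstar a) ≤ 17 / 4 := by
  unfold nrm
  simp only [Fin.sum_univ_succ, Fin.sum_univ_zero]
  fin_cases j <;> simp [pwbv, pstar, kk, Fin.succ] <;> nlinarith

theorem pwb_Wv (k K : ℝ) (j : Fin 8) (t : ℝ) (ht : t ^ 2 = 1) :
    Wv k K t (pwbv j t) 0 ≤ (1 - kk j 0 * kk j 1 * kk j 2) + 3 / 50 := by
  unfold Wv
  have h1 : nrm (0 : Fin 11 → ℝ) = 0 := by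
    unfold nrm
    simp
  have h2 : ∑ i, (Yv (pwbv j t) i - t * pwbv j t (iM i)) ^ 2 = 0 := by
    apply Finset.sum_eq_zero
    intro i _
    rw [pwb_Yv, sub_self]
    norm_num
  rw [pwb_cst j t ht, pwb_Y0, pwb_kap, h1, h2]
  have h3 := pwb_nrm j t ht
  have h4 : t - t = 0 := sub_self t
  rw [h4]
  linarith

theorem pwb_cont (k K sg : ℝ) :
    Continuous (fun q : (Fin 11 → ℝ) × (Fin 11 → ℝ) => Wv k K sg q.1 q.2) := by
  unfold Wv cst Y0 Yv nrm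
  fun_prop

theorem pwb_cont_pf : Continuous (fun q : (Fin 3 → ℝ) × (Fin 8 → ℝ) => pf q.1 q.2) := by
  apply continuous_pi
  intro c
  fin_cases c <;> simp [pf, theta] <;> fun_prop

theorem pwb_vertex (a : Fin 3 → ℝ) (ha : ∀ i, a i ^ 2 = 1) : ∃ j : Fin 8, a = kk j := by
  have key : ∀ i, a i = 1 ∨ a i = -1 := by
    intro i
    have := ha i
    rw [sq] at this
    exact mul_self_eq_one_iff.1 this
  rcases key 0 with h0 | h0 <;> rcases key 1 with h1 | h1 <;> rcases key 2 with h2 | h2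
  · exact ⟨0, by funext i; fin_cases i <;> simp [kk, h0, h1, h2]⟩
  · exact ⟨4, by funext i; fin_cases i <;> simp [kk, h0, h1, h2]⟩
  · exact ⟨2, by funext i; fin_cases i <;> simp [kk, h0, h1, h2]⟩
  · exact ⟨6, by funext i; fin_cases i <;> simp [kk, h0, h1, h2]⟩
  · exact ⟨1, by funext i; fin_cases i <;> simp [kk, h0, h1, h2]⟩
  · exact ⟨5, by funext i; fin_cases i <;> simp [kk, h0, h1, h2]⟩
  · exact ⟨3, by funext i; fin_cases i <;> simp [kk, h0, h1, h2]⟩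
  · exact ⟨7, by funext i; fin_cases i <;> simp [kk, h0, h1, h2]⟩

/-- the parameter space -/
abbrev PwbX : Type := (Fin 3 → ℝ) × (Fin 8 → ℝ) × (Fin 11 → ℝ) × (Fin 11 → ℝ) × ℝ

/-- the compact set of parameters -/
def pwbS : Set PwbX :=
  (Icc (-1) 1 ×ˢ Icc (-1) 1 ×ˢ Icc (-1) 1 ×ˢ Icc (-1) 1 ×ˢ Icc 0 1) ∩
    ({x | ∀ c, |x.2.2.1 c| ≤ x.2.2.2.2} ∩ {x | ∀ c, |x.2.2.2.1 c| ≤ x.2.2.2.2})

theorem pwbS_compact : IsCompact pwbS := by
  unfold pwbS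
  apply IsCompact.inter_right
  · exact isCompact_Icc.prod (isCompact_Icc.prod (isCompact_Icc.prod
      (isCompact_Icc.prod isCompact_Icc)))
  · apply IsClosed.inter
    · have : {x : PwbX | ∀ c, |x.2.2.1 c| ≤ x.2.2.2.2} = ⋂ c, {x : PwbX | |x.2.2.1 c| ≤ x.2.2.2.2} := by
        ext x
        simp
      rw [this]
      exact isClosed_iInter fun c => isClosed_le (by fun_prop) (by fun_prop)
    · have : {x : PwbX | ∀ c, |x.2.2.2.1 c| ≤ x.2.2.2.2} =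
          ⋂ c, {x : PwbX | |x.2.2.2.1 c| ≤ x.2.2.2.2} := by
        ext x
        simp
      rw [this]
      exact isClosed_iInter fun c => isClosed_le (by fun_prop) (by fun_prop)

noncomputable def pwbh (k K : ℝ) (x : PwbX) : ℝ :=
  min (Wv k K 1 (pf x.1 x.2.1 + x.2.2.1) x.2.2.2.1) (Wv k K (-1) (pf x.1 x.2.1 + x.2.2.1) x.2.2.2.1)
    - (1 - x.1 0 * x.1 1 * x.1 2) - 3 / 50

noncomputable def pwbpen (x : PwbX) : ℝ :=
  ∑ i, (1 - x.1 i ^ 2) + ∑ j, (1 - x.2.1 j ^ 2) + x.2.2.2.2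

theorem pwbpen_cont : Continuous pwbpen := by
  unfold pwbpen
  fun_prop

theorem pwbh_cont (k K : ℝ) : Continuous (pwbh k K) := by
  unfold pwbh
  have h1 : Continuous (fun x : PwbX => (pf x.1 x.2.1 + x.2.2.1 : Fin 11 → ℝ)) :=
    (pwb_cont_pf.comp (continuous_fst.prodMk (continuous_fst.comp continuous_snd))).add
      (by fun_prop)
  have h2 : Continuous (fun x : PwbX => x.2.2.2.1) := by fun_prop
  have h3 : ∀ sg, Continuous (fun x : PwbX => Wv k K sg (pf x.1 x.2.1 + x.2.2.1) x.2.2.2.1) :=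
    fun sg => (pwb_cont k K sg).comp (h1.prodMk h2)
  have h4 : Continuous (fun x : PwbX => 1 - x.1 0 * x.1 1 * x.1 2) := by fun_prop
  exact (((h3 1).min (h3 (-1))).sub h4).sub continuous_const

theorem pwb_sq_nonneg {t : ℝ} (h1 : -1 ≤ t) (h2 : t ≤ 1) : 0 ≤ 1 - t ^ 2 := by nlinarith

theorem pwb_pen_nonneg : ∀ x ∈ pwbS, 0 ≤ pwbpen x := by
  rintro ⟨a, b, r, s, rho⟩ ⟨⟨ha, hb, hr, hs, hrho⟩, -⟩
  unfold pwbpen
  have h1 : 0 ≤ ∑ i, (1 - a i ^ 2) :=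
    Finset.sum_nonneg fun i _ => pwb_sq_nonneg (ha.1 i) (ha.2 i)
  have h2 : 0 ≤ ∑ j, (1 - b j ^ 2) :=
    Finset.sum_nonneg fun i _ => pwb_sq_nonneg (hb.1 i) (hb.2 i)
  have h3 : (0 : ℝ) ≤ rho := hrho.1
  show 0 ≤ ∑ i, (1 - a i ^ 2) + ∑ j, (1 - b j ^ 2) + rho
  linarith

theorem pwb_zero (k K : ℝ) : ∀ x ∈ pwbS, pwbpen x = 0 → pwbh k K x ≤ 0 := by
  rintro ⟨a, b, r, s, rho⟩ ⟨⟨ha, hb, hr, hs, hrho⟩, hr', hs'⟩ hpen
  have h1 : 0 ≤ ∑ i, (1 - a i ^ 2) :=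
    Finset.sum_nonneg fun i _ => pwb_sq_nonneg (ha.1 i) (ha.2 i)
  have h2 : 0 ≤ ∑ j, (1 - b j ^ 2) :=
    Finset.sum_nonneg fun i _ => pwb_sq_nonneg (hb.1 i) (hb.2 i)
  have h3 : (0 : ℝ) ≤ rho := hrho.1
  have hpen' : ∑ i, (1 - a i ^ 2) + ∑ j, (1 - b j ^ 2) + rho = 0 := hpen
  have e1 : ∑ i, (1 - a i ^ 2) = 0 := by linarith
  have e2 : ∑ j, (1 - b j ^ 2) = 0 := by linarith
  have e3 : rho = 0 := by linarith
  have ha1 : ∀ i, a i ^ 2 = 1 := by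
    intro i
    have := (Finset.sum_eq_zero_iff_of_nonneg
      (fun i _ => pwb_sq_nonneg (ha.1 i) (ha.2 i))).1 e1 i (Finset.mem_univ i)
    linarith
  have hb1 : ∀ i, b i ^ 2 = 1 := by
    intro i
    have := (Finset.sum_eq_zero_iff_of_nonneg
      (fun i _ => pwb_sq_nonneg (hb.1 i) (hb.2 i))).1 e2 i (Finset.mem_univ i)
    linarith
  have hr0 : r = 0 := by
    funext c
    have h4 : |r c| ≤ rho := hr' c
    rw [e3] at h4
    exact abs_nonpos_iff.1 h4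
  have hs0 : s = 0 := by
    funext c
    have h4 : |s c| ≤ rho := hs' c
    rw [e3] at h4
    exact abs_nonpos_iff.1 h4
  obtain ⟨j, rfl⟩ := pwb_vertex a ha1
  subst hr0 hs0
  show min (Wv k K 1 (pf (kk j) b + 0) 0) (Wv k K (-1) (pf (kk j) b + 0) 0)
    - (1 - kk j 0 * kk j 1 * kk j 2) - 3 / 50 ≤ 0
  rw [add_zero, pwb_pf]
  have hbj : b j = 1 ∨ b j = -1 := by
    have := hb1 j
    rw [sq] at this
    exact mul_self_eq_one_iff.1 this
  rcases hbj with hbj | hbj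
  · rw [hbj]
    have h5 := pwb_Wv k K j 1 (by norm_num)
    have h6 := min_le_left (Wv k K 1 (pwbv j 1) 0) (Wv k K (-1) (pwbv j 1) 0)
    linarith
  · rw [hbj]
    have h5 := pwb_Wv k K j (-1) (by norm_num)
    have h6 := min_le_right (Wv k K 1 (pwbv j (-1)) 0) (Wv k K (-1) (pwbv j (-1)) 0)
    linarith

theorem pointwise_bound (k K : ℝ) (hk : 0 ≤ k) (hK : 0 ≤ K) (e : ℝ) (he : 0 < e) :
    ∃ L : ℝ, 0 ≤ L ∧ ∀ (a : Fin 3 → ℝ) (b : Fin 8 → ℝ) (p s : Fin 11 → ℝ) (rho : ℝ),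
      (∀ i, |a i| ≤ 1) → (∀ j, |b j| ≤ 1) → 0 ≤ rho → rho ≤ 1 →
      (∀ c, |p c - pf a b c| ≤ rho) → (∀ c, |s c| ≤ rho) →
      min (Wv k K 1 p s) (Wv k K (-1) p s) ≤ (1 - a 0 * a 1 * a 2) + 3 / 50 + e +
        L * (∑ i, (1 - a i ^ 2) + ∑ j, (1 - b j ^ 2) + rho) := by
  obtain ⟨L, hL0, hL⟩ := pwb_compact pwbS_compact (pwbh_cont k K) pwbpen_cont pwb_pen_nonneg
    (pwb_zero k K) e he
  refine ⟨L, hL0, ?_⟩
  intro a b p s rho ha hb h0 h1 hp hs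
  have hmem : ((a, b, p - pf a b, s, rho) : PwbX) ∈ pwbS := by
    refine ⟨⟨⟨fun i => (abs_le.1 (ha i)).1, fun i => (abs_le.1 (ha i)).2⟩,
      ⟨fun i => (abs_le.1 (hb i)).1, fun i => (abs_le.1 (hb i)).2⟩,
      ⟨fun c => (abs_le.1 ((hp c).trans h1)).1, fun c => (abs_le.1 ((hp c).trans h1)).2⟩,
      ⟨fun c => (abs_le.1 ((hs c).trans h1)).1, fun c => (abs_le.1 ((hs c).trans h1)).2⟩,
      h0, h1⟩, hp, hs⟩
  have h2 := hL _ hmem
  have h3 : pwbh k K ((a, b, p - pf a b, s, rho) : PwbX) =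
      min (Wv k K 1 p s) (Wv k K (-1) p s) - (1 - a 0 * a 1 * a 2) - 3 / 50 := by
    show min (Wv k K 1 (pf a b + (p - pf a b)) s) (Wv k K (-1) (pf a b + (p - pf a b)) s)
      - (1 - a 0 * a 1 * a 2) - 3 / 50 = _
    rw [add_sub_cancel]
  have h4 : pwbpen ((a, b, p - pf a b, s, rho) : PwbX) =
      ∑ i, (1 - a i ^ 2) + ∑ j, (1 - b j ^ 2) + rho := rfl
  rw [h3, h4] at h2
  linarith


end TwoWell.JQ4
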