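import Pool.Agent.TwoWell.Defs2
set_option autoImplicit false
open Set
namespace TwoWell.JQ5

open Matrix MeasureTheory










theorem grad_uu_kk (j : Fin 8) (i : Fin 3) : |kk j i| = 1 := by
  fin_cases j <;> fin_cases i <;> simp [kk]

noncomputable def grad_uu_L (a b : ℝ) : (Fin 2 → ℝ) →L[ℝ] ℝ :=
  a • ContinuousLinearMap.proj (R := ℝ) (φ := fun _ : Fin 2 => ℝ) 0 +
    b • ContinuousLinearMap.proj (R := ℝ) (φ := fun _ : Fin 2 => ℝ) 1

theorem grad_uu_L_apply (a b : ℝ) (v : Fin 2 → ℝ) : grad_uu_L a b v = a * v 0 + b * v 1 := by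
  simp [grad_uu_L]

theorem grad_uu_lin (a b : ℝ) (f : (Fin 2 → ℝ) → ℝ) (hf : ∀ x, f x = a * x 0 + b * x 1)
    (x : Fin 2 → ℝ) : HasFDerivAt f (grad_uu_L a b) x := by
  have h : f = ⇑(grad_uu_L a b) := by
    funext y
    rw [grad_uu_L_apply, hf]
  rw [h]
  exact (grad_uu_L a b).hasFDerivAt

theorem grad_uu_chain (g : ℝ → ℝ) (g' a b : ℝ) (f : (Fin 2 → ℝ) → ℝ)
    (hf : ∀ x, f x = a * x 0 + b * x 1) (x : Fin 2 → ℝ) (hg : HasDerivAt g g' (f x)) :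
    HasFDerivAt (fun x => g (f x)) (grad_uu_L (g' * a) (g' * b)) x := by
  have h := hg.comp_hasFDerivAt x (grad_uu_lin a b f hf x)
  have h2 : g' • grad_uu_L a b = grad_uu_L (g' * a) (g' * b) := by
    refine ContinuousLinearMap.ext fun v => ?_
    simp only [ContinuousLinearMap.smul_apply, grad_uu_L_apply, smul_eq_mul]
    ring
  rw [h2] at h
  exact h

theorem grad_uu_fac (k a : ℝ) (hk : |k| = 1) (ha : |a| ≤ 1) : |(1 + k * a) / 2| ≤ 1 := by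
  have h1 : |k * a| ≤ 1 := by rw [abs_mul, hk, one_mul]; exact ha
  rw [abs_le] at h1 ⊢
  constructor <;> linarith [h1.1, h1.2]

theorem grad_uu_facd (k a' D : ℝ) (hk : |k| = 1) (ha : |a'| ≤ D) : |k * a' / 2| ≤ D / 2 := by
  rw [abs_div, abs_mul, hk, one_mul, abs_two]
  linarith

theorem grad_uu_fine (a0 a2 S : ℝ → ℝ) (D : ℝ)
    (ha0 : Differentiable ℝ a0) (ha2 : Differentiable ℝ a2) (hS : Differentiable ℝ S)
    (hb0 : ∀ t, |a0 t| ≤ 1) (hb2 : ∀ t, |a2 t| ≤ 1)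
    (hd0 : ∀ t, |deriv a0 t| ≤ D) (hd2 : ∀ t, |deriv a2 t| ≤ D)
    (j : Fin 8) (q : ℝ) (x : Fin 2 → ℝ) :
    ∃ t0 t1 : ℝ, |t0| ≤ D ∧ |t1| ≤ D ∧
      HasFDerivAt (fun x : Fin 2 → ℝ => theta ![a0 (x 0), a0 (x 1), a2 (x 0 + x 1)] j *
          S (x 0 + q * x 1))
        (grad_uu_L
          (theta ![a0 (x 0), a0 (x 1), a2 (x 0 + x 1)] j * deriv S (x 0 + q * x 1) +
            t0 * S (x 0 + q * x 1))
          (theta ![a0 (x 0), a0 (x 1), a2 (x 0 + x 1)] j * (q * deriv S (x 0 + q * x 1)) +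
            t1 * S (x 0 + q * x 1))) x := by
  have hD : 0 ≤ D := (abs_nonneg _).trans (hd0 0)
  have g0 := grad_uu_chain (fun t => (1 + kk j 0 * a0 t) / 2) (kk j 0 * deriv a0 (x 0) / 2) 1 0
    (fun x => x 0) (fun x => by ring) x
    ((((ha0 (x 0)).hasDerivAt.const_mul (kk j 0)).const_add 1).div_const 2)
  have g1 := grad_uu_chain (fun t => (1 + kk j 1 * a0 t) / 2) (kk j 1 * deriv a0 (x 1) / 2) 0 1
    (fun x => x 1) (fun x => by ring) x
    ((((ha0 (x 1)).hasDerivAt.const_mul (kk j 1)).const_add 1).div_const 2)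
  have g2 := grad_uu_chain (fun t => (1 + kk j 2 * a2 t) / 2)
    (kk j 2 * deriv a2 (x 0 + x 1) / 2) 1 1
    (fun x => x 0 + x 1) (fun x => by ring) x
    ((((ha2 (x 0 + x 1)).hasDerivAt.const_mul (kk j 2)).const_add 1).div_const 2)
  have gS := grad_uu_chain S (deriv S (x 0 + q * x 1)) 1 q
    (fun x => x 0 + q * x 1) (fun x => by ring) x (hS (x 0 + q * x 1)).hasDerivAt
  have h := ((g0.mul g1).mul g2).mul gS
  set f0 := (1 + kk j 0 * a0 (x 0)) / 2 with hf0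
  set f1 := (1 + kk j 1 * a0 (x 1)) / 2 with hf1
  set f2 := (1 + kk j 2 * a2 (x 0 + x 1)) / 2 with hf2
  set e0 := kk j 0 * deriv a0 (x 0) / 2 with he0
  set e1 := kk j 1 * deriv a0 (x 1) / 2 with he1
  set e2 := kk j 2 * deriv a2 (x 0 + x 1) / 2 with he2
  have b0 : |f0| ≤ 1 := grad_uu_fac _ _ (grad_uu_kk j 0) (hb0 _)
  have b1 : |f1| ≤ 1 := grad_uu_fac _ _ (grad_uu_kk j 1) (hb0 _)
  have b2 : |f2| ≤ 1 := grad_uu_fac _ _ (grad_uu_kk j 2) (hb2 _)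
  have c0 : |e0| ≤ D / 2 := grad_uu_facd _ _ _ (grad_uu_kk j 0) (hd0 _)
  have c1 : |e1| ≤ D / 2 := grad_uu_facd _ _ _ (grad_uu_kk j 1) (hd0 _)
  have c2 : |e2| ≤ D / 2 := grad_uu_facd _ _ _ (grad_uu_kk j 2) (hd2 _)
  have hprod : ∀ u v w : ℝ, |u| ≤ D / 2 → |v| ≤ 1 → |w| ≤ 1 → |u * v * w| ≤ D / 2 := by
    intro u v w hu hv hw
    rw [abs_mul, abs_mul]
    calc |u| * |v| * |w| ≤ (D / 2) * 1 * 1 := by
          apply mul_le_mul _ hw (abs_nonneg _) (by positivity)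
          exact mul_le_mul hu hv (abs_nonneg _) (by positivity)
      _ = D / 2 := by ring
  refine ⟨e0 * f1 * f2 + e2 * f0 * f1, e1 * f0 * f2 + e2 * f0 * f1, ?_, ?_, ?_⟩
  · refine (abs_add_le _ _).trans ?_
    linarith [hprod _ _ _ c0 b1 b2, hprod _ _ _ c2 b0 b1]
  · refine (abs_add_le _ _).trans ?_
    linarith [hprod _ _ _ c1 b0 b2, hprod _ _ _ c2 b0 b1]
  · have hth : theta ![a0 (x 0), a0 (x 1), a2 (x 0 + x 1)] j = f0 * f1 * f2 := by
      simp [theta, hf0, hf1, hf2]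
    have hfun : (fun x : Fin 2 → ℝ => theta ![a0 (x 0), a0 (x 1), a2 (x 0 + x 1)] j *
          S (x 0 + q * x 1)) = fun x : Fin 2 → ℝ => ((1 + kk j 0 * a0 (x 0)) / 2 *
            ((1 + kk j 1 * a0 (x 1)) / 2) * ((1 + kk j 2 * a2 (x 0 + x 1)) / 2)) *
              S (x 0 + q * x 1) := by
      funext y
      simp [theta]
    rw [hth, hfun]
    refine h.congr_fderiv ?_
    refine ContinuousLinearMap.ext fun v => ?_
    simp only [grad_uu_L_apply, ContinuousLinearMap.add_apply, ContinuousLinearMap.smul_apply,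
      smul_eq_mul, Pi.mul_apply]
    ring

theorem grad_uu_est (S0 S' th t0 t1 q D r rho : ℝ) (hq : 2 ≤ q) (h0 : |t0| ≤ D) (h1 : |t1| ≤ D)
    (hr : |S0| ≤ r) (hDr : D * r ≤ rho) :
    |((0 + (th * S' + t0 * S0)) * 1 + (0 + (th * (q * S') + t1 * S0)) * q) / (1 ^ 2 + q ^ 2) -
      th * S'| ≤ rho ∧
    |(-((0 + (th * S' + t0 * S0)) * q) + (0 + (th * (q * S') + t1 * S0)) * 1) /
      (1 ^ 2 + q ^ 2)| ≤ rho := by
  have hD : 0 ≤ D := (abs_nonneg _).trans h0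
  have hr0 : 0 ≤ r := (abs_nonneg _).trans hr
  have hq2 : 0 < 1 ^ 2 + q ^ 2 := by positivity
  have e1 : ((0 + (th * S' + t0 * S0)) * 1 + (0 + (th * (q * S') + t1 * S0)) * q) /
      (1 ^ 2 + q ^ 2) - th * S' = S0 * (t0 + q * t1) / (1 ^ 2 + q ^ 2) := by
    field_simp
    ring
  have e2 : (-((0 + (th * S' + t0 * S0)) * q) + (0 + (th * (q * S') + t1 * S0)) * 1) /
      (1 ^ 2 + q ^ 2) = S0 * (-(q * t0) + t1) / (1 ^ 2 + q ^ 2) := by
    field_simp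
    ring
  have hb : ∀ w : ℝ, |w| ≤ D * (1 + q) → |S0 * w / (1 ^ 2 + q ^ 2)| ≤ rho := by
    intro w hw
    rw [abs_div, abs_mul, abs_of_pos hq2, div_le_iff₀ hq2]
    calc |S0| * |w| ≤ r * (D * (1 + q)) := mul_le_mul hr hw (abs_nonneg _) hr0
      _ = (D * r) * (1 + q) := by ring
      _ ≤ (D * r) * (1 ^ 2 + q ^ 2) := by
          apply mul_le_mul_of_nonneg_left _ (by positivity)
          nlinarith
      _ ≤ rho * (1 ^ 2 + q ^ 2) := mul_le_mul_of_nonneg_right hDr hq2.le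
  have hqt : ∀ t : ℝ, |t| ≤ D → |q * t| ≤ q * D := by
    intro t ht
    rw [abs_mul, abs_of_pos (by linarith : (0 : ℝ) < q)]
    exact mul_le_mul_of_nonneg_left ht (by linarith)
  rw [e1, e2]
  refine ⟨hb _ ?_, hb _ ?_⟩
  · refine (abs_add_le _ _).trans ?_
    linarith [hqt t1 h1]
  · refine (abs_add_le _ _).trans ?_
    rw [abs_neg]
    linarith [hqt t0 h0]

theorem grad_uu (A0 A2 a0 a2 S : ℝ → ℝ) (m0 m2 D r rho : ℝ)
    (hA0 : ∀ t, HasDerivAt A0 (a0 t - m0) t) (hA2 : ∀ t, HasDerivAt A2 (a2 t - m2) t)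
    (ha0 : Differentiable ℝ a0) (ha2 : Differentiable ℝ a2) (hS : Differentiable ℝ S)
    (hb0 : ∀ t, |a0 t| ≤ 1) (hb2 : ∀ t, |a2 t| ≤ 1)
    (hd0 : ∀ t, |deriv a0 t| ≤ D) (hd2 : ∀ t, |deriv a2 t| ≤ D) (hSr : ∀ t, |S t| ≤ r)
    (h0 : |-1/3 - m0| ≤ rho) (h2 : |1/3 - m2| ≤ rho) (hDr : D * r ≤ rho) (x : Fin 2 → ℝ) :
    ∀ c, |pp (Gm A0 A2 a0 a2 S x) c - pf ![a0 (x 0), a0 (x 1), a2 (x 0 + x 1)]
        (fun j => deriv S (x 0 + (j.val + 2 : ℕ) * x 1)) c| ≤ rho ∧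
      |ss (Gm A0 A2 a0 a2 S x) c| ≤ rho := by
  have hrho : 0 ≤ rho := (abs_nonneg _).trans h0
  choose t0 t1 ht0 ht1 hfin using fun j : Fin 8 =>
    grad_uu_fine a0 a2 S D ha0 ha2 hS hb0 hb2 hd0 hd2 j ((j.val + 2 : ℕ) : ℝ) x
  let a : Fin 3 → ℝ := ![a0 (x 0), a0 (x 1), a2 (x 0 + x 1)]
  let d0 : Fin 11 → ℝ := Fin.append (![a0 (x 0) - m0, 0, a2 (x 0 + x 1) - m2] : Fin 3 → ℝ)
    (fun j : Fin 8 => theta a j * deriv S (x 0 + ((j.val + 2 : ℕ) : ℝ) * x 1) +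
            t0 j * S (x 0 + ((j.val + 2 : ℕ) : ℝ) * x 1))
  let d1 : Fin 11 → ℝ := Fin.append (![0, a0 (x 1) - m0, a2 (x 0 + x 1) - m2] : Fin 3 → ℝ)
    (fun j : Fin 8 => theta a j * (((j.val + 2 : ℕ) : ℝ) *
        deriv S (x 0 + ((j.val + 2 : ℕ) : ℝ) * x 1)) +
            t1 j * S (x 0 + ((j.val + 2 : ℕ) : ℝ) * x 1))
  have hA : ∀ c : Fin 11, HasFDerivAt (fun y => uu A0 A2 a0 a2 S y c)
      (grad_uu_L (d0 c) (d1 c)) x := by
    intro c
    have k0 : HasFDerivAt (fun y : Fin 2 → ℝ => A0 (y 0)) (grad_uu_L (a0 (x 0) - m0) 0) x := by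
      have := grad_uu_chain A0 (a0 (x 0) - m0) 1 0 (fun y => y 0) (fun y => by ring) x (hA0 _)
      simpa using this
    have k1 : HasFDerivAt (fun y : Fin 2 → ℝ => A0 (y 1)) (grad_uu_L 0 (a0 (x 1) - m0)) x := by
      have := grad_uu_chain A0 (a0 (x 1) - m0) 0 1 (fun y => y 1) (fun y => by ring) x (hA0 _)
      simpa using this
    have k2 : HasFDerivAt (fun y : Fin 2 → ℝ => A2 (y 0 + y 1))
        (grad_uu_L (a2 (x 0 + x 1) - m2) (a2 (x 0 + x 1) - m2)) x := by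
      have := grad_uu_chain A2 (a2 (x 0 + x 1) - m2) 1 1 (fun y => y 0 + y 1)
        (fun y => by ring) x (hA2 _)
      simpa using this
    fin_cases c
    · exact k0
    · exact k1
    · exact k2
    · have := hfin 0; norm_num at this; exact this
    · exact hfin 1
    · exact hfin 2
    · exact hfin 3
    · exact hfin 4
    · exact hfin 5
    · exact hfin 6
    · exact hfin 7
  have hG : HasFDerivAt (uu A0 A2 a0 a2 S)
      (ContinuousLinearMap.pi fun c => grad_uu_L (d0 c) (d1 c)) x := hasFDerivAt_pi.2 hA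
  have hF0 : ∀ c, Gm A0 A2 a0 a2 S x 0 c = p0 c * nx c + d0 c := by
    intro c
    simp only [Gm, hG.fderiv, F0m, Matrix.add_apply, Matrix.of_apply,
      ContinuousLinearMap.coe_pi', grad_uu_L_apply, Matrix.cons_val_zero]
    simp
  have hF1 : ∀ c, Gm A0 A2 a0 a2 S x 1 c = p0 c * ny c + d1 c := by
    intro c
    simp only [Gm, hG.fderiv, F0m, Matrix.add_apply, Matrix.of_apply,
      ContinuousLinearMap.coe_pi', grad_uu_L_apply, Matrix.cons_val_one]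
    simp
  have hpp : ∀ c, pp (Gm A0 A2 a0 a2 S x) c =
      ((p0 c * nx c + d0 c) * nx c + (p0 c * ny c + d1 c) * ny c) /
        ((nx c : ℝ) ^ 2 + (ny c : ℝ) ^ 2) := by
    intro c
    rw [pp, hF0, hF1, nn]
  have hss : ∀ c, ss (Gm A0 A2 a0 a2 S x) c =
      (-((p0 c * nx c + d0 c) * ny c) + (p0 c * ny c + d1 c) * nx c) /
        ((nx c : ℝ) ^ 2 + (ny c : ℝ) ^ 2) := by
    intro c
    rw [ss, hF0, hF1, nn]
  have hfine : ∀ (j : Fin 8) (c : Fin 11), p0 c = 0 → nx c = 1 → (ny c : ℝ) = ((j.val + 2 : ℕ) : ℝ) →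
      d0 c = theta a j * deriv S (x 0 + ((j.val + 2 : ℕ) : ℝ) * x 1) +
            t0 j * S (x 0 + ((j.val + 2 : ℕ) : ℝ) * x 1) →
      d1 c = theta a j * (((j.val + 2 : ℕ) : ℝ) *
        deriv S (x 0 + ((j.val + 2 : ℕ) : ℝ) * x 1)) +
            t1 j * S (x 0 + ((j.val + 2 : ℕ) : ℝ) * x 1) →
      pf a (fun j => deriv S (x 0 + (j.val + 2 : ℕ) * x 1)) c =
        theta a j * deriv S (x 0 + ((j.val + 2 : ℕ) : ℝ) * x 1) →
      |pp (Gm A0 A2 a0 a2 S x) c - pf a (fun j => deriv S (x 0 + (j.val + 2 : ℕ) * x 1)) c| ≤ rho ∧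
        |ss (Gm A0 A2 a0 a2 S x) c| ≤ rho := by
    intro j c e1 e2 e3 e4 e5 e6
    have hq : (2 : ℝ) ≤ ((j.val + 2 : ℕ) : ℝ) := by
      push_cast
      linarith [Nat.cast_nonneg (α := ℝ) j.val]
    have hest := grad_uu_est (S (x 0 + ((j.val + 2 : ℕ) : ℝ) * x 1))
      (deriv S (x 0 + ((j.val + 2 : ℕ) : ℝ) * x 1)) (theta a j) (t0 j) (t1 j)
      ((j.val + 2 : ℕ) : ℝ) D r rho hq (ht0 j) (ht1 j) (hSr _) hDr
    rw [hpp, hss, e6, e4, e5, e1, e2, e3]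
    simpa using hest
  intro c
  fin_cases c
  · have e1 : pp (Gm A0 A2 a0 a2 S x) 0 -
          pf a (fun j => deriv S (x 0 + (j.val + 2 : ℕ) * x 1)) 0 = -1/3 - m0 := by
      rw [hpp]
      simp [p0, nx, ny, d0, d1, pf, a, Fin.append, Fin.addCases]
      try ring
    have e2 : ss (Gm A0 A2 a0 a2 S x) 0 = 0 := by
      rw [hss]
      simp [p0, nx, ny, d0, d1, a, Fin.append, Fin.addCases]
    exact ⟨e1 ▸ h0, by rw [show ss (Gm A0 A2 a0 a2 S x) ⟨0, by norm_num⟩ = 0 from e2, abs_zero]; exact hrho⟩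
  · have e1 : pp (Gm A0 A2 a0 a2 S x) 1 -
          pf a (fun j => deriv S (x 0 + (j.val + 2 : ℕ) * x 1)) 1 = -1/3 - m0 := by
      rw [hpp]
      simp [p0, nx, ny, d0, d1, pf, a, Fin.append, Fin.addCases]
      try ring
    have e2 : ss (Gm A0 A2 a0 a2 S x) 1 = 0 := by
      rw [hss]
      simp [p0, nx, ny, d0, d1, a, Fin.append, Fin.addCases]
    exact ⟨e1 ▸ h0, by rw [show ss (Gm A0 A2 a0 a2 S x) ⟨1, by norm_num⟩ = 0 from e2, abs_zero]; exact hrho⟩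
  · have e1 : pp (Gm A0 A2 a0 a2 S x) 2 -
          pf a (fun j => deriv S (x 0 + (j.val + 2 : ℕ) * x 1)) 2 = 1/3 - m2 := by
      rw [hpp]
      simp [p0, nx, ny, d0, d1, pf, a, Fin.append, Fin.addCases]
      try ring
    have e2 : ss (Gm A0 A2 a0 a2 S x) 2 = 0 := by
      rw [hss]
      simp [p0, nx, ny, d0, d1, a, Fin.append, Fin.addCases]
    exact ⟨e1 ▸ h2, by rw [show ss (Gm A0 A2 a0 a2 S x) ⟨2, by norm_num⟩ = 0 from e2, abs_zero]; exact hrho⟩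
  · exact hfine 0 3 (by simp [p0]) (by simp [nx]) (by simp [ny]) rfl rfl rfl
  · exact hfine 1 4 (by simp [p0]) (by simp [nx]) (by simp [ny]) rfl rfl rfl
  · exact hfine 2 5 (by simp [p0]) (by simp [nx]) (by simp [ny]) rfl rfl rfl
  · exact hfine 3 6 (by simp [p0]) (by simp [nx]) (by simp [ny]) rfl rfl rfl
  · exact hfine 4 7 (by simp [p0]) (by simp [nx]) (by simp [ny]) rfl rfl rfl
  · exact hfine 5 8 (by simp [p0]) (by simp [nx]) (by simp [ny]) rfl rfl rfl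
  · exact hfine 6 9 (by simp [p0]) (by simp [nx]) (by simp [ny]) rfl rfl rfl
  · exact hfine 7 10 (by simp [p0]) (by simp [nx]) (by simp [ny]) rfl rfl rfl


end TwoWell.JQ5
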