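import Pool.Agent.TwoWell.Defs2
set_option autoImplicit false
open Set
namespace TwoWell.JQ5b

open Matrix MeasureTheory






theorem uu_smooth_periodic (A0 A2 a0 a2 S : ℝ → ℝ)
    (hA0 : ContDiff ℝ ((⊤ : ℕ∞) : WithTop ℕ∞) A0) (hA2 : ContDiff ℝ ((⊤ : ℕ∞) : WithTop ℕ∞) A2)
    (ha0 : ContDiff ℝ ((⊤ : ℕ∞) : WithTop ℕ∞) a0) (ha2 : ContDiff ℝ ((⊤ : ℕ∞) : WithTop ℕ∞) a2)
    (hS : ContDiff ℝ ((⊤ : ℕ∞) : WithTop ℕ∞) S)
    (pA0 : Function.Periodic A0 1) (pA2 : Function.Periodic A2 1)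
    (pa0 : Function.Periodic a0 1) (pa2 : Function.Periodic a2 1) (pS : Function.Periodic S 1) :
    ContDiff ℝ ((⊤ : ℕ∞) : WithTop ℕ∞) (uu A0 A2 a0 a2 S) ∧
    ∀ (x : Fin 2 → ℝ) (z : Fin 2 → ℤ),
      uu A0 A2 a0 a2 S (x + fun i => (z i : ℝ)) = uu A0 A2 a0 a2 S x := by
  constructor
  · rw [contDiff_pi]
    have hx0 : ContDiff ℝ ((⊤ : ℕ∞) : WithTop ℕ∞) (fun x : Fin 2 → ℝ => x 0) := contDiff_apply ℝ ℝ 0
    have hx1 : ContDiff ℝ ((⊤ : ℕ∞) : WithTop ℕ∞) (fun x : Fin 2 → ℝ => x 1) := contDiff_apply ℝ ℝ 1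
    have h0 : ContDiff ℝ ((⊤ : ℕ∞) : WithTop ℕ∞) (fun x : Fin 2 → ℝ => a0 (x 0)) := ha0.comp hx0
    have h1 : ContDiff ℝ ((⊤ : ℕ∞) : WithTop ℕ∞) (fun x : Fin 2 → ℝ => a0 (x 1)) := ha0.comp hx1
    have h2 : ContDiff ℝ ((⊤ : ℕ∞) : WithTop ℕ∞) (fun x : Fin 2 → ℝ => a2 (x 0 + x 1)) :=
      ha2.comp (hx0.add hx1)
    have hth : ∀ j : Fin 8, ContDiff ℝ ((⊤ : ℕ∞) : WithTop ℕ∞) (fun x : Fin 2 → ℝ =>
        theta ![a0 (x 0), a0 (x 1), a2 (x 0 + x 1)] j) := by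
      intro j
      have e : (fun x : Fin 2 → ℝ => theta ![a0 (x 0), a0 (x 1), a2 (x 0 + x 1)] j) =
          fun x : Fin 2 → ℝ => ((1 + kk j 0 * a0 (x 0)) / 2) * ((1 + kk j 1 * a0 (x 1)) / 2) *
            ((1 + kk j 2 * a2 (x 0 + x 1)) / 2) := by
        funext x
        rfl
      rw [e]
      exact (((contDiff_const.add (contDiff_const.mul h0)).div_const 2).mul
        ((contDiff_const.add (contDiff_const.mul h1)).div_const 2)).mul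
        ((contDiff_const.add (contDiff_const.mul h2)).div_const 2)
    have hSq : ∀ q : ℝ, ContDiff ℝ ((⊤ : ℕ∞) : WithTop ℕ∞) (fun x : Fin 2 → ℝ =>
        S (x 0 + q * x 1)) := fun q => hS.comp (hx0.add (contDiff_const.mul hx1))
    intro i
    fin_cases i
    · exact hA0.comp hx0
    · exact hA0.comp hx1
    · exact hA2.comp (hx0.add hx1)
    · exact (hth 0).mul (hSq 2)
    · exact (hth 1).mul (hSq 3)
    · exact (hth 2).mul (hSq 4)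
    · exact (hth 3).mul (hSq 5)
    · exact (hth 4).mul (hSq 6)
    · exact (hth 5).mul (hSq 7)
    · exact (hth 6).mul (hSq 8)
    · exact (hth 7).mul (hSq 9)
  · intro x z
    have hp : ∀ (f : ℝ → ℝ), Function.Periodic f 1 → ∀ (y w : ℝ) (m : ℤ), w = y + m → f w = f y := by
      intro f hf y w m hw
      have := hf.int_mul m y
      rw [hw]
      simpa using this
    have e0 : (x + fun i => (z i : ℝ)) 0 = x 0 + z 0 := rfl
    have e1 : (x + fun i => (z i : ℝ)) 1 = x 1 + z 1 := rfl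
    unfold uu
    rw [e0, e1, hp A0 pA0 (x 0) _ (z 0) rfl, hp A0 pA0 (x 1) _ (z 1) rfl,
      hp a0 pa0 (x 0) _ (z 0) rfl, hp a0 pa0 (x 1) _ (z 1) rfl,
      hp A2 pA2 (x 0 + x 1) (x 0 + z 0 + (x 1 + z 1)) (z 0 + z 1) (by push_cast; ring),
      hp a2 pa2 (x 0 + x 1) (x 0 + z 0 + (x 1 + z 1)) (z 0 + z 1) (by push_cast; ring),
      hp S pS (x 0 + 2 * x 1) (x 0 + z 0 + 2 * (x 1 + z 1)) (z 0 + 2 * z 1) (by push_cast; ring),
      hp S pS (x 0 + 3 * x 1) (x 0 + z 0 + 3 * (x 1 + z 1)) (z 0 + 3 * z 1) (by push_cast; ring),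
      hp S pS (x 0 + 4 * x 1) (x 0 + z 0 + 4 * (x 1 + z 1)) (z 0 + 4 * z 1) (by push_cast; ring),
      hp S pS (x 0 + 5 * x 1) (x 0 + z 0 + 5 * (x 1 + z 1)) (z 0 + 5 * z 1) (by push_cast; ring),
      hp S pS (x 0 + 6 * x 1) (x 0 + z 0 + 6 * (x 1 + z 1)) (z 0 + 6 * z 1) (by push_cast; ring),
      hp S pS (x 0 + 7 * x 1) (x 0 + z 0 + 7 * (x 1 + z 1)) (z 0 + 7 * z 1) (by push_cast; ring),
      hp S pS (x 0 + 8 * x 1) (x 0 + z 0 + 8 * (x 1 + z 1)) (z 0 + 8 * z 1) (by push_cast; ring),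
      hp S pS (x 0 + 9 * x 1) (x 0 + z 0 + 9 * (x 1 + z 1)) (z 0 + 9 * z 1) (by push_cast; ring)]


end TwoWell.JQ5b
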