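import Pool.Agent.TwoWell.Defs2
set_option autoImplicit false
open Set
namespace TwoWell.JQ6


open Matrix MeasureTheory
theorem int_line (f : ℝ → ℝ) (hf : Continuous f) (hp : Function.Periodic f 1) (q : ℕ) :
    ∫ x in Set.univ.pi (fun _ : Fin 2 => Set.Icc (0 : ℝ) 1), f (x 0 + q * x 1) =
      ∫ t in (0 : ℝ)..1, f t := by
  have h1 : Set.univ.pi (fun _ : Fin 2 => Set.Icc (0 : ℝ) 1) =
      (MeasurableEquiv.finTwoArrow (α := ℝ)) ⁻¹' (Set.Icc (0:ℝ) 1 ×ˢ Set.Icc (0:ℝ) 1) := by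
    ext x
    rw [Set.mem_univ_pi, Fin.forall_fin_two]
    rfl
  have h2 := (volume_preserving_finTwoArrow ℝ).setIntegral_preimage_emb
    (MeasurableEquiv.measurableEmbedding _) (fun y : ℝ × ℝ => f (y.1 + q * y.2))
    (Set.Icc (0:ℝ) 1 ×ˢ Set.Icc (0:ℝ) 1)
  rw [h1]
  have h3 : ∫ x in (MeasurableEquiv.finTwoArrow (α := ℝ)) ⁻¹'
      (Set.Icc (0:ℝ) 1 ×ˢ Set.Icc (0:ℝ) 1), f (x 0 + q * x 1) =
      ∫ y in Set.Icc (0:ℝ) 1 ×ˢ Set.Icc (0:ℝ) 1, f (y.1 + q * y.2) := h2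
  rw [h3]
  have h4 : ∫ y in Set.Icc (0:ℝ) 1 ×ˢ Set.Icc (0:ℝ) 1, f (y.1 + q * y.2) =
      ∫ y in Set.Icc (0:ℝ) 1 ×ˢ Set.Icc (0:ℝ) 1, f (y.2 + q * y.1) :=
    (setIntegral_prod_swap (Set.Icc (0:ℝ) 1) (Set.Icc (0:ℝ) 1)
      (fun y : ℝ × ℝ => f (y.2 + q * y.1))).trans rfl
  rw [h4]
  have hint : IntegrableOn (fun y : ℝ × ℝ => f (y.2 + q * y.1))
      (Set.Icc (0:ℝ) 1 ×ˢ Set.Icc (0:ℝ) 1) (volume.prod volume) := by
    have hc : Continuous (fun y : ℝ × ℝ => f (y.2 + q * y.1)) := by fun_prop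
    exact hc.continuousOn.integrableOn_compact (isCompact_Icc.prod isCompact_Icc)
  have h5 := setIntegral_prod (fun y : ℝ × ℝ => f (y.2 + q * y.1)) hint
  have h6 : ∀ x : ℝ, ∫ y in Set.Icc (0:ℝ) 1, f (y + q * x) = ∫ t in (0:ℝ)..1, f t := by
    intro x
    rw [integral_Icc_eq_integral_Ioc, ← intervalIntegral.integral_of_le zero_le_one,
      intervalIntegral.integral_comp_add_right (fun t => f t) (q * x)]
    have h7 := hp.intervalIntegral_add_eq (q * x) 0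
    rw [zero_add, add_comm 1]
    rw [zero_add] at h7
    exact h7
  refine h5.trans ?_
  simp only [h6]
  simp

end TwoWell.JQ6
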