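import Pool.Agent.TwoWell.Defs2
set_option autoImplicit false
open Set
namespace TwoWell.JQ6b


open Matrix MeasureTheory
theorem int_line' (f : ℝ → ℝ) (hf : Continuous f) :
    ∫ x in Set.univ.pi (fun _ : Fin 2 => Set.Icc (0 : ℝ) 1), f (x 1) =
      ∫ t in (0 : ℝ)..1, f t := by
  have h1 : (volume : Measure (Fin 2 → ℝ)).restrict (Set.univ.pi (fun _ : Fin 2 => Set.Icc (0 : ℝ) 1)) =
      Measure.pi (fun _ : Fin 2 => (volume : Measure ℝ).restrict (Set.Icc (0 : ℝ) 1)) := by
    rw [volume_pi, Measure.restrict_pi_pi]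
  have hp : IsProbabilityMeasure ((volume : Measure ℝ).restrict (Set.Icc (0 : ℝ) 1)) :=
    ⟨by rw [Measure.restrict_apply_univ, Real.volume_Icc]; norm_num⟩
  have h2 : MeasurePreserving (Function.eval (1 : Fin 2))
      (Measure.pi (fun _ : Fin 2 => (volume : Measure ℝ).restrict (Set.Icc (0 : ℝ) 1)))
      ((volume : Measure ℝ).restrict (Set.Icc (0 : ℝ) 1)) :=
    measurePreserving_eval (fun _ : Fin 2 => (volume : Measure ℝ).restrict (Set.Icc (0 : ℝ) 1)) 1
  have h3 : ∫ t, f t ∂((volume : Measure ℝ).restrict (Set.Icc (0 : ℝ) 1)) =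
      ∫ x, f (x 1) ∂(Measure.pi (fun _ : Fin 2 => (volume : Measure ℝ).restrict (Set.Icc (0 : ℝ) 1))) := by
    conv_lhs => rw [← h2.map_eq]
    rw [integral_map h2.measurable.aemeasurable (hf.aestronglyMeasurable)]
  rw [h1, intervalIntegral.integral_of_le zero_le_one, ← integral_Icc_eq_integral_Ioc, h3]


end TwoWell.JQ6b
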