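import Pool.Agent.TwoWell.Defs2
set_option autoImplicit false
open Set
namespace TwoWell.JQ6c


open Matrix MeasureTheory

theorem int_prod_transfer (G : ℝ × ℝ → ℝ) :
    ∫ x in Set.univ.pi (fun _ : Fin 2 => Set.Icc (0 : ℝ) 1), G (x 0, x 1) =
      ∫ z in Icc (0 : ℝ) 1 ×ˢ Icc (0 : ℝ) 1, G z := by
  have h := (volume_preserving_finTwoArrow ℝ).setIntegral_preimage_emb
    (MeasurableEquiv.finTwoArrow (α := ℝ)).measurableEmbedding G
    (Icc (0 : ℝ) 1 ×ˢ Icc (0 : ℝ) 1)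
  have e : (MeasurableEquiv.finTwoArrow (α := ℝ)) ⁻¹' (Icc (0 : ℝ) 1 ×ˢ Icc (0 : ℝ) 1) =
      Set.univ.pi (fun _ : Fin 2 => Set.Icc (0 : ℝ) 1) := by
    ext x
    rw [mem_preimage, mem_prod, mem_univ_pi, Fin.forall_fin_two]
    rfl
  rw [e] at h
  exact h

theorem int_prod_one (G : ℝ × ℝ → ℝ) (hG : Continuous G) :
    ∫ z in Icc (0 : ℝ) 1 ×ˢ Icc (0 : ℝ) 1, G z =
      ∫ s in (0 : ℝ)..1, ∫ t in (0 : ℝ)..1, G (s, t) := by
  have hi : IntegrableOn G (Icc (0 : ℝ) 1 ×ˢ Icc (0 : ℝ) 1) (volume.prod volume) := by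
    have h := hG.continuousOn.integrableOn_compact (μ := (volume : Measure (ℝ × ℝ)))
      (isCompact_Icc.prod isCompact_Icc : IsCompact (Icc (0 : ℝ) 1 ×ˢ Icc (0 : ℝ) 1))
    exact h
  have h := setIntegral_prod G hi
  rw [Measure.volume_eq_prod, h, intervalIntegral.integral_of_le zero_le_one,
    ← integral_Icc_eq_integral_Ioc]
  congr 1
  funext s
  rw [intervalIntegral.integral_of_le zero_le_one, ← integral_Icc_eq_integral_Ioc]

theorem int_prod_swap (G : ℝ × ℝ → ℝ) :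
    ∫ z in Icc (0 : ℝ) 1 ×ˢ Icc (0 : ℝ) 1, G z =
      ∫ z in Icc (0 : ℝ) 1 ×ˢ Icc (0 : ℝ) 1, G z.swap := by
  rw [Measure.volume_eq_prod]
  exact (setIntegral_prod_swap _ _ G).symm

theorem int_prod_periodic (g : ℝ → ℝ) (hgp : Function.Periodic g 1) (s : ℝ) :
    ∫ t in (0 : ℝ)..1, g (s + t) = ∫ t in (0 : ℝ)..1, g t := by
  rw [intervalIntegral.integral_comp_add_left g s, add_zero]
  have := hgp.intervalIntegral_add_eq s 0
  rwa [zero_add] at this

theorem int_prod_second (f g : ℝ → ℝ) (hf : Continuous f) (hg : Continuous g)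
    (hgp : Function.Periodic g 1) :
    ∫ z in Icc (0 : ℝ) 1 ×ˢ Icc (0 : ℝ) 1, (fun z : ℝ × ℝ => f z.1 * g (z.1 + z.2)) z =
      (∫ t in (0 : ℝ)..1, f t) * ∫ t in (0 : ℝ)..1, g t := by
  rw [int_prod_one _ (by fun_prop), ← intervalIntegral.integral_mul_const]
  apply intervalIntegral.integral_congr
  intro s _
  show ∫ t in (0 : ℝ)..1, f s * g (s + t) = f s * ∫ t in (0 : ℝ)..1, g t
  rw [intervalIntegral.integral_const_mul, int_prod_periodic g hgp]

theorem int_prod (f g : ℝ → ℝ) (hf : Continuous f) (hg : Continuous g)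
    (hfp : Function.Periodic f 1) (hgp : Function.Periodic g 1) :
    (∫ x in Set.univ.pi (fun _ : Fin 2 => Set.Icc (0 : ℝ) 1), f (x 0) * g (x 1) =
      (∫ t in (0 : ℝ)..1, f t) * ∫ t in (0 : ℝ)..1, g t) ∧
    (∫ x in Set.univ.pi (fun _ : Fin 2 => Set.Icc (0 : ℝ) 1), f (x 0) * g (x 0 + x 1) =
      (∫ t in (0 : ℝ)..1, f t) * ∫ t in (0 : ℝ)..1, g t) ∧
    (∫ x in Set.univ.pi (fun _ : Fin 2 => Set.Icc (0 : ℝ) 1), f (x 1) * g (x 0 + x 1) =
      (∫ t in (0 : ℝ)..1, f t) * ∫ t in (0 : ℝ)..1, g t) := by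
  refine ⟨?_, ?_, ?_⟩
  · have h := int_prod_transfer (fun z => f z.1 * g z.2)
    refine h.trans ?_
    rw [int_prod_one _ (by fun_prop), ← intervalIntegral.integral_mul_const]
    apply intervalIntegral.integral_congr
    intro s _
    show ∫ t in (0 : ℝ)..1, f s * g t = f s * ∫ t in (0 : ℝ)..1, g t
    rw [intervalIntegral.integral_const_mul]
  · have h := int_prod_transfer (fun z => f z.1 * g (z.1 + z.2))
    exact h.trans (int_prod_second f g hf hg hgp)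
  · have h := int_prod_transfer (fun z => f z.2 * g (z.1 + z.2))
    refine h.trans ?_
    rw [int_prod_swap]
    have h2 := int_prod_second f g hf hg hgp
    refine Eq.trans ?_ h2
    congr 1
    funext z
    show f z.1 * g (z.2 + z.1) = f z.1 * g (z.1 + z.2)
    rw [add_comm]


end TwoWell.JQ6c
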