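import Pool.Agent.TwoWell.Defs2
set_option autoImplicit false
open Set
namespace TwoWell.JW1


open Matrix MeasureTheory

/-- approximate indicator of `cos > 1/2` -/
noncomputable def cwA (n : ℕ) (t : ℝ) : ℝ :=
  Real.smoothTransition ((n : ℝ) * (Real.cos (2 * Real.pi * t) - 1 / 2))

/-- approximate indicator of `cos ≥ -1/2` -/
noncomputable def cwG (n : ℕ) (t : ℝ) : ℝ :=
  Real.smoothTransition (1 + (n : ℝ) * (Real.cos (2 * Real.pi * t) + 1 / 2))

theorem cw_cos_period (t : ℝ) : Real.cos (2 * Real.pi * (t + 1)) = Real.cos (2 * Real.pi * t) := by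
  rw [mul_add, mul_one, Real.cos_add_two_pi]

theorem cwA_contDiff (n : ℕ) : ContDiff ℝ ((⊤ : ℕ∞) : WithTop ℕ∞) (cwA n) := by
  unfold cwA
  refine Real.smoothTransition.contDiff.comp ?_
  refine contDiff_const.mul ((Real.contDiff_cos.comp (contDiff_const.mul contDiff_id)).sub
    contDiff_const)

theorem cwG_contDiff (n : ℕ) : ContDiff ℝ ((⊤ : ℕ∞) : WithTop ℕ∞) (cwG n) := by
  unfold cwG
  refine Real.smoothTransition.contDiff.comp ?_
  refine contDiff_const.add (contDiff_const.mul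
    ((Real.contDiff_cos.comp (contDiff_const.mul contDiff_id)).add contDiff_const))

theorem cwA_bd (n : ℕ) (t : ℝ) : 0 ≤ cwA n t ∧ cwA n t ≤ 1 :=
  ⟨Real.smoothTransition.nonneg _, Real.smoothTransition.le_one _⟩

theorem cwG_bd (n : ℕ) (t : ℝ) : 0 ≤ cwG n t ∧ cwG n t ≤ 1 :=
  ⟨Real.smoothTransition.nonneg _, Real.smoothTransition.le_one _⟩

theorem cwA_lim (t : ℝ) : ∀ᶠ n : ℕ in Filter.atTop,
    cwA n t = {t : ℝ | 1 / 2 < Real.cos (2 * Real.pi * t)}.indicator (fun _ => (1 : ℝ)) t := by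
  by_cases h : 1 / 2 < Real.cos (2 * Real.pi * t)
  · rw [Set.indicator_of_mem (by exact h)]
    obtain ⟨N, hN⟩ := exists_nat_ge (1 / (Real.cos (2 * Real.pi * t) - 1 / 2))
    filter_upwards [Filter.eventually_ge_atTop N] with n hn
    refine Real.smoothTransition.one_of_one_le ?_
    have h1 : 0 < Real.cos (2 * Real.pi * t) - 1 / 2 := by linarith
    have h2 : 1 / (Real.cos (2 * Real.pi * t) - 1 / 2) ≤ n := hN.trans (by exact_mod_cast hn)
    rwa [div_le_iff₀ h1] at h2
  · rw [Set.indicator_of_notMem (by exact h)]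
    refine Filter.Eventually.of_forall fun n => ?_
    refine Real.smoothTransition.zero_of_nonpos ?_
    have h1 : Real.cos (2 * Real.pi * t) - 1 / 2 ≤ 0 := by linarith
    exact mul_nonpos_of_nonneg_of_nonpos (Nat.cast_nonneg n) h1

theorem cwG_lim (t : ℝ) : ∀ᶠ n : ℕ in Filter.atTop,
    cwG n t = {t : ℝ | -(1 / 2) ≤ Real.cos (2 * Real.pi * t)}.indicator (fun _ => (1 : ℝ)) t := by
  by_cases h : -(1 / 2) ≤ Real.cos (2 * Real.pi * t)
  · rw [Set.indicator_of_mem (by exact h)]
    refine Filter.Eventually.of_forall fun n => ?_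
    refine Real.smoothTransition.one_of_one_le ?_
    have h1 : 0 ≤ Real.cos (2 * Real.pi * t) + 1 / 2 := by linarith
    have := mul_nonneg (Nat.cast_nonneg (α := ℝ) n) h1
    linarith
  · rw [Set.indicator_of_notMem (by exact h)]
    have h1 : 0 < -(Real.cos (2 * Real.pi * t) + 1 / 2) := by push Not at h; linarith
    obtain ⟨N, hN⟩ := exists_nat_ge (1 / (-(Real.cos (2 * Real.pi * t) + 1 / 2)))
    filter_upwards [Filter.eventually_ge_atTop N] with n hn
    refine Real.smoothTransition.zero_of_nonpos ?_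
    have h2 : 1 / (-(Real.cos (2 * Real.pi * t) + 1 / 2)) ≤ n := hN.trans (by exact_mod_cast hn)
    rw [div_le_iff₀ h1] at h2
    linarith

theorem cw_lt (t θ : ℝ) (ht0 : 0 ≤ t) (ht1 : t ≤ 1) (h0 : 0 ≤ θ) (h1 : θ ≤ Real.pi) :
    Real.cos θ < Real.cos (2 * Real.pi * t) ↔
      (2 * Real.pi * t < θ ∨ 2 * Real.pi * (1 - t) < θ) := by
  have hpi := Real.pi_pos
  rcases le_total t (1 / 2) with h | h
  · have hm : 2 * Real.pi * t ∈ Icc 0 Real.pi := ⟨by positivity, by nlinarith⟩
    rw [Real.strictAntiOn_cos.lt_iff_gt ⟨h0, h1⟩ hm]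
    constructor
    · intro h2; exact Or.inl h2
    · rintro (h2 | h2)
      · exact h2
      · nlinarith
  · have hm : 2 * Real.pi * (1 - t) ∈ Icc 0 Real.pi := ⟨by
      have : 0 ≤ 1 - t := by linarith
      positivity, by nlinarith⟩
    have hc : Real.cos (2 * Real.pi * t) = Real.cos (2 * Real.pi * (1 - t)) := by
      rw [mul_sub, mul_one, Real.cos_two_pi_sub]
    rw [hc, Real.strictAntiOn_cos.lt_iff_gt ⟨h0, h1⟩ hm]
    constructor
    · intro h2; exact Or.inr h2
    · rintro (h2 | h2)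
      · nlinarith
      · exact h2

theorem cw_le (t θ : ℝ) (ht0 : 0 ≤ t) (ht1 : t ≤ 1) (h0 : 0 ≤ θ) (h1 : θ ≤ Real.pi) :
    Real.cos θ ≤ Real.cos (2 * Real.pi * t) ↔
      (2 * Real.pi * t ≤ θ ∨ 2 * Real.pi * (1 - t) ≤ θ) := by
  have hpi := Real.pi_pos
  rcases le_total t (1 / 2) with h | h
  · have hm : 2 * Real.pi * t ∈ Icc 0 Real.pi := ⟨by positivity, by nlinarith⟩
    rw [Real.strictAntiOn_cos.le_iff_ge ⟨h0, h1⟩ hm]
    constructor
    · intro h2; exact Or.inl h2
    · rintro (h2 | h2)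
      · exact h2
      · nlinarith
  · have hm : 2 * Real.pi * (1 - t) ∈ Icc 0 Real.pi := ⟨by
      have : 0 ≤ 1 - t := by linarith
      positivity, by nlinarith⟩
    have hc : Real.cos (2 * Real.pi * t) = Real.cos (2 * Real.pi * (1 - t)) := by
      rw [mul_sub, mul_one, Real.cos_two_pi_sub]
    rw [hc, Real.strictAntiOn_cos.le_iff_ge ⟨h0, h1⟩ hm]
    constructor
    · intro h2; exact Or.inr h2
    · rintro (h2 | h2)
      · nlinarith
      · exact h2

theorem cw_intA : (∫ t in (0 : ℝ)..1,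
    {t : ℝ | 1 / 2 < Real.cos (2 * Real.pi * t)}.indicator (fun _ => (1 : ℝ)) t) = 1 / 3 := by
  have hm : MeasurableSet {t : ℝ | 1 / 2 < Real.cos (2 * Real.pi * t)} :=
    (isOpen_lt continuous_const (by fun_prop)).measurableSet
  have hpi := Real.pi_pos
  rw [intervalIntegral.integral_of_le zero_le_one, integral_indicator hm, integral_const,
    smul_eq_mul, mul_one, Measure.restrict_restrict hm, measureReal_restrict_apply_univ]
  have hset : {t : ℝ | 1 / 2 < Real.cos (2 * Real.pi * t)} ∩ Ioc 0 1 =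
      Ioo 0 (1 / 6) ∪ Ioc (5 / 6) 1 := by
    ext t
    simp only [mem_inter_iff, mem_ofPred_eq, mem_Ioc, mem_union, mem_Ioo]
    constructor
    · rintro ⟨h1, h2, h3⟩
      rw [← Real.cos_pi_div_three, cw_lt t _ h2.le h3 (by positivity) (by linarith)] at h1
      rcases h1 with h1 | h1
      · left; exact ⟨h2, by nlinarith⟩
      · right; exact ⟨by nlinarith, h3⟩
    · intro h
      have h2 : 0 < t ∧ t ≤ 1 := by
        rcases h with h | h
        · exact ⟨h.1, by linarith [h.2]⟩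
        · exact ⟨by linarith [h.1], h.2⟩
      refine ⟨?_, h2⟩
      rw [← Real.cos_pi_div_three, cw_lt t _ h2.1.le h2.2 (by positivity) (by linarith)]
      rcases h with h | h
      · left; nlinarith [h.2]
      · right; nlinarith [h.1]
  rw [hset, measureReal_union (by
    rw [Set.disjoint_left]
    intro t h1 h2
    linarith [h1.2, h2.1]) measurableSet_Ioc measure_Ioo_lt_top.ne measure_Ioc_lt_top.ne]
  simp only [Real.volume_real_Ioo, Real.volume_real_Ioc]
  norm_num

theorem cw_intG : (∫ t in (0 : ℝ)..1,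
    {t : ℝ | -(1 / 2) ≤ Real.cos (2 * Real.pi * t)}.indicator (fun _ => (1 : ℝ)) t) = 2 / 3 := by
  have hm : MeasurableSet {t : ℝ | -(1 / 2) ≤ Real.cos (2 * Real.pi * t)} :=
    (isClosed_le continuous_const (by fun_prop)).measurableSet
  have hpi := Real.pi_pos
  have hcos : Real.cos (2 * Real.pi / 3) = -(1 / 2) := by
    have : 2 * Real.pi / 3 = Real.pi - Real.pi / 3 := by ring
    rw [this, Real.cos_pi_sub, Real.cos_pi_div_three]
  rw [intervalIntegral.integral_of_le zero_le_one, integral_indicator hm, integral_const,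
    smul_eq_mul, mul_one, Measure.restrict_restrict hm, measureReal_restrict_apply_univ]
  have hset : {t : ℝ | -(1 / 2) ≤ Real.cos (2 * Real.pi * t)} ∩ Ioc 0 1 =
      Ioc 0 (1 / 3) ∪ Icc (2 / 3) 1 := by
    ext t
    simp only [mem_inter_iff, mem_ofPred_eq, mem_Ioc, mem_union, mem_Icc]
    constructor
    · rintro ⟨h1, h2, h3⟩
      rw [← hcos, cw_le t _ h2.le h3 (by positivity) (by linarith)] at h1
      rcases h1 with h1 | h1
      · left; exact ⟨h2, by nlinarith⟩
      · right; exact ⟨by nlinarith, h3⟩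
    · intro h
      have h2 : 0 < t ∧ t ≤ 1 := by
        rcases h with h | h
        · exact ⟨h.1, by linarith [h.2]⟩
        · exact ⟨by linarith [h.1], h.2⟩
      refine ⟨?_, h2⟩
      rw [← hcos, cw_le t _ h2.1.le h2.2 (by positivity) (by linarith)]
      rcases h with h | h
      · left; nlinarith [h.2]
      · right; nlinarith [h.1]
  rw [hset, measureReal_union (by
    rw [Set.disjoint_left]
    intro t h1 h2
    linarith [h1.2, h2.1]) measurableSet_Icc measure_Ioc_lt_top.ne measure_Icc_lt_top.ne]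
  simp only [Real.volume_real_Icc, Real.volume_real_Ioc]
  norm_num

theorem cw_dom (f : ℕ → ℝ → ℝ) (g : ℝ → ℝ) (hf : ∀ n, Continuous (f n))
    (hb : ∀ n t, 0 ≤ f n t ∧ f n t ≤ 1) (hl : ∀ t, ∀ᶠ n : ℕ in Filter.atTop, f n t = g t) :
    Filter.Tendsto (fun n => ∫ t in (0 : ℝ)..1, f n t) Filter.atTop
      (nhds (∫ t in (0 : ℝ)..1, g t)) := by
  refine intervalIntegral.tendsto_integral_filter_of_dominated_convergence (fun _ => (1 : ℝ))
    ?_ ?_ ?_ ?_
  · exact Filter.Eventually.of_forall fun n => (hf n).aestronglyMeasurable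
  · refine Filter.Eventually.of_forall fun n => Filter.Eventually.of_forall fun t _ => ?_
    rw [Real.norm_of_nonneg (hb n t).1]
    exact (hb n t).2
  · exact intervalIntegrable_const
  · refine Filter.Eventually.of_forall fun t _ => ?_
    refine tendsto_const_nhds.congr' ?_
    filter_upwards [hl t] with n hn
    exact hn.symm

theorem cw_trig (A B : ℝ) (hA : 1 / 2 < Real.cos A) (hB : 1 / 2 < Real.cos B) :
    -(1 / 2) ≤ Real.cos (A + B) := by
  rw [Real.cos_add]
  have h1 := Real.sin_sq_add_cos_sq A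
  have h2 := Real.sin_sq_add_cos_sq B
  nlinarith [sq_nonneg (Real.sin A - Real.sin B), mul_pos (sub_pos.2 hA) (sub_pos.2 hB)]

theorem coarse_wave (tau : ℝ) (ht : 0 < tau) : ∃ al ga : ℝ → ℝ,
    ContDiff ℝ ((⊤ : ℕ∞) : WithTop ℕ∞) al ∧ ContDiff ℝ ((⊤ : ℕ∞) : WithTop ℕ∞) ga ∧
    Function.Periodic al 1 ∧ Function.Periodic ga 1 ∧
    (∀ t, 0 ≤ al t ∧ al t ≤ 1) ∧ (∀ t, 0 ≤ ga t ∧ ga t ≤ 1) ∧
    (∫ t in (0 : ℝ)..1, al t * (1 - al t)) ≤ tau ∧ (∫ t in (0 : ℝ)..1, ga t * (1 - ga t)) ≤ tau ∧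
    |(∫ t in (0 : ℝ)..1, al t) - 1 / 3| ≤ tau ∧ |(∫ t in (0 : ℝ)..1, ga t) - 2 / 3| ≤ tau ∧
    ∀ x y, al x * al y * ga (x + y) = al x * al y := by
  have hAc : ∀ n, Continuous (cwA n) := fun n => (cwA_contDiff n).continuous
  have hGc : ∀ n, Continuous (cwG n) := fun n => (cwG_contDiff n).continuous
  have hind : ∀ (S : Set ℝ) (t : ℝ), S.indicator (fun _ => (1 : ℝ)) t = 0 ∨
      S.indicator (fun _ => (1 : ℝ)) t = 1 := by
    intro S t
    by_cases h : t ∈ S <;> simp [h]
  have hmb : ∀ x : ℝ, 0 ≤ x → x ≤ 1 → 0 ≤ x * (1 - x) ∧ x * (1 - x) ≤ 1 := by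
    intro x h0 h1
    constructor <;> nlinarith
  have l1 := cw_dom cwA _ hAc cwA_bd cwA_lim
  have l2 := cw_dom cwG _ hGc cwG_bd cwG_lim
  rw [cw_intA] at l1
  rw [cw_intG] at l2
  have l3 := cw_dom (fun n t => cwA n t * (1 - cwA n t)) (fun _ => 0)
    (fun n => (hAc n).mul (continuous_const.sub (hAc n)))
    (fun n t => hmb _ (cwA_bd n t).1 (cwA_bd n t).2) (fun t => by
      filter_upwards [cwA_lim t] with n hn
      rw [hn]
      rcases hind _ t with h | h <;> rw [h] <;> norm_num)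
  have l4 := cw_dom (fun n t => cwG n t * (1 - cwG n t)) (fun _ => 0)
    (fun n => (hGc n).mul (continuous_const.sub (hGc n)))
    (fun n t => hmb _ (cwG_bd n t).1 (cwG_bd n t).2) (fun t => by
      filter_upwards [cwG_lim t] with n hn
      rw [hn]
      rcases hind _ t with h | h <;> rw [h] <;> norm_num)
  rw [intervalIntegral.integral_zero] at l3 l4
  have e1 := (Metric.tendsto_atTop.1 l1) tau ht
  have e2 := (Metric.tendsto_atTop.1 l2) tau ht
  have e3 := (Metric.tendsto_atTop.1 l3) tau ht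
  have e4 := (Metric.tendsto_atTop.1 l4) tau ht
  obtain ⟨N1, h1⟩ := e1
  obtain ⟨N2, h2⟩ := e2
  obtain ⟨N3, h3⟩ := e3
  obtain ⟨N4, h4⟩ := e4
  let n := max (max N1 N2) (max N3 N4)
  have h1' := h1 n ((le_max_left _ _).trans (le_max_left _ _))
  have h2' := h2 n ((le_max_right _ _).trans (le_max_left _ _))
  have h3' := h3 n ((le_max_left _ _).trans (le_max_right _ _))
  have h4' := h4 n ((le_max_right _ _).trans (le_max_right _ _))
  rw [Real.dist_eq] at h1' h2' h3' h4'
  refine ⟨cwA n, cwG n, cwA_contDiff n, cwG_contDiff n, ?_, ?_, cwA_bd n, cwG_bd n, ?_, ?_,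
    h1'.le, h2'.le, ?_⟩
  · intro t; unfold cwA; rw [cw_cos_period]
  · intro t; unfold cwG; rw [cw_cos_period]
  · rw [sub_zero] at h3'
    exact (le_abs_self _).trans h3'.le
  · rw [sub_zero] at h4'
    exact (le_abs_self _).trans h4'.le
  · intro x y
    by_cases hx : 1 / 2 < Real.cos (2 * Real.pi * x)
    · by_cases hy : 1 / 2 < Real.cos (2 * Real.pi * y)
      · have hg : cwG n (x + y) = 1 := by
          refine Real.smoothTransition.one_of_one_le ?_
          have h5 := cw_trig _ _ hx hy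
          rw [← mul_add] at h5
          have h6 : 0 ≤ Real.cos (2 * Real.pi * (x + y)) + 1 / 2 := by linarith
          have := mul_nonneg (Nat.cast_nonneg (α := ℝ) n) h6
          linarith
        rw [hg, mul_one]
      · have hy0 : cwA n y = 0 := by
          refine Real.smoothTransition.zero_of_nonpos ?_
          exact mul_nonpos_of_nonneg_of_nonpos (Nat.cast_nonneg n) (by linarith)
        rw [hy0]; ring
    · have hx0 : cwA n x = 0 := by
        refine Real.smoothTransition.zero_of_nonpos ?_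
        exact mul_nonpos_of_nonneg_of_nonpos (Nat.cast_nonneg n) (by linarith)
      rw [hx0]; ring


end TwoWell.JW1
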