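import Pool.Agent.TwoWell.Defs2
set_option autoImplicit false
open Set
namespace TwoWell.JW2


open Matrix MeasureTheory

/-- the basic wave -/
noncomputable def fwb (l t : ℝ) : ℝ :=
  l * Real.cos (2 * Real.pi * t) / Real.sqrt (1 + (l * Real.cos (2 * Real.pi * t)) ^ 2)

theorem fwb_contDiff (l : ℝ) : ContDiff ℝ ((⊤ : ℕ∞) : WithTop ℕ∞) (fwb l) := by
  unfold fwb
  have h1 : ContDiff ℝ ((⊤ : ℕ∞) : WithTop ℕ∞) (fun t : ℝ => l * Real.cos (2 * Real.pi * t)) :=
    contDiff_const.mul (Real.contDiff_cos.comp (contDiff_const.mul contDiff_id))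
  refine h1.div ((contDiff_const.add (h1.pow 2)).sqrt (fun t => ?_)) (fun t => ?_)
  · positivity
  · positivity

theorem fwb_sq (l t : ℝ) :
    1 - fwb l t ^ 2 = 1 / (1 + (l * Real.cos (2 * Real.pi * t)) ^ 2) := by
  unfold fwb
  have h1 : 0 < 1 + (l * Real.cos (2 * Real.pi * t)) ^ 2 := by positivity
  rw [div_pow, Real.sq_sqrt h1.le]
  field_simp
  ring

theorem fwb_abs (l t : ℝ) : |fwb l t| ≤ 1 := by
  have h1 := fwb_sq l t
  have h2 : 0 < 1 / (1 + (l * Real.cos (2 * Real.pi * t)) ^ 2) := by positivity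
  rw [← h1] at h2
  rw [abs_le]
  constructor <;> nlinarith

theorem fwb_half (l t : ℝ) : fwb l (t + 1 / 2) = - fwb l t := by
  unfold fwb
  have h1 : 2 * Real.pi * (t + 1 / 2) = 2 * Real.pi * t + Real.pi := by ring
  rw [h1, Real.cos_add_pi, mul_neg, neg_sq, neg_div]

theorem fwb_per (l : ℝ) : Function.Periodic (fwb l) 1 := by
  intro t
  have h1 : t + 1 = (t + 1 / 2) + 1 / 2 := by ring
  rw [h1, fwb_half, fwb_half, neg_neg]

theorem fwb_int (l : ℝ) : ∫ t in (0 : ℝ)..1, fwb l t = 0 := by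
  have hc : Continuous (fwb l) := (fwb_contDiff l).continuous
  have h1 : ∫ t in (0 : ℝ)..1, fwb l t = (∫ t in (0 : ℝ)..(1 / 2), fwb l t) +
      ∫ t in (1 / 2 : ℝ)..1, fwb l t :=
    (intervalIntegral.integral_add_adjacent_intervals (hc.intervalIntegrable _ _)
      (hc.intervalIntegrable _ _)).symm
  have h2 : ∫ t in (1 / 2 : ℝ)..1, fwb l t = ∫ t in (0 : ℝ)..(1 / 2), fwb l (t + 1 / 2) := by
    rw [intervalIntegral.integral_comp_add_right]
    norm_num
  rw [h1, h2]
  simp only [fwb_half]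
  rw [intervalIntegral.integral_neg]
  ring

theorem fwb_small (tau : ℝ) (ht : 0 < tau) :
    ∃ l : ℝ, (∫ t in (0 : ℝ)..1, (1 - fwb l t ^ 2)) ≤ tau := by
  have hlim : Filter.Tendsto (fun n : ℕ => ∫ t in (0 : ℝ)..1, (1 - fwb (n : ℝ) t ^ 2)) Filter.atTop
      (nhds (∫ t in (0 : ℝ)..1, (0 : ℝ))) := by
    refine intervalIntegral.tendsto_integral_filter_of_dominated_convergence (fun _ => (1 : ℝ))
      ?_ ?_ ?_ ?_
    · refine Filter.Eventually.of_forall (fun n => ?_)
      have hc : Continuous (fun t => 1 - fwb (n : ℝ) t ^ 2) :=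
        continuous_const.sub ((fwb_contDiff _).continuous.pow 2)
      exact hc.aestronglyMeasurable
    · refine Filter.Eventually.of_forall (fun n => Filter.Eventually.of_forall (fun t _ => ?_))
      rw [fwb_sq, Real.norm_eq_abs, abs_of_nonneg (by positivity)]
      rw [div_le_one (by positivity)]
      have := sq_nonneg ((n : ℝ) * Real.cos (2 * Real.pi * t))
      linarith
    · exact intervalIntegrable_const
    · have hae : ∀ᵐ t : ℝ, Real.cos (2 * Real.pi * t) ≠ 0 := by
        have hcount : {t : ℝ | ¬ Real.cos (2 * Real.pi * t) ≠ 0}.Countable := by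
          refine (Set.countable_range (fun k : ℤ => ((2 * k + 1) / 4 : ℝ))).mono ?_
          intro t ht
          have ht' : Real.cos (2 * Real.pi * t) = 0 := by
            have : ¬ Real.cos (2 * Real.pi * t) ≠ 0 := ht
            push Not at this
            exact this
          obtain ⟨k, hk⟩ := Real.cos_eq_zero_iff.1 ht'
          refine ⟨k, ?_⟩
          have hpi := Real.pi_pos
          have h3 : Real.pi * (2 * t) = Real.pi * ((2 * k + 1) / 2) := by
            rw [← mul_assoc, mul_comm Real.pi 2, hk]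
            ring
          have h4 := mul_left_cancel₀ hpi.ne' h3
          show ((2 * k + 1) / 4 : ℝ) = t
          linarith
        rw [MeasureTheory.ae_iff]
        exact hcount.measure_zero _
      filter_upwards [hae] with t htc _
      have h1 : Filter.Tendsto (fun n : ℕ => 1 + ((n : ℝ) * Real.cos (2 * Real.pi * t)) ^ 2)
          Filter.atTop Filter.atTop := by
        apply Filter.tendsto_atTop_add_const_left
        have h2 : (fun n : ℕ => ((n : ℝ) * Real.cos (2 * Real.pi * t)) ^ 2) =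
            fun n : ℕ => ((n : ℝ) ^ 2) * (Real.cos (2 * Real.pi * t)) ^ 2 := by
          funext n
          ring
        rw [h2]
        apply Filter.Tendsto.atTop_mul_const (by positivity)
        exact (Filter.tendsto_pow_atTop (by norm_num)).comp tendsto_natCast_atTop_atTop
      have h3 := h1.inv_tendsto_atTop
      refine h3.congr (fun n => ?_)
      rw [fwb_sq, one_div]
      rfl
  rw [intervalIntegral.integral_zero] at hlim
  have h4 := (hlim.eventually (gt_mem_nhds ht)).exists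
  obtain ⟨n, hn⟩ := h4
  exact ⟨n, hn.le⟩

theorem fine_wave (tau : ℝ) (ht : 0 < tau) : ∃ S : ℝ → ℝ,
    ContDiff ℝ ((⊤ : ℕ∞) : WithTop ℕ∞) S ∧ Function.Periodic S 1 ∧
    (∀ t, |S t| ≤ tau) ∧ (∀ t, |deriv S t| ≤ 1) ∧
    (∫ t in (0 : ℝ)..1, (1 - deriv S t ^ 2)) ≤ tau := by
  obtain ⟨l, hl⟩ := fwb_small tau ht
  obtain ⟨b, hb⟩ : ∃ b, b = fwb l := ⟨_, rfl⟩
  have hbc : ContDiff ℝ ((⊤ : ℕ∞) : WithTop ℕ∞) b := by rw [hb]; exact fwb_contDiff l
  have hbcont : Continuous b := hbc.continuous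
  have hbper : Function.Periodic b 1 := by rw [hb]; exact fwb_per l
  have hbabs : ∀ t, |b t| ≤ 1 := by rw [hb]; exact fwb_abs l
  have hbint : ∫ t in (0 : ℝ)..1, b t = 0 := by rw [hb]; exact fwb_int l
  rw [← hb] at hl
  obtain ⟨S1, hS1⟩ : ∃ S1 : ℝ → ℝ, S1 = fun t => ∫ s in (0 : ℝ)..t, b s := ⟨_, rfl⟩
  have hS1d : ∀ t, HasDerivAt S1 (b t) t := by
    intro t
    rw [hS1]
    exact intervalIntegral.integral_hasDerivAt_right (hbcont.intervalIntegrable _ _)
      (hbcont.stronglyMeasurableAtFilter _ _) hbcont.continuousAt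
  have hS1per : Function.Periodic S1 1 := by
    intro t
    rw [hS1]
    show (∫ s in (0 : ℝ)..(t + 1), b s) = ∫ s in (0 : ℝ)..t, b s
    rw [← intervalIntegral.integral_add_adjacent_intervals (b := t)
      (hbcont.intervalIntegrable _ _) (hbcont.intervalIntegrable _ _)]
    have h2 := hbper.intervalIntegral_add_eq t 0
    rw [zero_add, hbint] at h2
    rw [h2, add_zero]
  have hS1abs : ∀ t, |S1 t| ≤ 1 := by
    intro t
    have h1 : S1 t = S1 (Int.fract t) := by
      have h2 := (hS1per.int_mul ⌊t⌋) (Int.fract t)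
      rw [mul_one, Int.fract_add_floor] at h2
      exact h2
    rw [h1, hS1]
    show |∫ s in (0 : ℝ)..(Int.fract t), b s| ≤ 1
    have h3 := intervalIntegral.norm_integral_le_of_norm_le_const (a := 0) (b := Int.fract t)
      (C := 1) (f := b) (fun x _ => hbabs x)
    rw [Real.norm_eq_abs, sub_zero, abs_of_nonneg (Int.fract_nonneg t), one_mul] at h3
    exact h3.trans (Int.fract_lt_one t).le
  obtain ⟨N, hN⟩ := exists_nat_gt (1 / tau)
  have hN0 : (0 : ℝ) < N := lt_trans (by positivity) hN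
  have hNne : (N : ℝ) ≠ 0 := hN0.ne'
  have hNt : 1 / (N : ℝ) ≤ tau := by
    rw [div_le_iff₀ hN0]
    rw [div_lt_iff₀ ht] at hN
    linarith
  have hSd : ∀ t, HasDerivAt (fun t => S1 (N * t) / N) (b (N * t)) t := by
    intro t
    have h1 : HasDerivAt (fun t : ℝ => (N : ℝ) * t) (N * 1) t := (hasDerivAt_id t).const_mul _
    have h2 := ((hS1d (N * t)).comp t h1).div_const (N : ℝ)
    rw [mul_one, mul_div_cancel_right₀ _ hNne] at h2
    exact h2
  have hderiv : deriv (fun t => S1 (N * t) / N) = fun t => b (N * t) := by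
    funext t
    exact (hSd t).deriv
  refine ⟨fun t => S1 (N * t) / N, ?_, ?_, ?_, ?_, ?_⟩
  · rw [contDiff_infty_iff_deriv]
    refine ⟨fun t => (hSd t).differentiableAt, ?_⟩
    rw [hderiv]
    exact hbc.comp (contDiff_const.mul contDiff_id)
  · intro t
    have h1 : (N : ℝ) * (t + 1) = N * t + (N : ℤ) * 1 := by push_cast; ring
    show S1 (N * (t + 1)) / N = S1 (N * t) / N
    rw [h1, (hS1per.int_mul (N : ℤ)) (N * t)]
  · intro t
    show |S1 (N * t) / N| ≤ tau
    rw [abs_div, abs_of_pos hN0]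
    refine le_trans ?_ hNt
    exact div_le_div_of_nonneg_right (hS1abs _) hN0.le
  · intro t
    rw [hderiv]
    exact hbabs _
  · rw [hderiv]
    have h1 : (∫ t in (0 : ℝ)..1, (1 - b (N * t) ^ 2)) =
        (N : ℝ)⁻¹ • ∫ t in ((N : ℝ) * 0)..((N : ℝ) * 1), (1 - b t ^ 2) :=
      intervalIntegral.integral_comp_mul_left (fun t => 1 - b t ^ 2) hNne
    have hper2 : Function.Periodic (fun t => 1 - b t ^ 2) 1 := by
      intro t
      beta_reduce
      rw [hbper t]
    have hc2 : Continuous (fun t => 1 - b t ^ 2) := continuous_const.sub (hbcont.pow 2)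
    have h2 := hper2.intervalIntegral_add_zsmul_eq (N : ℤ) 0
      (fun t₁ t₂ => hc2.intervalIntegrable t₁ t₂)
    rw [zero_add, zero_add] at h2
    have h3 : ((N : ℤ) • (1 : ℝ)) = (N : ℝ) * 1 := by
      simp
    rw [h3] at h2
    show (∫ t in (0 : ℝ)..1, (1 - b (N * t) ^ 2)) ≤ tau
    rw [h1, mul_zero, h2]
    have h4 : ((N : ℤ) • ∫ t in (0 : ℝ)..1, (1 - b t ^ 2)) =
        (N : ℝ) * ∫ t in (0 : ℝ)..1, (1 - b t ^ 2) := by
      simp
    rw [h4, smul_eq_mul, inv_mul_cancel_left₀ hNne]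
    exact hl


end TwoWell.JW2
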