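import Pool.Agent.TwoWell.Defs2
set_option autoImplicit false
open Set
namespace TwoWell.JW3


open Matrix MeasureTheory
theorem primitive (a : ℝ → ℝ) (ha : ContDiff ℝ ((⊤ : ℕ∞) : WithTop ℕ∞) a)
    (hp : Function.Periodic a 1) : ∃ A : ℝ → ℝ, ContDiff ℝ ((⊤ : ℕ∞) : WithTop ℕ∞) A ∧
    Function.Periodic A 1 ∧ ∀ t, HasDerivAt A (a t - ∫ r in (0 : ℝ)..1, a r) t := by
  have hc : Continuous (fun r => a r - ∫ r in (0 : ℝ)..1, a r) := ha.continuous.sub continuous_const
  have hd : ∀ t, HasDerivAt (fun t => ∫ s in (0:ℝ)..t, (a s - ∫ r in (0 : ℝ)..1, a r))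
      (a t - ∫ r in (0 : ℝ)..1, a r) t := fun t => hc.integral_hasStrictDerivAt 0 t |>.hasDerivAt
  refine ⟨fun t => ∫ s in (0:ℝ)..t, (a s - ∫ r in (0 : ℝ)..1, a r), ?_, ?_, hd⟩
  · rw [contDiff_infty_iff_deriv]
    refine ⟨fun t => (hd t).differentiableAt, ?_⟩
    have h1 : deriv (fun t => ∫ s in (0:ℝ)..t, (a s - ∫ r in (0 : ℝ)..1, a r)) =
        fun t => a t - ∫ r in (0 : ℝ)..1, a r := funext fun t => (hd t).deriv
    rw [h1]
    exact ha.sub contDiff_const
  · intro t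
    have hi : ∀ u v : ℝ, IntervalIntegrable (fun r => a r - ∫ r in (0 : ℝ)..1, a r) volume u v :=
      fun u v => hc.intervalIntegrable u v
    show ∫ s in (0:ℝ)..(t + 1), (a s - ∫ r in (0 : ℝ)..1, a r) =
      ∫ s in (0:ℝ)..t, (a s - ∫ r in (0 : ℝ)..1, a r)
    rw [← intervalIntegral.integral_add_adjacent_intervals (hi 0 t) (hi t (t + 1))]
    have h2 : Function.Periodic (fun r => a r - ∫ r in (0 : ℝ)..1, a r) 1 := by
      intro x
      show a (x + 1) - _ = a x - _
      rw [hp x]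
    have h3 := h2.intervalIntegral_add_eq t 0
    rw [h3, zero_add, intervalIntegral.integral_sub (ha.continuous.intervalIntegrable 0 1)
      (continuous_const.intervalIntegrable 0 1)]
    simp


end TwoWell.JW3
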