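import Pool.Agent.TwoWell.RSide
import Pool.Agent.TwoWell.JQ4
import Pool.Agent.TwoWell.JQ5
import Pool.Agent.TwoWell.JQ5b
import Pool.Agent.TwoWell.JQ6
import Pool.Agent.TwoWell.JQ6b
import Pool.Agent.TwoWell.JQ6c
import Pool.Agent.TwoWell.JW1
import Pool.Agent.TwoWell.JW2
import Pool.Agent.TwoWell.JW3

set_option autoImplicit false
open Set Matrix MeasureTheory
namespace TwoWell

/-- the unit square -/
def Sq2 : Set (Fin 2 → ℝ) := Set.univ.pi (fun _ : Fin 2 => Set.Icc (0 : ℝ) 1)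

theorem isCompact_Sq2 : IsCompact Sq2 := isCompact_univ_pi (fun _ => isCompact_Icc)

theorem integrable_Sq2 (f : (Fin 2 → ℝ) → ℝ) (hf : Continuous f) : IntegrableOn f Sq2 :=
  hf.continuousOn.integrableOn_compact isCompact_Sq2

theorem int_const_Sq2 (c : ℝ) : ∫ _x in Sq2, c = c := by
  have h := JQ6.int_line (fun _ => c) continuous_const (fun _ => rfl) 0
  simpa [Sq2] using h

theorem int_sum_Sq2 {n : ℕ} (c : Fin n → ℝ) (f : Fin n → (Fin 2 → ℝ) → ℝ)
    (hf : ∀ i, Continuous (f i)) :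
    ∫ x in Sq2, ∑ i, c i * f i x = ∑ i, c i * ∫ x in Sq2, f i x := by
  rw [integral_finsetSum]
  · apply Finset.sum_congr rfl
    intro i _
    rw [integral_const_mul]
  · intro i _
    exact (integrable_Sq2 _ (continuous_const.mul (hf i)))

theorem periodic_bounded (f : ℝ → ℝ) (hf : Continuous f) (hp : Function.Periodic f 1) :
    ∃ D : ℝ, 0 ≤ D ∧ ∀ t, |f t| ≤ D := by
  obtain ⟨D, hD⟩ := (isCompact_Icc (a := (0 : ℝ)) (b := 1)).exists_bound_of_continuousOn
    (f := f) hf.continuousOn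
  refine ⟨D, (norm_nonneg _).trans (hD 0 (by norm_num)), fun t => ?_⟩
  obtain ⟨y, hy, hfy⟩ := hp.exists_mem_Ico₀ one_pos t
  rw [hfy]
  exact hD _ ⟨hy.1, hy.2.le⟩

theorem int_two_sub (f : ℝ → ℝ) (hf : Continuous f) :
    ∫ t in (0 : ℝ)..1, (2 * f t - 1) = 2 * (∫ t in (0 : ℝ)..1, f t) - 1 := by
  have h1 : IntervalIntegrable (fun t => 2 * f t) volume 0 1 :=
    (continuous_const.mul hf).intervalIntegrable _ _
  have h2 : IntervalIntegrable (fun _ : ℝ => (1 : ℝ)) volume 0 1 :=
    continuous_const.intervalIntegrable _ _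
  have h3 := intervalIntegral.integral_sub h1 h2
  rw [h3, intervalIntegral.integral_const_mul]
  simp

theorem Qside (k K : ℝ) (hk : 0 ≤ k) (hK : 0 ≤ K) : ∃ u : (Fin 2 → ℝ) → (Fin 11 → ℝ),
    ContDiff ℝ ((⊤ : ℕ∞) : WithTop ℕ∞) u ∧
    (∀ (x : Fin 2 → ℝ) (z : Fin 2 → ℤ), u (x + fun i => (z i : ℝ)) = u x) ∧
    ∫ x in Sq2, min
      (Wv k K 1 (pp (F0m + Matrix.of (fun (i : Fin 2) (c : Fin 11) => fderiv ℝ u x (Pi.single i (1 : ℝ)) c)))
        (ss (F0m + Matrix.of (fun (i : Fin 2) (c : Fin 11) => fderiv ℝ u x (Pi.single i (1 : ℝ)) c))))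
      (Wv k K (-1) (pp (F0m + Matrix.of (fun (i : Fin 2) (c : Fin 11) => fderiv ℝ u x (Pi.single i (1 : ℝ)) c)))
        (ss (F0m + Matrix.of (fun (i : Fin 2) (c : Fin 11) => fderiv ℝ u x (Pi.single i (1 : ℝ)) c)))) ≤ 4 / 5 := by
  obtain ⟨L, hL, hpt⟩ := JQ4.pointwise_bound k K hk hK (1 / 100) (by norm_num)
  set tau : ℝ := 1 / (1000 * (1 + L)) with htau
  have hL1 : 0 < 1 + L := by linarith
  have htau0 : 0 < tau := by rw [htau]; positivity
  have htauL : tau * (1 + L) = 1 / 1000 := by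
    rw [htau]; field_simp
  have htau1 : tau ≤ 1 / 1000 := by nlinarith
  obtain ⟨al, ga, hal, hga, pal, pga, bal, bga, Ial, Iga, mal, mga, hprod⟩ := JW1.coarse_wave tau htau0
  set m := ∫ t in (0 : ℝ)..1, al t with hm
  set mg := ∫ t in (0 : ℝ)..1, ga t with hmg
  set a0 : ℝ → ℝ := fun t => 2 * al t - 1 with ha0
  set a2 : ℝ → ℝ := fun t => 2 * ga t - 1 with ha2
  have sa0 : ContDiff ℝ ((⊤ : ℕ∞) : WithTop ℕ∞) a0 := (contDiff_const.mul hal).sub contDiff_const
  have sa2 : ContDiff ℝ ((⊤ : ℕ∞) : WithTop ℕ∞) a2 := (contDiff_const.mul hga).sub contDiff_const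
  have pa0 : Function.Periodic a0 1 := fun t => by simp only [ha0]; rw [pal t]
  have pa2 : Function.Periodic a2 1 := fun t => by simp only [ha2]; rw [pga t]
  have ba0 : ∀ t, |a0 t| ≤ 1 := fun t => by
    rw [abs_le]; constructor <;> simp only [ha0] <;> linarith [(bal t).1, (bal t).2]
  have ba2 : ∀ t, |a2 t| ≤ 1 := fun t => by
    rw [abs_le]; constructor <;> simp only [ha2] <;> linarith [(bga t).1, (bga t).2]
  have ia0 : ∫ t in (0 : ℝ)..1, a0 t = 2 * m - 1 := by
    simp only [ha0]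
    exact int_two_sub al hal.continuous
  have ia2 : ∫ t in (0 : ℝ)..1, a2 t = 2 * mg - 1 := by
    simp only [ha2]
    exact int_two_sub ga hga.continuous
  obtain ⟨A0, sA0, pA0, dA0⟩ := JW3.primitive a0 sa0 pa0
  obtain ⟨A2, sA2, pA2, dA2⟩ := JW3.primitive a2 sa2 pa2
  rw [ia0] at dA0
  rw [ia2] at dA2
  -- bounds of the derivatives
  have hcd0 : Continuous (deriv a0) := sa0.continuous_deriv (by norm_num)
  have hcd2 : Continuous (deriv a2) := sa2.continuous_deriv (by norm_num)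
  have pd0 : Function.Periodic (deriv a0) 1 := by
    intro t
    have h : (fun x => a0 (x + 1)) = a0 := funext fun x => pa0 x
    have := deriv_comp_add_const (f := a0) (a := (1 : ℝ)) (x := t)
    rw [h] at this
    exact this.symm
  have pd2 : Function.Periodic (deriv a2) 1 := by
    intro t
    have h : (fun x => a2 (x + 1)) = a2 := funext fun x => pa2 x
    have := deriv_comp_add_const (f := a2) (a := (1 : ℝ)) (x := t)
    rw [h] at this
    exact this.symm
  obtain ⟨D0, hD0, hd0⟩ := periodic_bounded _ hcd0 pd0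
  obtain ⟨D2, hD2, hd2⟩ := periodic_bounded _ hcd2 pd2
  set D := D0 + D2 with hD
  have hDn : 0 ≤ D := add_nonneg hD0 hD2
  set r : ℝ := 2 * tau / (1 + D) with hr
  have hr0 : 0 < r := by rw [hr]; positivity
  have hDr : D * r ≤ 2 * tau := by
    rw [hr, mul_div_assoc', div_le_iff₀ (by linarith)]
    nlinarith
  obtain ⟨S, sS, pS, bS, bdS, IS⟩ := JW2.fine_wave (min tau r) (lt_min htau0 hr0)
  have bS' : ∀ t, |S t| ≤ r := fun t => (bS t).trans (min_le_right _ _)
  have IS' : (∫ t in (0 : ℝ)..1, (1 - deriv S t ^ 2)) ≤ tau := IS.trans (min_le_left _ _)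
  have hcS : Continuous (deriv S) := sS.continuous_deriv (by norm_num)
  have pdS : Function.Periodic (deriv S) 1 := by
    intro t
    have h : (fun x => S (x + 1)) = S := funext fun x => pS x
    have := deriv_comp_add_const (f := S) (a := (1 : ℝ)) (x := t)
    rw [h] at this
    exact this.symm
  obtain ⟨hsm, hper⟩ := JQ5b.uu_smooth_periodic A0 A2 a0 a2 S sA0 sA2 sa0 sa2 sS pA0 pA2 pa0 pa2 pS
  refine ⟨uu A0 A2 a0 a2 S, hsm, hper, ?_⟩
  have hgr := JQ5.grad_uu A0 A2 a0 a2 S (2 * m - 1) (2 * mg - 1) D r (2 * tau) dA0 dA2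
    (sa0.differentiable (by norm_num)) (sa2.differentiable (by norm_num))
    (sS.differentiable (by norm_num)) ba0 ba2
    (fun t => (hd0 t).trans (by linarith)) (fun t => (hd2 t).trans (by linarith)) bS'
    (by rw [abs_le] at mal ⊢; constructor <;> linarith [mal.1, mal.2])
    (by rw [abs_le] at mga ⊢; constructor <;> linarith [mga.1, mga.2]) hDr
  -- the majorant
  let R : (Fin 2 → ℝ) → ℝ := fun x =>
    (1 - a0 (x 0) * a0 (x 1) * a2 (x 0 + x 1)) + 3 / 50 + 1 / 100 +
      L * (((1 - a0 (x 0) ^ 2) + (1 - a0 (x 1) ^ 2) + (1 - a2 (x 0 + x 1) ^ 2)) +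
        ∑ j : Fin 8, (1 - deriv S (x 0 + (j.val + 2 : ℕ) * x 1) ^ 2) + 2 * tau)
  have hle : ∀ x, min
      (Wv k K 1 (pp (Gm A0 A2 a0 a2 S x)) (ss (Gm A0 A2 a0 a2 S x)))
      (Wv k K (-1) (pp (Gm A0 A2 a0 a2 S x)) (ss (Gm A0 A2 a0 a2 S x))) ≤ R x := by
    intro x
    have h := hpt ![a0 (x 0), a0 (x 1), a2 (x 0 + x 1)]
      (fun j => deriv S (x 0 + (j.val + 2 : ℕ) * x 1))
      (pp (Gm A0 A2 a0 a2 S x)) (ss (Gm A0 A2 a0 a2 S x)) (2 * tau)
      (by intro i; fin_cases i <;> simp [ba0, ba2]) (fun j => bdS _) (by linarith) (by linarith)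
      (fun c => (hgr x c).1) (fun c => (hgr x c).2)
    simp only [Fin.sum_univ_three, Matrix.cons_val_zero, Matrix.cons_val_one, Matrix.cons_val] at h
    exact h
  have c0 : Continuous (fun x : Fin 2 → ℝ => a0 (x 0)) := sa0.continuous.comp (continuous_apply 0)
  have c1 : Continuous (fun x : Fin 2 → ℝ => a0 (x 1)) := sa0.continuous.comp (continuous_apply 1)
  have c2 : Continuous (fun x : Fin 2 → ℝ => a2 (x 0 + x 1)) :=
    sa2.continuous.comp ((continuous_apply 0).add (continuous_apply 1))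
  have cj : ∀ j : Fin 8, Continuous (fun x : Fin 2 → ℝ => 1 - deriv S (x 0 + (j.val + 2 : ℕ) * x 1) ^ 2) := by
    intro j
    exact continuous_const.sub ((hcS.comp ((continuous_apply 0).add
      (continuous_const.mul (continuous_apply 1)))).pow 2)
  have cR : Continuous R := by
    refine ((((continuous_const.sub ((c0.mul c1).mul c2)).add continuous_const).add
      continuous_const).add (continuous_const.mul ?_))
    refine ((((continuous_const.sub (c0.pow 2)).add (continuous_const.sub (c1.pow 2))).add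
      (continuous_const.sub (c2.pow 2))).add (continuous_finsetSum _ (fun j _ => cj j))).add
      continuous_const
  have hRint : ∫ x in Sq2, R x ≤ 4 / 5 := by
    have ca : Continuous al := hal.continuous
    have cg : Continuous ga := hga.continuous
    have d0 : Continuous (fun x : Fin 2 → ℝ => al (x 0)) := ca.comp (continuous_apply 0)
    have d1 : Continuous (fun x : Fin 2 → ℝ => al (x 1)) := ca.comp (continuous_apply 1)
    have d2 : Continuous (fun x : Fin 2 → ℝ => ga (x 0 + x 1)) :=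
      cg.comp ((continuous_apply 0).add (continuous_apply 1))
    let c : Fin 11 → ℝ := ![2 + 7 / 100 + 2 * tau * L, -4, 4, 4, -2, -2, -2, 4 * L, 4 * L, 4 * L, L]
    let f : Fin 11 → (Fin 2 → ℝ) → ℝ := ![fun _ => 1, fun x => al (x 0) * al (x 1),
      fun x => al (x 0) * ga (x 0 + x 1), fun x => al (x 1) * ga (x 0 + x 1),
      fun x => al (x 0), fun x => al (x 1), fun x => ga (x 0 + x 1),
      fun x => al (x 0) * (1 - al (x 0)), fun x => al (x 1) * (1 - al (x 1)),
      fun x => ga (x 0 + x 1) * (1 - ga (x 0 + x 1)),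
      fun x => ∑ j : Fin 8, (1 - deriv S (x 0 + (j.val + 2 : ℕ) * x 1) ^ 2)]
    have c10 : Continuous (fun x : Fin 2 → ℝ =>
        ∑ j : Fin 8, (1 - deriv S (x 0 + (j.val + 2 : ℕ) * x 1) ^ 2)) :=
      continuous_finsetSum Finset.univ (fun j _ => cj j)
    have hf : ∀ i, Continuous (f i) := by
      intro i
      fin_cases i
      · exact continuous_const
      · exact d0.mul d1
      · exact d0.mul d2
      · exact d1.mul d2
      · exact d0
      · exact d1
      · exact d2
      · exact d0.mul (continuous_const.sub d0)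
      · exact d1.mul (continuous_const.sub d1)
      · exact d2.mul (continuous_const.sub d2)
      · exact c10
    have hR : R = fun x => ∑ i, c i * f i x := by
      funext x
      have h3 := hprod (x 0) (x 1)
      simp only [R, c, f, ha0, ha2, Fin.sum_univ_succ (n := 10), Fin.sum_univ_succ (n := 9),
        Fin.sum_univ_succ (n := 8), Fin.sum_univ_succ (n := 2),
        Fin.sum_univ_succ (n := 6), Fin.sum_univ_succ (n := 5), Fin.sum_univ_succ (n := 4),
        Fin.sum_univ_succ (n := 3), Fin.sum_univ_succ (n := 1), Fin.sum_univ_succ (n := 0)]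
      simp [Fin.sum_univ_succ]
      linear_combination (-8) * h3
    rw [hR, int_sum_Sq2 c f hf]
    have j0 : ∫ x in Sq2, f 0 x = 1 := int_const_Sq2 1
    have j1 : ∫ x in Sq2, f 1 x = m * m := (JQ6c.int_prod al al ca ca pal pal).1
    have j2 : ∫ x in Sq2, f 2 x = m * mg := (JQ6c.int_prod al ga ca cg pal pga).2.1
    have j3 : ∫ x in Sq2, f 3 x = m * mg := (JQ6c.int_prod al ga ca cg pal pga).2.2
    have j4 : ∫ x in Sq2, f 4 x = m := by
      have h := JQ6.int_line al ca pal 0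
      simp only [Nat.cast_zero, zero_mul, add_zero] at h
      exact h
    have j5 : ∫ x in Sq2, f 5 x = m := JQ6b.int_line' al ca
    have j6 : ∫ x in Sq2, f 6 x = mg := by
      have h := JQ6.int_line ga cg pga 1
      simp only [Nat.cast_one, one_mul] at h
      exact h
    have ca' : Continuous (fun t => al t * (1 - al t)) := ca.mul (continuous_const.sub ca)
    have cg' : Continuous (fun t => ga t * (1 - ga t)) := cg.mul (continuous_const.sub cg)
    have pal' : Function.Periodic (fun t => al t * (1 - al t)) 1 := fun t => by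
      simp only [pal t]
    have pga' : Function.Periodic (fun t => ga t * (1 - ga t)) 1 := fun t => by
      simp only [pga t]
    have j7 : ∫ x in Sq2, f 7 x ≤ tau := by
      have h := JQ6.int_line (fun t => al t * (1 - al t)) ca' pal' 0
      simp only [Nat.cast_zero, zero_mul, add_zero] at h
      exact (le_of_eq h).trans Ial
    have j8 : ∫ x in Sq2, f 8 x ≤ tau := by
      have h := JQ6b.int_line' (fun t => al t * (1 - al t)) ca'
      exact (le_of_eq h).trans Ial
    have j9 : ∫ x in Sq2, f 9 x ≤ tau := by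
      have h := JQ6.int_line (fun t => ga t * (1 - ga t)) cg' pga' 1
      simp only [Nat.cast_one, one_mul] at h
      exact (le_of_eq h).trans Iga
    have j10 : ∫ x in Sq2, f 10 x ≤ 8 * tau := by
      have h1 : ∫ x in Sq2, (∑ j : Fin 8, (1 - deriv S (x 0 + (j.val + 2 : ℕ) * x 1) ^ 2)) =
          ∑ j : Fin 8, ∫ x in Sq2, (1 - deriv S (x 0 + (j.val + 2 : ℕ) * x 1) ^ 2) :=
        integral_finsetSum Finset.univ (fun j _ => integrable_Sq2 _ (cj j))
      refine (le_of_eq h1).trans ?_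
      have h2 : ∀ j : Fin 8, ∫ x in Sq2, (1 - deriv S (x 0 + (j.val + 2 : ℕ) * x 1) ^ 2) ≤ tau := by
        intro j
        have h := JQ6.int_line (fun t => 1 - deriv S t ^ 2)
          (continuous_const.sub (hcS.pow 2)) (fun t => by simp only [pdS t]) (j.val + 2)
        exact (le_of_eq h).trans IS'
      refine (Finset.sum_le_sum (fun j _ => h2 j)).trans ?_
      simp
    have key : ∑ i, c i * ∫ x in Sq2, f i x = c 0 * (∫ x in Sq2, f 0 x) + c 1 * (∫ x in Sq2, f 1 x)
        + c 2 * (∫ x in Sq2, f 2 x) + c 3 * (∫ x in Sq2, f 3 x) + c 4 * (∫ x in Sq2, f 4 x)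
        + c 5 * (∫ x in Sq2, f 5 x) + c 6 * (∫ x in Sq2, f 6 x) + c 7 * (∫ x in Sq2, f 7 x)
        + c 8 * (∫ x in Sq2, f 8 x) + c 9 * (∫ x in Sq2, f 9 x) + c 10 * (∫ x in Sq2, f 10 x) := by
      rw [Fin.sum_univ_castSucc, Fin.sum_univ_castSucc, Fin.sum_univ_castSucc, Fin.sum_univ_eight]
      rfl
    rw [key, j0, j1, j2, j3, j4, j5, j6]
    have e0 : c 0 = 2 + 7 / 100 + 2 * tau * L := rfl
    have e1 : c 1 = -4 := rfl
    have e2 : c 2 = 4 := rfl
    have e3 : c 3 = 4 := rfl
    have e4 : c 4 = -2 := rfl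
    have e5 : c 5 = -2 := rfl
    have e6 : c 6 = -2 := rfl
    have e7 : c 7 = 4 * L := rfl
    have e8 : c 8 = 4 * L := rfl
    have e9 : c 9 = 4 * L := rfl
    have e10 : c 10 = L := rfl
    rw [e0, e1, e2, e3, e4, e5, e6, e7, e8, e9, e10]
    have k7 := mul_le_mul_of_nonneg_left j7 hL
    have k8 := mul_le_mul_of_nonneg_left j8 hL
    have k9 := mul_le_mul_of_nonneg_left j9 hL
    have k10 := mul_le_mul_of_nonneg_left j10 hL
    obtain ⟨x, hx⟩ : ∃ x, x = m - 1 / 3 := ⟨_, rfl⟩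
    obtain ⟨y, hy⟩ : ∃ y, y = mg - 2 / 3 := ⟨_, rfl⟩
    have hm' : m = 1 / 3 + x := by rw [hx]; ring
    have hmg' : mg = 2 / 3 + y := by rw [hy]; ring
    rw [← hx] at mal
    rw [← hy] at mga
    rw [hm', hmg']
    have hLt : L * tau ≤ 1 / 1000 := by nlinarith
    have hx1 := (abs_le.1 mal)
    have hy1 := (abs_le.1 mga)
    have hxy : x * y ≤ tau ^ 2 := by
      have := abs_mul x y
      have h4 : |x| * |y| ≤ tau * tau := mul_le_mul mal mga (abs_nonneg _) htau0.le
      calc x * y ≤ |x * y| := le_abs_self _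
        _ = |x| * |y| := abs_mul x y
        _ ≤ tau ^ 2 := by rw [sq]; exact h4
    nlinarith [sq_nonneg x, hx1.1, hx1.2, hy1.1, hy1.2]
  by_cases hint : IntegrableOn (fun x => min
      (Wv k K 1 (pp (Gm A0 A2 a0 a2 S x)) (ss (Gm A0 A2 a0 a2 S x)))
      (Wv k K (-1) (pp (Gm A0 A2 a0 a2 S x)) (ss (Gm A0 A2 a0 a2 S x)))) Sq2
  · refine (integral_mono hint (integrable_Sq2 R cR) (fun x => hle x)).trans hRint
  · have h0 : ∫ x in Sq2, min
      (Wv k K 1 (pp (Gm A0 A2 a0 a2 S x)) (ss (Gm A0 A2 a0 a2 S x)))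
      (Wv k K (-1) (pp (Gm A0 A2 a0 a2 S x)) (ss (Gm A0 A2 a0 a2 S x))) = 0 :=
      integral_undef hint
    refine (le_of_eq h0).trans (by norm_num)

end TwoWell
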