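import Mathlib

set_option autoImplicit false

namespace TwoWell

/-- the vertices of the cube -/
def kk : Fin 8 → Fin 3 → ℝ :=
  ![![1, 1, 1], ![-1, 1, 1], ![1, -1, 1], ![-1, -1, 1],
    ![1, 1, -1], ![-1, 1, -1], ![1, -1, -1], ![-1, -1, -1]]

/-- product of the three signs of a vertex -/
def kap : Fin 8 → ℝ := ![1, -1, -1, 1, -1, 1, 1, -1]

/-- integer directions of the eleven columns -/
def nx : Fin 11 → ℤ := ![1, 0, 1, 1, 1, 1, 1, 1, 1, 1, 1]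

def ny : Fin 11 → ℤ := ![0, 1, 1, 2, 3, 4, 5, 6, 7, 8, 9]

/-- columns of the three coarse fields -/
def iM : Fin 3 → Fin 11 := ![0, 1, 2]

/-- columns of the eight fine fields -/
def iz : Fin 8 → Fin 11 := ![3, 4, 5, 6, 7, 8, 9, 10]

noncomputable def nn (a : Fin 11) : ℝ := (nx a : ℝ) ^ 2 + (ny a : ℝ) ^ 2

noncomputable def dd (a b : Fin 11) : ℝ := (nx a : ℝ) * (ny b : ℝ) - (ny a : ℝ) * (nx b : ℝ)

noncomputable def cc (a b : Fin 11) : ℝ :=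
  ((nx a : ℝ) * (nx b : ℝ) + (ny a : ℝ) * (ny b : ℝ)) / dd a b

/-- component of the column along its direction -/
noncomputable def pp (F : Matrix (Fin 2) (Fin 11) ℝ) (a : Fin 11) : ℝ :=
  (F 0 a * nx a + F 1 a * ny a) / nn a

/-- component of the column orthogonal to its direction -/
noncomputable def ss (F : Matrix (Fin 2) (Fin 11) ℝ) (a : Fin 11) : ℝ :=
  (-(F 0 a * ny a) + F 1 a * nx a) / nn a

/-- the relation satisfied by rank-one directions -/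
def R1 (h t : Fin 11 → ℝ) : Prop :=
  ∀ a b : Fin 11, a ≠ b → h a * h b + t a * t b + cc a b * (h a * t b - t a * h b) = 0

/-- the normalised minor of two columns in the coordinates `p`, `s` -/
noncomputable def mlt (p s : Fin 11 → ℝ) (a b : Fin 11) : ℝ :=
  p a * p b + s a * s b + cc a b * (p a * s b - s a * p b)

noncomputable def nrm (p : Fin 11 → ℝ) : ℝ := ∑ a, p a ^ 2

noncomputable def Y0 (p : Fin 11 → ℝ) : ℝ := ∑ j, p (iz j)

noncomputable def Yv (p : Fin 11 → ℝ) (i : Fin 3) : ℝ := ∑ j, kk j i * p (iz j)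

/-- the convex cost -/
noncomputable def cst (p : Fin 11 → ℝ) : ℝ := ∑ j, (1 - kap j) * p (iz j) ^ 2

/-- the cubic polynomial -/
noncomputable def Psi (M : Fin 3 → ℝ) (y0 : ℝ) (y : Fin 3 → ℝ) : ℝ :=
  (1 - y0 ^ 2) + (1 / 3) *
    ((y 0 ^ 2 - M 0 * y0 * y 0 + M 0 * y 1 * y 2) +
     (y 1 ^ 2 - M 1 * y0 * y 1 + M 1 * y 2 * y 0) +
     (y 2 ^ 2 - M 2 * y0 * y 2 + M 2 * y 0 * y 1)) - M 0 * M 1 * M 2

noncomputable def GA (KA : ℝ) (p s : Fin 11 → ℝ) : ℝ :=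
  cst p + (8 / 9) * Psi (fun i => p (iM i)) (Y0 p) (Yv p) + KA * nrm s +
    (1 / 1000) * (nrm p + nrm s)

noncomputable def Ul (p s : Fin 11 → ℝ) (i : Fin 3) : ℝ :=
  (∑ j, mlt p s (iM i) (iz j)) - Yv p i

noncomputable def Nl (p s : Fin 11 → ℝ) (i : Fin 3) : ℝ :=
  p (iM i) ^ 2 - 1 + ∑ j, ∑ l, (1 - kk j i * kk l i) * mlt p s (iz j) (iz l)

noncomputable def Phi (p s : Fin 11 → ℝ) : ℝ :=
  200 * ∑ i, |Ul p s i| + 9 * max 0 (max (Nl p s 0) (max (Nl p s 1) (Nl p s 2))) +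
    2 * max 0 (|Y0 p| - 1)

noncomputable def GB (KB : ℝ) (p s : Fin 11 → ℝ) : ℝ :=
  cst p + Phi p s + KB * nrm s + (2 / 1000) * (nrm p + nrm s)

/-- the bounded region where the cubic polynomial is used -/
def inN (p : Fin 11 → ℝ) : Prop :=
  (∀ i, |p (iM i)| ≤ 9 / 8) ∧ |Y0 p| ≤ 2 ∧ ∀ i, |Yv p i| ≤ 4

/-- its boundary -/
def bdN (p : Fin 11 → ℝ) : Prop :=
  inN p ∧ ((∃ i, |p (iM i)| = 9 / 8) ∨ |Y0 p| = 2 ∨ ∃ i, |Yv p i| = 4)

open Classical in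
noncomputable def GG (KA KB : ℝ) (p s : Fin 11 → ℝ) : ℝ :=
  if inN p then max (GA KA p s) (GB KB p s) else GB KB p s

noncomputable def pstar : Fin 11 → ℝ := ![0, 0, 0, 1/4, 0, 0, 1/4, 0, 1/4, 1/4, 0]

/-- the two energies in the coordinates `p`, `s` (`sg = 1` or `sg = -1`) -/
noncomputable def Wv (k K sg : ℝ) (p s : Fin 11 → ℝ) : ℝ :=
  cst p + k * ((Y0 p - sg) ^ 2 + ∑ i, (Yv p i - sg * p (iM i)) ^ 2) + K * nrm s +
    (1 / 100) * (nrm (fun a => p a - sg * pstar a) + nrm s) + 1 / 100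

/-- the base point -/
noncomputable def p0 : Fin 11 → ℝ := ![-1/3, -1/3, 1/3, 0, 0, 0, 0, 0, 0, 0, 0]

end TwoWell
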