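import Pool.Agent.TwoWell.Defs
set_option autoImplicit false
open Set Matrix MeasureTheory
namespace TwoWell

/-- half of the second derivative of `Psi` -/
noncomputable def H2Psi (M : Fin 3 → ℝ) (y0 : ℝ) (y : Fin 3 → ℝ)
    (m : Fin 3 → ℝ) (v0 : ℝ) (v : Fin 3 → ℝ) : ℝ :=
  - v0 ^ 2 + (1 / 3) *
    ((v 0 ^ 2 - m 0 * (v0 * y 0 + y0 * v 0) - M 0 * v0 * v 0
        + m 0 * (v 1 * y 2 + y 1 * v 2) + M 0 * v 1 * v 2) +
     (v 1 ^ 2 - m 1 * (v0 * y 1 + y0 * v 1) - M 1 * v0 * v 1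
        + m 1 * (v 2 * y 0 + y 2 * v 0) + M 1 * v 2 * v 0) +
     (v 2 ^ 2 - m 2 * (v0 * y 2 + y0 * v 2) - M 2 * v0 * v 2
        + m 2 * (v 0 * y 1 + y 0 * v 1) + M 2 * v 0 * v 1))
    - (m 0 * m 1 * M 2 + m 0 * M 1 * m 2 + M 0 * m 1 * m 2)

/-- half of the second derivative of `GA` -/
noncomputable def HA (KA : ℝ) (p h t : Fin 11 → ℝ) : ℝ :=
  cst h + (8 / 9) * H2Psi (fun i => p (iM i)) (Y0 p) (Yv p) (fun i => h (iM i)) (Y0 h) (Yv h) +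
    KA * nrm t + (1 / 1000) * (nrm h + nrm t)

noncomputable def S1 (p : Fin 11 → ℝ) : ℝ := ∑ a, |p a|

/-- centre of the well of phase one -/
noncomputable def Fst : Matrix (Fin 2) (Fin 11) ℝ :=
  Matrix.of ![fun a => pstar a * nx a, fun a => pstar a * ny a]

/-- base matrix -/
noncomputable def F0m : Matrix (Fin 2) (Fin 11) ℝ :=
  Matrix.of ![fun a => p0 a * nx a, fun a => p0 a * ny a]

/-- partition of unity attached to the vertices of the cube -/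
noncomputable def theta (a : Fin 3 → ℝ) (j : Fin 8) : ℝ :=
  ((1 + kk j 0 * a 0) / 2) * ((1 + kk j 1 * a 1) / 2) * ((1 + kk j 2 * a 2) / 2)

noncomputable def pf (a : Fin 3 → ℝ) (b : Fin 8 → ℝ) : Fin 11 → ℝ :=
  ![a 0, a 1, a 2, theta a 0 * b 0, theta a 1 * b 1, theta a 2 * b 2, theta a 3 * b 3,
    theta a 4 * b 4, theta a 5 * b 5, theta a 6 * b 6, theta a 7 * b 7]

/-- the test function -/
noncomputable def uu (A0 A2 a0 a2 S : ℝ → ℝ) (x : Fin 2 → ℝ) : Fin 11 → ℝ :=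
  ![A0 (x 0), A0 (x 1), A2 (x 0 + x 1),
    theta ![a0 (x 0), a0 (x 1), a2 (x 0 + x 1)] 0 * S (x 0 + 2 * x 1),
    theta ![a0 (x 0), a0 (x 1), a2 (x 0 + x 1)] 1 * S (x 0 + 3 * x 1),
    theta ![a0 (x 0), a0 (x 1), a2 (x 0 + x 1)] 2 * S (x 0 + 4 * x 1),
    theta ![a0 (x 0), a0 (x 1), a2 (x 0 + x 1)] 3 * S (x 0 + 5 * x 1),
    theta ![a0 (x 0), a0 (x 1), a2 (x 0 + x 1)] 4 * S (x 0 + 6 * x 1),
    theta ![a0 (x 0), a0 (x 1), a2 (x 0 + x 1)] 5 * S (x 0 + 7 * x 1),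
    theta ![a0 (x 0), a0 (x 1), a2 (x 0 + x 1)] 6 * S (x 0 + 8 * x 1),
    theta ![a0 (x 0), a0 (x 1), a2 (x 0 + x 1)] 7 * S (x 0 + 9 * x 1)]

noncomputable def Gm (A0 A2 a0 a2 S : ℝ → ℝ) (x : Fin 2 → ℝ) : Matrix (Fin 2) (Fin 11) ℝ :=
  F0m + Matrix.of (fun (i : Fin 2) (c : Fin 11) =>
    fderiv ℝ (uu A0 A2 a0 a2 S) x (Pi.single i (1 : ℝ)) c)

end TwoWell
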