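import Mathlib

set_option autoImplicit false
open MeasureTheory Matrix

namespace GClosure

/-- indices of the entries of a real `2 × n` matrix -/
abbrev Ix (n : ℕ) := Fin 2 × Fin n

/-- real `2 × n` matrices -/
abbrev Mt (n : ℕ) := Ix n → ℝ

/-- linear maps on `2 × n` matrices, as square matrices of size `2n` -/
abbrev Tens (n : ℕ) := Matrix (Ix n) (Ix n) ℝ

/-- the unit cell -/
def cell : Set (Fin 2 → ℝ) := Set.univ.pi (fun _ : Fin 2 => Set.Icc (0 : ℝ) 1)

/-- smooth potentials with `n` components, periodic with respect to the integer lattice -/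
def IsPot {n : ℕ} (u : (Fin 2 → ℝ) → (Fin n → ℝ)) : Prop :=
  ContDiff ℝ ((⊤ : ℕ∞) : WithTop ℕ∞) u ∧
    ∀ (x : Fin 2 → ℝ) (z : Fin 2 → ℤ), u (x + fun i => (z i : ℝ)) = u x

/-- the gradient field, with entry `∂ u_j / ∂ x_i` at the index `(i, j)` -/
noncomputable def grad {n : ℕ} (u : (Fin 2 → ℝ) → (Fin n → ℝ)) (x : Fin 2 → ℝ) : Mt n :=
  fun p => fderiv ℝ u x (Pi.single p.1 (1 : ℝ)) p.2

/-- a microstructure: a measurable set (phase one), periodic with respect to the integer lattice -/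
def IsMicro (A : Set (Fin 2 → ℝ)) : Prop :=
  MeasurableSet A ∧ ∀ (x : Fin 2 → ℝ) (z : Fin 2 → ℤ), (x + fun i => (z i : ℝ)) ∈ A ↔ x ∈ A

open Classical in
/-- the tensor field `L(x)` of the composite -/
noncomputable def tens {n : ℕ} (L1 L2 : Tens n) (A : Set (Fin 2 → ℝ)) (x : Fin 2 → ℝ) : Tens n :=
  if x ∈ A then L1 else L2

/-- `E` is square integrable on the cell and `E - E0` is a limit in `L²` of the cell of gradients
of smooth periodic potentials (that is, `E = E0 + ∇V` with `V` periodic in `H¹`) -/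
def IsField {n : ℕ} (E0 : Mt n) (E : (Fin 2 → ℝ) → Mt n) : Prop :=
  (∀ p, MemLp (fun x => E x p) 2 (volume.restrict cell)) ∧
  ∀ e : ℝ, 0 < e → ∃ u : (Fin 2 → ℝ) → (Fin n → ℝ), IsPot u ∧
    ∑ p, ∫ x in cell, (E x p - E0 p - grad u x p) ^ 2 < e

/-- the current `J = L(x) E` is divergence free (weakly, on the torus) -/
def IsCurrent {n : ℕ} (L1 L2 : Tens n) (A : Set (Fin 2 → ℝ)) (E : (Fin 2 → ℝ) → Mt n) : Prop :=
  ∀ u : (Fin 2 → ℝ) → (Fin n → ℝ), IsPot u →
    ∫ x in cell, (tens L1 L2 A x *ᵥ E x) ⬝ᵥ grad u x = 0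

/-- `Ls` is the effective tensor: it maps the average field to the average current -/
def IsEff {n : ℕ} (L1 L2 : Tens n) (A : Set (Fin 2 → ℝ)) (Ls : Tens n) : Prop :=
  ∀ E0 : Mt n, ∃ E : (Fin 2 → ℝ) → Mt n, IsField E0 E ∧ IsCurrent L1 L2 A E ∧
    ∀ p, ∫ x in cell, (tens L1 L2 A x *ᵥ E x) p = (Ls *ᵥ E0) p

/-- the `G`-closure at volume fraction `f` of phase one -/
def Gf {n : ℕ} (f : ℝ) (L1 L2 : Tens n) : Set (Tens n) :=
  closure {Ls | ∃ A : Set (Fin 2 → ℝ), IsMicro A ∧ volume (A ∩ cell) = ENNReal.ofReal f ∧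
    IsEff L1 L2 A Ls}

/-- `C` is the effective tensor of a layering, with normal `v`, of the materials `A` and `B` in
proportions `t`, `1 - t`: the fields `EA`, `EB` in the layers have the average `E0` and a rank-one
jump, the normal currents agree, and `C E0` is the average current -/
def IsLayer {n : ℕ} (t : ℝ) (v : Fin 2 → ℝ) (A B C : Tens n) : Prop :=
  ∀ E0 : Mt n, ∃ (EA EB : Mt n) (b : Fin n → ℝ),
    (∀ p, EA p - EB p = v p.1 * b p.2) ∧
    (∀ p, t * EA p + (1 - t) * EB p = E0 p) ∧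
    (∀ j, ∑ i, v i * ((A *ᵥ EA) (i, j) - (B *ᵥ EB) (i, j)) = 0) ∧
    (∀ p, (C *ᵥ E0) p = t * (A *ᵥ EA) p + (1 - t) * (B *ᵥ EB) p)

/-- `IsLam L1 L2 f C`: `C` is the effective tensor of a multiple-rank laminate of the two phases
with volume fraction `f` of phase one -/
inductive IsLam {n : ℕ} (L1 L2 : Tens n) : ℝ → Tens n → Prop
  | one : IsLam L1 L2 1 L1
  | two : IsLam L1 L2 0 L2
  | layer (f g t : ℝ) (v : Fin 2 → ℝ) (A B C : Tens n) (hA : IsLam L1 L2 f A)
      (hB : IsLam L1 L2 g B) (ht0 : 0 ≤ t) (ht1 : t ≤ 1) (hv : v ≠ 0)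
      (h : IsLayer t v A B C) : IsLam L1 L2 (t * f + (1 - t) * g) C

/-- the lamination closure at volume fraction `f` of phase one -/
def GLf {n : ℕ} (f : ℝ) (L1 L2 : Tens n) : Set (Tens n) := closure {C | IsLam L1 L2 f C}

end GClosure
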