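import Pool.Agent.TwoWell.GDefs
set_option autoImplicit false
open MeasureTheory Matrix
namespace GClosure

/-- the first eleven columns -/
def Fm (E : Mt 12) : Matrix (Fin 2) (Fin 11) ℝ := Matrix.of fun i j => E (i, Fin.castSucc j)

end GClosure
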