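import Pool.Agent.TwoWell.GDefs2
set_option autoImplicit false
open MeasureTheory Matrix
namespace GClosure


/-- auxiliary linear map -/
noncomputable def xtn_T (X : Matrix (Fin 2) (Fin 11) ℝ) : Mt 12 →ₗ[ℝ] Matrix (Fin 2) (Fin 11) ℝ where
  toFun E := Fm E - E (0, Fin.last 11) • X
  map_add' E E' := by
    ext i j
    simp [Fm]
    ring
  map_smul' c E := by
    ext i j
    simp [Fm]
    ring

/-- auxiliary bilinear form -/
noncomputable def xtn_B (L : Matrix (Fin 2) (Fin 11) ℝ →ₗ[ℝ] Matrix (Fin 2) (Fin 11) ℝ)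
    (X : Matrix (Fin 2) (Fin 11) ℝ) (N : ℝ) : Mt 12 →ₗ[ℝ] Mt 12 →ₗ[ℝ] ℝ :=
  LinearMap.mk₂ ℝ (fun E E' => Matrix.trace (xtn_T X E * (L (xtn_T X E'))ᵀ) +
      N * (E (0, Fin.last 11) * E' (0, Fin.last 11) + E (1, Fin.last 11) * E' (1, Fin.last 11)))
    (by
      intro a b c
      simp only [map_add, Matrix.add_mul, Matrix.trace_add, Pi.add_apply]
      ring)
    (by
      intro c a b
      simp only [map_smul, Matrix.smul_mul, Matrix.trace_smul, Pi.smul_apply, smul_eq_mul]
      ring)
    (by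
      intro a b c
      simp only [map_add, Matrix.transpose_add, Matrix.mul_add, Matrix.trace_add, Pi.add_apply]
      ring)
    (by
      intro c a b
      simp only [map_smul, Matrix.transpose_smul, Matrix.mul_smul, Matrix.trace_smul,
        Pi.smul_apply, smul_eq_mul]
      ring)

theorem exists_tensor (L : Matrix (Fin 2) (Fin 11) ℝ →ₗ[ℝ] Matrix (Fin 2) (Fin 11) ℝ)
    (hs : ∀ A B : Matrix (Fin 2) (Fin 11) ℝ, Matrix.trace (A * (L B)ᵀ) = Matrix.trace (L A * Bᵀ))
    (hp : ∀ A : Matrix (Fin 2) (Fin 11) ℝ, A ≠ 0 → 0 < Matrix.trace (A * (L A)ᵀ))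
    (X : Matrix (Fin 2) (Fin 11) ℝ) (N : ℝ) (hN : 0 < N) :
    ∃ M : Tens 12, M.PosDef ∧ ∀ E : Mt 12, E ⬝ᵥ (M *ᵥ E) =
      Matrix.trace ((Fm E - E (0, Fin.last 11) • X) * (L (Fm E - E (0, Fin.last 11) • X))ᵀ) +
        N * (E (0, Fin.last 11) ^ 2 + E (1, Fin.last 11) ^ 2) := by
  have hB : ∀ E E' : Mt 12, xtn_B L X N E E' = Matrix.trace (xtn_T X E * (L (xtn_T X E'))ᵀ) +
      N * (E (0, Fin.last 11) * E' (0, Fin.last 11) + E (1, Fin.last 11) * E' (1, Fin.last 11)) :=
    fun E E' => rfl
  have hBsymm : ∀ E E' : Mt 12, xtn_B L X N E E' = xtn_B L X N E' E := by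
    intro E E'
    rw [hB, hB, hs, ← Matrix.trace_transpose, Matrix.transpose_mul, Matrix.transpose_transpose]
    ring
  have hM : ∀ E E' : Mt 12, E ⬝ᵥ (LinearMap.toMatrix₂' ℝ (xtn_B L X N) *ᵥ E') =
      xtn_B L X N E E' := by
    intro E E'
    rw [← Matrix.toLinearMap₂'_apply', Matrix.toLinearMap₂'_toMatrix']
  refine ⟨LinearMap.toMatrix₂' ℝ (xtn_B L X N), ?_, ?_⟩
  · rw [Matrix.posDef_iff_dotProduct_mulVec]
    refine ⟨?_, ?_⟩
    · ext p q
      rw [Matrix.conjTranspose_apply, star_trivial, LinearMap.toMatrix₂'_apply,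
        LinearMap.toMatrix₂'_apply]
      exact hBsymm _ _
    · intro E hE
      rw [star_trivial, hM, hB]
      by_cases h0 : xtn_T X E = 0
      · rw [h0]
        simp only [map_zero, Matrix.zero_mul, Matrix.trace_zero, zero_add]
        by_contra hc
        push Not at hc
        have h1 : E (0, Fin.last 11) * E (0, Fin.last 11) + E (1, Fin.last 11) * E (1, Fin.last 11)
            ≤ 0 := by
          by_contra h'
          push Not at h'
          have := mul_pos hN h'
          linarith
        have h2 : E (0, Fin.last 11) = 0 := by nlinarith [sq_nonneg (E (0, Fin.last 11)), sq_nonneg (E (1, Fin.last 11))]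
        have h3 : E (1, Fin.last 11) = 0 := by nlinarith [sq_nonneg (E (0, Fin.last 11)), sq_nonneg (E (1, Fin.last 11))]
        apply hE
        have h4 : Fm E - E (0, Fin.last 11) • X = 0 := h0
        rw [h2, zero_smul, sub_zero] at h4
        funext ⟨i, j⟩
        refine Fin.lastCases ?_ (fun j => ?_) j
        · fin_cases i
          · exact h2
          · exact h3
        · have := congrFun (congrFun h4 i) j
          exact this
      · have h1 := hp _ h0
        have h2 : 0 ≤ N * (E (0, Fin.last 11) * E (0, Fin.last 11) +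
            E (1, Fin.last 11) * E (1, Fin.last 11)) := by
          have := mul_self_nonneg (E (0, Fin.last 11))
          have := mul_self_nonneg (E (1, Fin.last 11))
          positivity
        linarith
  · intro E
    rw [hM, hB]
    show Matrix.trace ((Fm E - E (0, Fin.last 11) • X) * (L (Fm E - E (0, Fin.last 11) • X))ᵀ) +
      N * (E (0, Fin.last 11) * E (0, Fin.last 11) + E (1, Fin.last 11) * E (1, Fin.last 11)) = _
    ring


end GClosure
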