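import Pool.Agent.TwoWell.GDefs2
set_option autoImplicit false
open MeasureTheory Matrix
namespace GClosure


theorem quad_lower_exp (L : Matrix (Fin 2) (Fin 11) ℝ →ₗ[ℝ] Matrix (Fin 2) (Fin 11) ℝ)
    (hs : ∀ A B : Matrix (Fin 2) (Fin 11) ℝ, Matrix.trace (A * (L B)ᵀ) = Matrix.trace (L A * Bᵀ))
    (a b : Matrix (Fin 2) (Fin 11) ℝ) (t : ℝ) :
    Matrix.trace ((a - t • b) * (L (a - t • b))ᵀ) = Matrix.trace (a * (L a)ᵀ) -
      2 * t * Matrix.trace (a * (L b)ᵀ) + t ^ 2 * Matrix.trace (b * (L b)ᵀ) := by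
  have hsym : Matrix.trace (b * (L a)ᵀ) = Matrix.trace (a * (L b)ᵀ) := by
    rw [hs a b, ← Matrix.trace_transpose (L a * bᵀ), Matrix.transpose_mul,
      Matrix.transpose_transpose]
  rw [map_sub, map_smul, Matrix.transpose_sub, Matrix.transpose_smul, Matrix.sub_mul,
    Matrix.mul_sub, Matrix.mul_sub, Matrix.smul_mul, Matrix.smul_mul, Matrix.mul_smul,
    Matrix.mul_smul, Matrix.trace_sub, Matrix.trace_sub, Matrix.trace_sub, Matrix.trace_smul,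
    Matrix.trace_smul, Matrix.trace_smul, Matrix.trace_smul, hsym]
  simp only [smul_eq_mul]
  ring

theorem quad_lower (L : Matrix (Fin 2) (Fin 11) ℝ →ₗ[ℝ] Matrix (Fin 2) (Fin 11) ℝ)
    (hs : ∀ A B : Matrix (Fin 2) (Fin 11) ℝ, Matrix.trace (A * (L B)ᵀ) = Matrix.trace (L A * Bᵀ))
    (hp : ∀ A : Matrix (Fin 2) (Fin 11) ℝ, A ≠ 0 → 0 < Matrix.trace (A * (L A)ᵀ))
    (X : Matrix (Fin 2) (Fin 11) ℝ) (g : Matrix (Fin 2) (Fin 11) ℝ → ℝ)
    (hg : ∀ H, g H ≤ Matrix.trace ((H - X) * (L (H - X))ᵀ) + 1 / 100) :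
    ∃ N0 : ℝ, 0 ≤ N0 ∧ ∀ N : ℝ, N0 ≤ N → ∀ E : Mt 12,
      (19 / 20) * (g (Fm E) - 1 / 100) + N * (2 * E (0, Fin.last 11) - 1) ≤
      Matrix.trace ((Fm E - E (0, Fin.last 11) • X) * (L (Fm E - E (0, Fin.last 11) • X))ᵀ) +
        N * (E (0, Fin.last 11) ^ 2 + E (1, Fin.last 11) ^ 2) := by
  have hnn : ∀ A : Matrix (Fin 2) (Fin 11) ℝ, 0 ≤ Matrix.trace (A * (L A)ᵀ) := by
    intro A
    by_cases h : A = 0
    · rw [h]; simp
    · exact (hp A h).le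
  refine ⟨19 * Matrix.trace (X * (L X)ᵀ), mul_nonneg (by norm_num) (hnn X), fun N hN E => ?_⟩
  have h1 : Fm E - E (0, Fin.last 11) • X = (Fm E - X) - (E (0, Fin.last 11) - 1) • X := by
    rw [sub_smul, one_smul]; abel
  rw [h1, quad_lower_exp L hs]
  have h2 := hnn ((Fm E - X) - (20 * (E (0, Fin.last 11) - 1)) • X)
  rw [quad_lower_exp L hs] at h2
  have h3 := hg (Fm E)
  have h4 := hnn X
  generalize Matrix.trace (X * (L X)ᵀ) = QX at *
  generalize Matrix.trace ((Fm E - X) * (L X)ᵀ) = QaX at *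
  generalize Matrix.trace ((Fm E - X) * (L (Fm E - X))ᵀ) = Qa at *
  generalize E (0, Fin.last 11) = e0 at *
  generalize E (1, Fin.last 11) = e1 at *
  generalize g (Fm E) = G at *
  have h5 : 0 ≤ (N - 19 * QX) * (e0 - 1) ^ 2 := mul_nonneg (by linarith) (sq_nonneg _)
  have h6 : 0 ≤ N * e1 ^ 2 := mul_nonneg (by linarith) (sq_nonneg _)
  nlinarith [h2, h3, h5, h6]

end GClosure
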