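import Pool.Agent.TwoWell.GDefs
set_option autoImplicit false
open MeasureTheory Matrix
namespace GClosure

theorem layer_id834 {n : ℕ} (t : ℝ) (v : Fin 2 → ℝ) (b : Fin n → ℝ) (E0 EA EB JA JB K : Mt n)
    (h1 : ∀ p, EA p - EB p = v p.1 * b p.2) (h2 : ∀ p, t * EA p + (1 - t) * EB p = E0 p)
    (h3 : ∀ j, ∑ i, v i * (JA (i, j) - JB (i, j)) = 0)
    (h4 : ∀ p, K p = t * JA p + (1 - t) * JB p) :
    t * (EA ⬝ᵥ JA) + (1 - t) * (EB ⬝ᵥ JB) = E0 ⬝ᵥ K := by
  have h5 : ∑ p : Ix n, (v p.1 * b p.2) * (JA p - JB p) = 0 := by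
    rw [Fintype.sum_prod_type_right]
    refine Finset.sum_eq_zero fun j _ => ?_
    have : ∑ x, v (x, j).1 * b (x, j).2 * (JA (x, j) - JB (x, j)) =
        b j * ∑ i, v i * (JA (i, j) - JB (i, j)) := by
      rw [Finset.mul_sum]
      refine Finset.sum_congr rfl fun i _ => ?_
      show v i * b j * (JA (i, j) - JB (i, j)) = _
      ring
    rw [this, h3, mul_zero]
  simp only [dotProduct]
  rw [Finset.mul_sum, Finset.mul_sum, ← Finset.sum_add_distrib, ← sub_eq_zero,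
    ← Finset.sum_sub_distrib]
  have h6 : ∀ p : Ix n, t * (EA p * JA p) + (1 - t) * (EB p * JB p) - E0 p * K p =
      t * (1 - t) * ((v p.1 * b p.2) * (JA p - JB p)) := by
    intro p
    rw [h4, ← h1, ← h2]
    ring
  rw [Finset.sum_congr rfl fun p _ => h6 p, ← Finset.mul_sum, h5, mul_zero]

theorem lam_lower {n : ℕ} (L1 L2 : Tens n) (g : Mt n → ℝ)
    (hg : ∀ (E : Mt n) (a : Fin 2 → ℝ) (b : Fin n → ℝ),
      ConvexOn ℝ Set.univ (fun t : ℝ => g (E + t • fun p : Ix n => a p.1 * b p.2)))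
    (h1 : ∀ E, g E ≤ E ⬝ᵥ (L1 *ᵥ E)) (h2 : ∀ E, g E ≤ E ⬝ᵥ (L2 *ᵥ E))
    (f : ℝ) (C : Tens n) (hC : C ∈ GLf f L1 L2) (E0 : Mt n) : g E0 ≤ E0 ⬝ᵥ (C *ᵥ E0) := by
  have key : ∀ (f : ℝ) (C : Tens n), IsLam L1 L2 f C → ∀ E0 : Mt n, g E0 ≤ E0 ⬝ᵥ (C *ᵥ E0) := by
    intro f C hC
    induction hC with
    | one => exact h1
    | two => exact h2
    | layer f g' t v A B C hA hB ht0 ht1 hv h ihA ihB =>
      intro E0
      obtain ⟨EA, EB, b, e1, e2, e3, e4⟩ := h E0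
      have hconv := hg EB v b
      have h3 := hconv.2 (Set.mem_univ (1 : ℝ)) (Set.mem_univ (0 : ℝ)) ht0 (by linarith : 0 ≤ 1 - t)
        (by ring)
      simp only [smul_eq_mul, mul_one, mul_zero, add_zero, zero_smul, one_smul] at h3
      have h4 : (EB + fun p : Ix n => v p.1 * b p.2) = EA := by
        funext p
        rw [Pi.add_apply, ← e1]
        ring
      have h5 : (EB + t • fun p : Ix n => v p.1 * b p.2) = E0 := by
        funext p
        rw [Pi.add_apply, Pi.smul_apply, smul_eq_mul, ← e1, ← e2]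
        ring
      rw [h4, h5] at h3
      have h6 := layer_id834 t v b E0 EA EB (A *ᵥ EA) (B *ᵥ EB) (C *ᵥ E0) e1 e2 e3 e4
      rw [← h6]
      have h7 : t * g EA ≤ t * (EA ⬝ᵥ (A *ᵥ EA)) := mul_le_mul_of_nonneg_left (ihA EA) ht0
      have h8 : (1 - t) * g EB ≤ (1 - t) * (EB ⬝ᵥ (B *ᵥ EB)) :=
        mul_le_mul_of_nonneg_left (ihB EB) (by linarith)
      linarith
  have hcl : IsClosed {C : Tens n | g E0 ≤ E0 ⬝ᵥ (C *ᵥ E0)} := by
    apply isClosed_le continuous_const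
    exact continuous_const.dotProduct (continuous_id.matrix_mulVec continuous_const)
  exact closure_minimal (fun C hC => key f C hC E0) hcl hC

end GClosure
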