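import Pool.Agent.TwoWell.GDefs
set_option autoImplicit false
open MeasureTheory Matrix
namespace GClosure

/-! ### auxiliary -/

theorem ef_sq {n : ℕ} (L : Tens n) (h : L.PosDef) :
    ∃ B : Tens n, L = Bᵀ * B ∧ B⁻¹ * B = 1 ∧ B * B⁻¹ = 1 := by
  open scoped MatrixOrder in
  have h0 : 0 ≤ L := h.posSemidef.nonneg
  open scoped MatrixOrder in
  have h1 : CFC.sqrt L * CFC.sqrt L = L := CFC.sqrt_mul_sqrt_self L h0
  open scoped MatrixOrder in
  have h2 : (CFC.sqrt L)ᴴ = CFC.sqrt L := (CFC.sqrt_nonneg L).posSemidef.isHermitian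
  have hd : IsUnit (CFC.sqrt L).det := by
    have h3 : (CFC.sqrt L).det * (CFC.sqrt L).det = L.det := by
      rw [← det_mul, h1]
    have h4 : L.det ≠ 0 := h.det_pos.ne'
    rw [isUnit_iff_ne_zero]
    intro h5
    rw [h5, zero_mul] at h3
    exact h4 h3.symm
  refine ⟨CFC.sqrt L, ?_, nonsing_inv_mul _ hd, mul_nonsing_inv _ hd⟩
  rw [← conjTranspose_eq_transpose_of_trivial, h2, h1]

theorem ef_cell : volume cell = 1 := by
  unfold cell
  rw [volume_pi_pi]
  simp

instance ef_fin : IsFiniteMeasure (volume.restrict cell : Measure (Fin 2 → ℝ)) :=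
  ⟨by rw [Measure.restrict_apply_univ, ef_cell]; exact ENNReal.one_lt_top⟩

theorem ef_compact : IsCompact cell := by
  unfold cell
  exact isCompact_univ_pi fun _ => isCompact_Icc

/-- the Hilbert space -/
abbrev HH (n : ℕ) := PiLp 2 (fun _ : Ix n => Lp ℝ 2 (volume.restrict cell : Measure (Fin 2 → ℝ)))

/-- the function `F` represents the element `h` -/
def Rep {n : ℕ} (h : HH n) (F : (Fin 2 → ℝ) → Mt n) : Prop :=
  ∀ p, (h p : (Fin 2 → ℝ) → ℝ) =ᵐ[volume.restrict cell] fun x => F x p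

theorem Rep.memLp {n : ℕ} {h : HH n} {F : (Fin 2 → ℝ) → Mt n} (hr : Rep h F) (p : Ix n) :
    MemLp (fun x => F x p) 2 (volume.restrict cell) :=
  (memLp_congr_ae (hr p)).1 (Lp.memLp (h p))

theorem exists_rep {n : ℕ} (F : (Fin 2 → ℝ) → Mt n)
    (hF : ∀ p, MemLp (fun x => F x p) 2 (volume.restrict cell)) : ∃ h : HH n, Rep h F :=
  ⟨WithLp.toLp 2 (fun p => (hF p).toLp _), fun p => (hF p).coeFn_toLp⟩

theorem rep_self {n : ℕ} (h : HH n) : Rep h (fun x p => (h p : (Fin 2 → ℝ) → ℝ) x) :=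
  fun _ => Filter.Eventually.of_forall fun _ => rfl

theorem Rep.add {n : ℕ} {h k : HH n} {F G : (Fin 2 → ℝ) → Mt n} (hf : Rep h F) (hg : Rep k G) :
    Rep (h + k) (fun x => F x + G x) := by
  intro p
  have e : ((h + k) p : Lp ℝ 2 (volume.restrict cell : Measure (Fin 2 → ℝ))) = h p + k p := rfl
  rw [e]
  filter_upwards [Lp.coeFn_add (h p) (k p), hf p, hg p] with x h1 h2 h3
  rw [h1, Pi.add_apply, h2, h3]
  rfl

theorem Rep.sub {n : ℕ} {h k : HH n} {F G : (Fin 2 → ℝ) → Mt n} (hf : Rep h F) (hg : Rep k G) :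
    Rep (h - k) (fun x => F x - G x) := by
  intro p
  have e : ((h - k) p : Lp ℝ 2 (volume.restrict cell : Measure (Fin 2 → ℝ))) = h p - k p := rfl
  rw [e]
  filter_upwards [Lp.coeFn_sub (h p) (k p), hf p, hg p] with x h1 h2 h3
  rw [h1, Pi.sub_apply, h2, h3]
  rfl

theorem Rep.smul {n : ℕ} {h : HH n} {F : (Fin 2 → ℝ) → Mt n} (c : ℝ) (hf : Rep h F) :
    Rep (c • h) (fun x => c • F x) := by
  intro p
  have e : ((c • h) p : Lp ℝ 2 (volume.restrict cell : Measure (Fin 2 → ℝ))) = c • h p := rfl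
  rw [e]
  filter_upwards [Lp.coeFn_smul c (h p), hf p] with x h1 h2
  rw [h1, Pi.smul_apply, h2]
  rfl

theorem rep_zero {n : ℕ} : Rep (0 : HH n) (fun _ => 0) := by
  intro p
  exact Lp.coeFn_zero ℝ 2 _

theorem rep_sum {n : ℕ} {ι : Type*} (s : Finset ι) (h : ι → HH n)
    (F : ι → (Fin 2 → ℝ) → Mt n) (hr : ∀ i ∈ s, Rep (h i) (F i)) :
    Rep (∑ i ∈ s, h i) (fun x => ∑ i ∈ s, F i x) := by
  classical
  induction s using Finset.induction_on with
  | empty => simpa using rep_zero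
  | insert a s ha ih =>
    rw [Finset.sum_insert ha]
    have := (hr a (Finset.mem_insert_self _ _)).add
      (ih fun i hi => hr i (Finset.mem_insert_of_mem hi))
    convert this using 2
    rw [Finset.sum_insert ha]

theorem inner_rep {n : ℕ} {h k : HH n} {F G : (Fin 2 → ℝ) → Mt n} (hf : Rep h F)
    (hg : Rep k G) : inner ℝ h k = ∫ x in cell, F x ⬝ᵥ G x := by
  rw [PiLp.inner_apply]
  have h1 : ∀ p, inner ℝ (h p) (k p) = ∫ x in cell, F x p * G x p := by
    intro p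
    rw [L2.inner_def]
    refine integral_congr_ae ?_
    filter_upwards [hf p, hg p] with x h2 h3
    rw [h2, h3]
    simp [mul_comm]
  simp_rw [h1]
  rw [← integral_finsetSum]
  · rfl
  · intro p _
    exact (hf.memLp p).integrable_mul (hg.memLp p)

theorem tens_memLp {n : ℕ} (M1 M2 : Tens n) (A : Set (Fin 2 → ℝ)) (hA : MeasurableSet A)
    (F : (Fin 2 → ℝ) → Mt n) (hF : ∀ p, MemLp (fun x => F x p) 2 (volume.restrict cell))
    (p : Ix n) : MemLp (fun x => (tens M1 M2 A x *ᵥ F x) p) 2 (volume.restrict cell) := by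
  have h1 : (fun x => (tens M1 M2 A x *ᵥ F x) p) = fun x => ∑ q,
      (A.indicator (fun x => M1 p q * F x q) x + Aᶜ.indicator (fun x => M2 p q * F x q) x) := by
    funext x
    unfold tens
    by_cases hx : x ∈ A
    · simp [hx, mulVec, dotProduct]
    · simp [hx, mulVec, dotProduct]
  rw [h1]
  refine memLp_finsetSum _ fun q _ => ?_
  exact (((hF q).const_mul (M1 p q)).indicator hA).add
    (((hF q).const_mul (M2 p q)).indicator hA.compl)

theorem tens_mul {n : ℕ} (M1 M2 N1 N2 : Tens n) (A : Set (Fin 2 → ℝ)) (x : Fin 2 → ℝ) :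
    tens M1 M2 A x * tens N1 N2 A x = tens (M1 * N1) (M2 * N2) A x := by
  unfold tens
  split_ifs <;> rfl

theorem tens_tr {n : ℕ} (M1 M2 : Tens n) (A : Set (Fin 2 → ℝ)) (x : Fin 2 → ℝ) :
    (tens M1 M2 A x)ᵀ = tens (M1ᵀ) (M2ᵀ) A x := by
  unfold tens
  split_ifs <;> rfl

theorem tens_one {n : ℕ} (A : Set (Fin 2 → ℝ)) (x : Fin 2 → ℝ) :
    tens (1 : Tens n) 1 A x = 1 := by
  unfold tens
  split_ifs <;> rfl

theorem quad_eq {n : ℕ} (B : Tens n) (F G : Mt n) :
    ((Bᵀ * B) *ᵥ F) ⬝ᵥ G = (B *ᵥ F) ⬝ᵥ (B *ᵥ G) := by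
  rw [dotProduct_mulVec, ← mulVec_mulVec, mulVec_transpose]

theorem grad_cont {n : ℕ} {u : (Fin 2 → ℝ) → (Fin n → ℝ)} (hu : IsPot u) (p : Ix n) :
    Continuous fun x => grad u x p := by
  unfold grad
  have h1 : Continuous (fderiv ℝ u) := hu.1.continuous_fderiv (by simp)
  exact (continuous_apply p.2).comp (h1.clm_apply continuous_const)

theorem cont_memLp {f : (Fin 2 → ℝ) → ℝ} (hf : Continuous f) :
    MemLp f 2 (volume.restrict cell) := by
  obtain ⟨C, hC⟩ := ef_compact.exists_bound_of_continuousOn hf.continuousOn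
  refine MemLp.of_bound hf.aestronglyMeasurable C ?_
  exact (ae_restrict_iff' ef_compact.isClosed.measurableSet).2
    (Filter.Eventually.of_forall fun x hx => hC x hx)

theorem grad_add' {n : ℕ} {u v : (Fin 2 → ℝ) → (Fin n → ℝ)} (hu : IsPot u) (hv : IsPot v)
    (x : Fin 2 → ℝ) : grad (fun y => u y + v y) x = grad u x + grad v x := by
  funext p
  unfold grad
  rw [fderiv_fun_add ((hu.1.differentiable (by simp)) x) ((hv.1.differentiable (by simp)) x)]
  rfl

theorem grad_smul' {n : ℕ} {u : (Fin 2 → ℝ) → (Fin n → ℝ)} (hu : IsPot u) (c : ℝ)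
    (x : Fin 2 → ℝ) : grad (fun y => c • u y) x = c • grad u x := by
  funext p
  unfold grad
  rw [fderiv_fun_const_smul ((hu.1.differentiable (by simp)) x)]
  rfl

theorem pot_add {n : ℕ} {u v : (Fin 2 → ℝ) → (Fin n → ℝ)} (hu : IsPot u) (hv : IsPot v) :
    IsPot (fun y => u y + v y) :=
  ⟨hu.1.add hv.1, fun x z => by simp only [hu.2, hv.2]⟩

theorem pot_smul {n : ℕ} {u : (Fin 2 → ℝ) → (Fin n → ℝ)} (hu : IsPot u) (c : ℝ) :
    IsPot (fun y => c • u y) :=
  ⟨hu.1.const_smul c, fun x z => by simp only [hu.2]⟩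

theorem pot_zero {n : ℕ} : IsPot (fun _ => (0 : Fin n → ℝ)) :=
  ⟨contDiff_const, fun _ _ => rfl⟩

theorem grad_zero' {n : ℕ} (x : Fin 2 → ℝ) : grad (fun _ => (0 : Fin n → ℝ)) x = 0 := by
  funext p
  unfold grad
  simp

/-- the subspace of the `B ∇ u` -/
def Ug {n : ℕ} (B1 B2 : Tens n) (A : Set (Fin 2 → ℝ)) : Submodule ℝ (HH n) where
  carrier := {h | ∃ u, IsPot u ∧ Rep h (fun x => tens B1 B2 A x *ᵥ grad u x)}
  add_mem' := by
    rintro h k ⟨u, hu, hr⟩ ⟨v, hv, hs⟩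
    refine ⟨_, pot_add hu hv, ?_⟩
    have := hr.add hs
    convert this using 2
    rw [grad_add' hu hv, mulVec_add]
  zero_mem' := ⟨_, pot_zero, by
    convert rep_zero using 2
    rw [grad_zero', mulVec_zero]⟩
  smul_mem' := by
    rintro c h ⟨u, hu, hr⟩
    refine ⟨_, pot_smul hu c, ?_⟩
    have := hr.smul c
    convert this using 2
    rw [grad_smul' hu, mulVec_smul]

theorem mulVec_bound {n : ℕ} (M1 M2 : Tens n) : ∃ C : ℝ, 0 < C ∧
    ∀ (A : Set (Fin 2 → ℝ)) (x : Fin 2 → ℝ) (v : Mt n),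
      ∑ p, (tens M1 M2 A x *ᵥ v) p ^ 2 ≤ C * ∑ p, v p ^ 2 := by
  have key : ∀ M : Tens n, ∃ C : ℝ, 0 < C ∧ ∀ v : Mt n,
      ∑ p, (M *ᵥ v) p ^ 2 ≤ C * ∑ p, v p ^ 2 := by
    intro M
    refine ⟨(∑ p, ∑ q, M p q ^ 2) + 1, by positivity, fun v => ?_⟩
    have h1 : ∀ p, (M *ᵥ v) p ^ 2 ≤ (∑ q, M p q ^ 2) * ∑ q, v q ^ 2 := by
      intro p
      exact Finset.sum_mul_sq_le_sq_mul_sq Finset.univ (fun q => M p q) v
    calc ∑ p, (M *ᵥ v) p ^ 2 ≤ ∑ p, (∑ q, M p q ^ 2) * ∑ q, v q ^ 2 :=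
          Finset.sum_le_sum fun p _ => h1 p
      _ = (∑ p, ∑ q, M p q ^ 2) * ∑ q, v q ^ 2 := by rw [Finset.sum_mul]
      _ ≤ _ := by
        have : 0 ≤ ∑ q, v q ^ 2 := Finset.sum_nonneg fun q _ => sq_nonneg _
        nlinarith
  obtain ⟨C1, h1, h1'⟩ := key M1
  obtain ⟨C2, h2, h2'⟩ := key M2
  refine ⟨C1 + C2, by positivity, fun A x v => ?_⟩
  have h0 : 0 ≤ ∑ q, v q ^ 2 := Finset.sum_nonneg fun q _ => sq_nonneg _
  unfold tens
  split_ifs
  · have := h1' v
    nlinarith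
  · have := h2' v
    nlinarith

theorem exists_eff {n : ℕ} (L1 L2 : Tens n) (h1 : L1.PosDef) (h2 : L2.PosDef)
    (A : Set (Fin 2 → ℝ)) (hA : MeasurableSet A) :
    ∃ Ls : Tens n, IsEff L1 L2 A Ls ∧
      ∀ (E0 : Mt n) (u : (Fin 2 → ℝ) → (Fin n → ℝ)), IsPot u →
        E0 ⬝ᵥ (Ls *ᵥ E0) ≤
          ∫ x in cell, (E0 + grad u x) ⬝ᵥ (tens L1 L2 A x *ᵥ (E0 + grad u x)) := by
  classical
  obtain ⟨B1, hB1, hB1', hB1''⟩ := ef_sq L1 h1
  obtain ⟨B2, hB2, hB2', hB2''⟩ := ef_sq L2 h2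
  have hT : ∀ x, tens L1 L2 A x = (tens B1 B2 A x)ᵀ * tens B1 B2 A x := by
    intro x
    rw [tens_tr, tens_mul, ← hB1, ← hB2]
  have hBC : ∀ x, tens B1 B2 A x * tens B1⁻¹ B2⁻¹ A x = 1 := by
    intro x
    rw [tens_mul, hB1'', hB2'', tens_one]
  have hCB : ∀ x, tens B1⁻¹ B2⁻¹ A x * tens B1 B2 A x = 1 := by
    intro x
    rw [tens_mul, hB1', hB2', tens_one]
  have hq : ∀ x (F G : Mt n), (tens L1 L2 A x *ᵥ F) ⬝ᵥ G =
      (tens B1 B2 A x *ᵥ F) ⬝ᵥ (tens B1 B2 A x *ᵥ G) := by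
    intro x F G
    rw [hT, quad_eq]
  have hcex : ∀ q : Ix n, ∃ c : HH n,
      Rep c (fun x => tens B1 B2 A x *ᵥ (Pi.single q (1 : ℝ) : Mt n)) := fun q =>
    exists_rep _ (tens_memLp B1 B2 A hA _ fun p => memLp_const _)
  choose c hc using hcex
  set hE : Mt n → HH n := fun E0 => ∑ q, E0 q • c q with hhE
  have hER : ∀ E0, Rep (hE E0) (fun x => tens B1 B2 A x *ᵥ E0) := by
    intro E0
    have := rep_sum Finset.univ (fun q => E0 q • c q)
      (fun q x => E0 q • (tens B1 B2 A x *ᵥ (Pi.single q (1 : ℝ) : Mt n)))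
      (fun q _ => (hc q).smul (E0 q))
    convert this using 2 with x
    simp_rw [← mulVec_smul]
    rw [← mulVec_sum]
    congr 1
    funext p
    simp [Finset.sum_apply, Pi.single_apply]
  set U := Ug B1 B2 A with hU
  set K := U.topologicalClosure with hK
  have : CompleteSpace K := (Submodule.isClosed_topologicalClosure U).completeSpace_coe
  have hUK : ∀ h ∈ U, h ∈ K := fun h hh => U.le_topologicalClosure hh
  set W : Mt n → HH n := fun E0 => hE E0 - K.starProjection (hE E0) with hW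
  have hWo : ∀ E0, ∀ k ∈ K, inner ℝ (W E0) k = 0 := fun E0 k hk =>
    Submodule.starProjection_inner_eq_zero _ _ hk
  have hgrad : ∀ u, IsPot u → ∃ k ∈ U, Rep k (fun x => tens B1 B2 A x *ᵥ grad u x) := by
    intro u hu
    obtain ⟨k, hk⟩ := exists_rep (fun x => tens B1 B2 A x *ᵥ grad u x)
      (tens_memLp B1 B2 A hA _ fun p => cont_memLp (grad_cont hu p))
    exact ⟨k, ⟨u, hu, hk⟩, hk⟩
  set Ls : Tens n := Matrix.of fun p q => inner ℝ (c p) (W (Pi.single q (1 : ℝ))) with hLs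
  have hsingle : ∀ q, hE (Pi.single q (1 : ℝ)) = c q := by
    intro q
    simp only [hhE, Pi.single_apply]
    simp
  have hWlin : ∀ E0, W E0 = ∑ q, E0 q • W (Pi.single q (1 : ℝ)) := by
    intro E0
    simp only [hW, hsingle]
    have : hE E0 = ∑ q, E0 q • c q := rfl
    rw [this, map_sum]
    simp only [map_smul, smul_sub, Finset.sum_sub_distrib]
  have hLsE : ∀ E0 p, (Ls *ᵥ E0) p = inner ℝ (c p) (W E0) := by
    intro E0 p
    rw [hWlin E0, inner_sum]
    simp only [mulVec, dotProduct, hLs, Matrix.of_apply, inner_smul_right]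
    exact Finset.sum_congr rfl fun q _ => mul_comm _ _
  refine ⟨Ls, ?_, ?_⟩
  · intro E0
    set w := W E0 with hw
    set Wf : (Fin 2 → ℝ) → Mt n := fun x p => (w p : (Fin 2 → ℝ) → ℝ) x with hWf
    have hwr : Rep w Wf := rep_self w
    have hBE : ∀ x, tens B1 B2 A x *ᵥ (tens B1⁻¹ B2⁻¹ A x *ᵥ Wf x) = Wf x := by
      intro x
      rw [mulVec_mulVec, hBC, one_mulVec]
    refine ⟨fun x => tens B1⁻¹ B2⁻¹ A x *ᵥ Wf x, ⟨?_, ?_⟩, ?_, ?_⟩
    · exact tens_memLp _ _ A hA _ hwr.memLp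
    · intro e he
      obtain ⟨C, hC, hCb⟩ := mulVec_bound B1⁻¹ B2⁻¹
      have hmem : -(K.starProjection (hE E0)) ∈ K :=
        K.neg_mem (Submodule.starProjection_apply_mem _ _)
      have hmem' : -(K.starProjection (hE E0)) ∈ closure (U : Set (HH n)) := hmem
      obtain ⟨k, hkU, hkd⟩ := Metric.mem_closure_iff.1 hmem' (Real.sqrt (e / C))
        (Real.sqrt_pos.2 (by positivity))
      obtain ⟨u, hu, hku⟩ := hkU
      refine ⟨u, hu, ?_⟩
      -- `w - hE E0 - k`
      have hrep : Rep (w - hE E0 - k) (fun x => Wf x - tens B1 B2 A x *ᵥ E0 -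
          tens B1 B2 A x *ᵥ grad u x) := (hwr.sub (hER E0)).sub hku
      have heq : w - hE E0 - k = -(K.starProjection (hE E0)) - k := by
        rw [hw]
        simp only [hW]
        abel
      have hnorm : ‖w - hE E0 - k‖ ^ 2 < e / C := by
        rw [heq, ← dist_eq_norm]
        calc dist (-(K.starProjection (hE E0))) k ^ 2 < Real.sqrt (e / C) ^ 2 :=
              pow_lt_pow_left₀ hkd dist_nonneg (by norm_num)
          _ = e / C := Real.sq_sqrt (by positivity)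
      have hin := inner_rep hrep hrep
      rw [real_inner_self_eq_norm_sq] at hin
      rw [← integral_finsetSum]
      · have hle : ∫ x in cell, ∑ p, ((tens B1⁻¹ B2⁻¹ A x *ᵥ Wf x) p - E0 p - grad u x p) ^ 2 ≤
            ∫ x in cell, C * ((Wf x - tens B1 B2 A x *ᵥ E0 - tens B1 B2 A x *ᵥ grad u x) ⬝ᵥ
              (Wf x - tens B1 B2 A x *ᵥ E0 - tens B1 B2 A x *ᵥ grad u x)) := by
          refine integral_mono_of_nonneg (Filter.Eventually.of_forall fun x =>
            Finset.sum_nonneg fun p _ => sq_nonneg _) ?_ (Filter.Eventually.of_forall fun x => ?_)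
          · refine Integrable.const_mul ?_ C
            simp only [dotProduct]
            exact integrable_finsetSum _ fun p _ => (hrep.memLp p).integrable_mul (hrep.memLp p)
          · have hx : ∀ p, (tens B1⁻¹ B2⁻¹ A x *ᵥ Wf x) p - E0 p - grad u x p =
                (tens B1⁻¹ B2⁻¹ A x *ᵥ (Wf x - tens B1 B2 A x *ᵥ E0 -
                  tens B1 B2 A x *ᵥ grad u x)) p := by
              intro p
              rw [mulVec_sub, mulVec_sub, mulVec_mulVec, mulVec_mulVec, hCB, one_mulVec,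
                one_mulVec]
              rfl
            have := hCb A x (Wf x - tens B1 B2 A x *ᵥ E0 - tens B1 B2 A x *ᵥ grad u x)
            show ∑ p, ((tens B1⁻¹ B2⁻¹ A x *ᵥ Wf x) p - E0 p - grad u x p) ^ 2 ≤ _
            simp only [hx]
            refine this.trans (le_of_eq ?_)
            simp only [dotProduct, sq]
        refine lt_of_le_of_lt hle ?_
        rw [integral_const_mul, ← hin]
        calc C * ‖w - hE E0 - k‖ ^ 2 < C * (e / C) := mul_lt_mul_of_pos_left hnorm hC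
          _ = e := by field_simp
      · intro p _
        have m1 := tens_memLp B1⁻¹ B2⁻¹ A hA _ hwr.memLp p
        have m2 : MemLp (fun _ : Fin 2 → ℝ => E0 p) 2 (volume.restrict cell) := memLp_const _
        have m3 := cont_memLp (grad_cont hu p)
        exact ((m1.sub m2).sub m3).integrable_sq
    · intro u hu
      obtain ⟨k, hkU, hkr⟩ := hgrad u hu
      have h3 := inner_rep hwr hkr
      rw [hWo E0 k (hUK k hkU)] at h3
      rw [h3]
      refine integral_congr_ae (Filter.Eventually.of_forall fun x => ?_)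
      show (tens L1 L2 A x *ᵥ (tens B1⁻¹ B2⁻¹ A x *ᵥ Wf x)) ⬝ᵥ grad u x = _
      rw [hq, hBE]
    · intro p
      rw [hLsE, inner_rep (hc p) hwr]
      refine integral_congr_ae (Filter.Eventually.of_forall fun x => ?_)
      show (tens L1 L2 A x *ᵥ (tens B1⁻¹ B2⁻¹ A x *ᵥ Wf x)) p = _
      have h4 : (tens L1 L2 A x *ᵥ (tens B1⁻¹ B2⁻¹ A x *ᵥ Wf x)) p =
          (tens L1 L2 A x *ᵥ (tens B1⁻¹ B2⁻¹ A x *ᵥ Wf x)) ⬝ᵥ (Pi.single p (1 : ℝ) : Mt n) := by
        rw [dotProduct_single, mul_one]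
      rw [h4, hq, hBE, dotProduct_comm]
  · intro E0 u hu
    obtain ⟨k, hkU, hkr⟩ := hgrad u hu
    have hlhs : E0 ⬝ᵥ (Ls *ᵥ E0) = ‖W E0‖ ^ 2 := by
      have h5 : E0 ⬝ᵥ (Ls *ᵥ E0) = inner ℝ (hE E0) (W E0) := by
        simp only [dotProduct, hLsE, hhE]
        rw [sum_inner]
        simp only [inner_smul_left]
        simp
      have h6 : hE E0 = W E0 + K.starProjection (hE E0) := by
        simp only [hW]
        abel
      rw [h5]
      nth_rewrite 1 [h6]
      rw [inner_add_left, real_inner_comm, real_inner_self_eq_norm_sq,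
        real_inner_comm, hWo E0 _ (Submodule.starProjection_apply_mem _ _), add_zero]
    have hrhs : ∫ x in cell, (E0 + grad u x) ⬝ᵥ (tens L1 L2 A x *ᵥ (E0 + grad u x)) =
        ‖hE E0 + k‖ ^ 2 := by
      have hr := (hER E0).add hkr
      rw [← real_inner_self_eq_norm_sq, inner_rep hr hr]
      refine integral_congr_ae (Filter.Eventually.of_forall fun x => ?_)
      show (E0 + grad u x) ⬝ᵥ (tens L1 L2 A x *ᵥ (E0 + grad u x)) = _
      rw [dotProduct_comm, hq, mulVec_add]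
    rw [hlhs, hrhs]
    have h7 : hE E0 + k = W E0 + (K.starProjection (hE E0) + k) := by
      simp only [hW]
      abel
    have hmem : K.starProjection (hE E0) + k ∈ K :=
      K.add_mem (Submodule.starProjection_apply_mem _ _) (hUK k hkU)
    have h8 := hWo E0 _ hmem
    rw [h7, norm_add_sq_real, h8]
    nlinarith [sq_nonneg ‖K.starProjection (hE E0) + k‖]

end GClosure
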