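import Pool.Agent.TwoWell.QSide
import Pool.Agent.TwoWell.JH4
import Pool.Agent.TwoWell.JH1
import Pool.Agent.TwoWell.JH2
import Pool.Agent.TwoWell.JH3
set_option autoImplicit false
open MeasureTheory Matrix
namespace GClosure
open TwoWell

theorem volume_cell : volume cell = 1 := by
  unfold cell
  rw [volume_pi_pi]
  simp

theorem isCompact_cell : IsCompact cell := isCompact_univ_pi (fun _ => isCompact_Icc)

/-- the average field -/
noncomputable def E0v : Mt 12 := fun p => Fin.snoc (α := fun _ => ℝ) (F0m p.1) (if p.1 = 0 then 1 else 0) p.2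

theorem Fm_E0v : Fm E0v = F0m := by
  ext i j
  simp [Fm, E0v]

/-- the potential with a twelfth component equal to zero -/
noncomputable def uext (u : (Fin 2 → ℝ) → (Fin 11 → ℝ)) (x : Fin 2 → ℝ) : Fin 12 → ℝ :=
  Fin.snoc (α := fun _ => ℝ) (u x) 0

theorem uext_contDiff (u : (Fin 2 → ℝ) → (Fin 11 → ℝ))
    (hu : ContDiff ℝ ((⊤ : ℕ∞) : WithTop ℕ∞) u) :
    ContDiff ℝ ((⊤ : ℕ∞) : WithTop ℕ∞) (uext u) := by
  rw [contDiff_pi] at hu ⊢
  intro j
  refine Fin.lastCases ?_ (fun i => ?_) j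
  · simp only [uext, Fin.snoc_last]; exact contDiff_const
  · simp only [uext, Fin.snoc_castSucc]; exact hu i

theorem grad_uext (u : (Fin 2 → ℝ) → (Fin 11 → ℝ))
    (hu : ContDiff ℝ ((⊤ : ℕ∞) : WithTop ℕ∞) u) (x : Fin 2 → ℝ) (i : Fin 2) :
    (∀ j : Fin 11, grad (uext u) x (i, Fin.castSucc j) = fderiv ℝ u x (Pi.single i (1 : ℝ)) j) ∧
    grad (uext u) x (i, Fin.last 11) = 0 := by
  have hd : Differentiable ℝ u := hu.differentiable (by norm_num)
  have hd' : Differentiable ℝ (uext u) := (uext_contDiff u hu).differentiable (by norm_num)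
  constructor
  · intro j
    have h1 := (hasFDerivAt_pi'.1 (hd' x).hasFDerivAt) (Fin.castSucc j)
    have h2 := (hasFDerivAt_pi'.1 (hd x).hasFDerivAt) j
    have e : (fun y => uext u y (Fin.castSucc j)) = fun y => u y j := by
      funext y; simp [uext]
    rw [e] at h1
    have h3 := h1.unique h2
    have h4 := congrArg (fun (T : (Fin 2 → ℝ) →L[ℝ] ℝ) => T (Pi.single i (1 : ℝ))) h3
    simpa [grad] using h4
  · have h1 := (hasFDerivAt_pi'.1 (hd' x).hasFDerivAt) (Fin.last 11)
    have e : (fun y => uext u y (Fin.last 11)) = fun _ => (0 : ℝ) := by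
      funext y; exact Fin.snoc_last (α := fun _ => ℝ) _ _
    rw [e] at h1
    have h3 := h1.unique (hasFDerivAt_const (0 : ℝ) x)
    have h4 := congrArg (fun (T : (Fin 2 → ℝ) →L[ℝ] ℝ) => T (Pi.single i (1 : ℝ))) h3
    simpa [grad] using h4

theorem Fm_line (E : Mt 12) (a : Fin 2 → ℝ) (b : Fin 12 → ℝ) (t : ℝ) :
    Fm (E + t • fun p : Ix 12 => a p.1 * b p.2) =
      Fm E + t • Matrix.vecMulVec a (fun j : Fin 11 => b (Fin.castSucc j)) := by
  ext i j
  simp [Fm, Matrix.vecMulVec_apply]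

theorem two_phase_gap : ∃ (f : ℝ) (L1 L2 : Tens 12), 0 ≤ f ∧ f ≤ 1 ∧ L1.PosDef ∧ L2.PosDef ∧
    ∃ Ls ∈ Gf f L1 L2, Ls ∉ GLf f L1 L2 := by
  classical
  obtain ⟨KA, KB, hKA, hKB, hconv⟩ := GG_convexOn
  obtain ⟨k, K, hk, hK, hle⟩ := GG_le KA KB
  obtain ⟨L1, sym1, pd1, eq1⟩ := exists_well k K hk hK 1 (Or.inl rfl)
  obtain ⟨L2, sym2, pd2, eq2⟩ := exists_well k K hk hK (-1) (Or.inr rfl)
  obtain ⟨u, hu, hper, hint⟩ := Qside k K hk hK
  let g : Matrix (Fin 2) (Fin 11) ℝ → ℝ := fun H => GG KA KB (pp H) (ss H)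
  have hg1 : ∀ H, g H ≤ Matrix.trace ((H - (1 : ℝ) • Fst) * (L1 (H - (1 : ℝ) • Fst))ᵀ) + 1 / 100 := by
    intro H; rw [eq1 H]; exact hle 1 (Or.inl rfl) _ _
  have hg2 : ∀ H, g H ≤ Matrix.trace ((H - (-1 : ℝ) • Fst) * (L2 (H - (-1 : ℝ) • Fst))ᵀ) + 1 / 100 := by
    intro H; rw [eq2 H]; exact hle (-1) (Or.inr rfl) _ _
  obtain ⟨N1, hN1, q1⟩ := quad_lower L1 sym1 pd1 ((1 : ℝ) • Fst) g hg1
  obtain ⟨N2, hN2, q2⟩ := quad_lower L2 sym2 pd2 ((-1 : ℝ) • Fst) g hg2
  let N : ℝ := max N1 N2 + 1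
  have hN : 0 < N := by
    have := le_max_left N1 N2
    simp only [N]; linarith
  have hNN1 : N1 ≤ N := by
    have := le_max_left N1 N2
    simp only [N]; linarith
  have hNN2 : N2 ≤ N := by
    have := le_max_right N1 N2
    simp only [N]; linarith
  obtain ⟨M1, pM1, e1⟩ := exists_tensor L1 sym1 pd1 ((1 : ℝ) • Fst) N hN
  obtain ⟨M2, pM2, e2⟩ := exists_tensor L2 sym2 pd2 ((-1 : ℝ) • Fst) N hN
  -- the two energies along the test field
  let Fx : (Fin 2 → ℝ) → Matrix (Fin 2) (Fin 11) ℝ := fun x =>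
    F0m + Matrix.of (fun (i : Fin 2) (c : Fin 11) => fderiv ℝ u x (Pi.single i (1 : ℝ)) c)
  let W1 : (Fin 2 → ℝ) → ℝ := fun x => Wv k K 1 (pp (Fx x)) (ss (Fx x))
  let W2 : (Fin 2 → ℝ) → ℝ := fun x => Wv k K (-1) (pp (Fx x)) (ss (Fx x))
  have cF : Continuous Fx := by
    refine continuous_const.add (continuous_matrix ?_)
    intro i j
    have h1 : Continuous (fderiv ℝ u) := hu.continuous_fderiv (by norm_num)
    have h2 : Continuous (fun x => fderiv ℝ u x (Pi.single i (1 : ℝ))) := h1.clm_apply continuous_const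
    exact (continuous_apply j).comp h2
  have cTr : ∀ (L : Matrix (Fin 2) (Fin 11) ℝ →ₗ[ℝ] Matrix (Fin 2) (Fin 11) ℝ)
      (X : Matrix (Fin 2) (Fin 11) ℝ),
      Continuous (fun H => Matrix.trace ((H - X) * (L (H - X))ᵀ) + 1 / 100) := by
    intro L X
    have hL : Continuous L := L.continuous_of_finiteDimensional
    have h1 : Continuous (fun H : Matrix (Fin 2) (Fin 11) ℝ => H - X) := continuous_id.sub continuous_const
    have h2 : Continuous (fun H : Matrix (Fin 2) (Fin 11) ℝ => (L (H - X))ᵀ) := (hL.comp h1).matrix_transpose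
    exact ((h1.matrix_mul h2).matrix_trace).add continuous_const
  have cW1 : Continuous W1 := by
    have : W1 = fun x => Matrix.trace ((Fx x - (1 : ℝ) • Fst) * (L1 (Fx x - (1 : ℝ) • Fst))ᵀ) + 1 / 100 := by
      funext x; exact (eq1 (Fx x)).symm
    rw [this]; exact (cTr L1 _).comp cF
  have cW2 : Continuous W2 := by
    have : W2 = fun x => Matrix.trace ((Fx x - (-1 : ℝ) • Fst) * (L2 (Fx x - (-1 : ℝ) • Fst))ᵀ) + 1 / 100 := by
      funext x; exact (eq2 (Fx x)).symm
    rw [this]; exact (cTr L2 _).comp cF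
  let A : Set (Fin 2 → ℝ) := {x | W1 x ≤ W2 x}
  have hAm : MeasurableSet A := (isClosed_le cW1 cW2).measurableSet
  have hFper : ∀ (x : Fin 2 → ℝ) (z : Fin 2 → ℤ), Fx (x + fun i => (z i : ℝ)) = Fx x := by
    intro x z
    have h1 : fderiv ℝ u (x + fun i => (z i : ℝ)) = fderiv ℝ u x := by
      have h2 : (fun y => u (y + fun i => (z i : ℝ))) = u := funext fun y => hper y z
      have h3 := fderiv_comp_add_right (𝕜 := ℝ) (f := u) (x := x) (fun i => (z i : ℝ))
      rw [h2] at h3
      exact h3.symm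
    simp only [Fx, h1]
  have hA : IsMicro A := by
    refine ⟨hAm, fun x z => ?_⟩
    simp only [A, Set.mem_setOf_eq, W1, W2, hFper x z]
  obtain ⟨Ls, hLs, hmin⟩ := exists_eff M1 M2 pM1 pM2 A hAm
  have hvol : volume (A ∩ cell) ≤ 1 := by
    calc volume (A ∩ cell) ≤ volume cell := measure_mono Set.inter_subset_right
      _ = 1 := volume_cell
  have hfin : volume (A ∩ cell) ≠ ⊤ := ne_top_of_le_ne_top ENNReal.one_ne_top hvol
  refine ⟨(volume (A ∩ cell)).toReal, M1, M2, ENNReal.toReal_nonneg, ?_, pM1, pM2, Ls, ?_, ?_⟩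
  · exact ENNReal.toReal_le_of_le_ofReal zero_le_one (by simpa using hvol)
  · exact subset_closure ⟨A, hA, (ENNReal.ofReal_toReal hfin).symm, hLs⟩
  · intro hmem
    -- lower bound for laminates
    let gh : Mt 12 → ℝ := fun E => (19 / 20) * (g (Fm E) - 1 / 100) + N * (2 * E (0, Fin.last 11) - 1)
    have hgh : ∀ (E : Mt 12) (a : Fin 2 → ℝ) (b : Fin 12 → ℝ),
        ConvexOn ℝ Set.univ (fun t : ℝ => gh (E + t • fun p : Ix 12 => a p.1 * b p.2)) := by
      intro E a b
      have h := hconv (pp (Fm E)) (ss (Fm E)) _ _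
        (JM1b.R1_vecMulVec a (fun j : Fin 11 => b (Fin.castSucc j)))
      have e : ∀ t : ℝ, gh (E + t • fun p : Ix 12 => a p.1 * b p.2) =
          (19 / 20 : ℝ) * GG KA KB (pp (Fm E) + t • pp (Matrix.vecMulVec a (fun j : Fin 11 => b (Fin.castSucc j))))
            (ss (Fm E) + t • ss (Matrix.vecMulVec a (fun j : Fin 11 => b (Fin.castSucc j)))) +
          ((-(19 / 20) * (1 / 100) + N * (2 * E (0, Fin.last 11) - 1)) + t * (N * 2 * (a 0 * b (Fin.last 11)))) := by
        intro t
        have e1 : (E + t • fun p : Ix 12 => a p.1 * b p.2) (0, Fin.last 11) =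
            E (0, Fin.last 11) + t * (a 0 * b (Fin.last 11)) := rfl
        show (19 / 20 : ℝ) * (GG KA KB (pp (Fm (E + t • fun p : Ix 12 => a p.1 * b p.2)))
          (ss (Fm (E + t • fun p : Ix 12 => a p.1 * b p.2))) - 1 / 100) +
          N * (2 * (E + t • fun p : Ix 12 => a p.1 * b p.2) (0, Fin.last 11) - 1) = _
        rw [Fm_line, pp_add_smul, ss_add_smul, e1]
        ring
      have haff : ConvexOn ℝ Set.univ (fun t : ℝ =>
          (-(19 / 20) * (1 / 100) + N * (2 * E (0, Fin.last 11) - 1)) + t * (N * 2 * (a 0 * b (Fin.last 11)))) := by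
        refine ⟨convex_univ, fun x _ y _ c d _ _ hcd => le_of_eq ?_⟩
        simp only [smul_eq_mul]
        have : d = 1 - c := by linarith
        subst this
        ring
      have hsum := (h.smul (by norm_num : (0 : ℝ) ≤ 19 / 20)).add haff
      refine hsum.congr ?_
      intro t _
      exact (e t).symm
    have hlow := lam_lower M1 M2 gh hgh
      (fun E => by rw [e1 E]; exact q1 N hNN1 E)
      (fun E => by rw [e2 E]; exact q2 N hNN2 E) _ Ls hmem E0v
    -- value of the lower bound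
    have hE0last : E0v (0, Fin.last 11) = 1 := by
      have : E0v (0, Fin.last 11) = (if (0 : Fin 2) = 0 then (1 : ℝ) else 0) :=
        Fin.snoc_last (α := fun _ => ℝ) _ _
      rw [this]; simp
    have hE1last : E0v (1, Fin.last 11) = 0 := by
      have : E0v (1, Fin.last 11) = (if (1 : Fin 2) = 0 then (1 : ℝ) else 0) :=
        Fin.snoc_last (α := fun _ => ℝ) _ _
      rw [this]; simp
    have hval : (19 / 20) * (208 / 243 - 1 / 100) + N ≤ gh E0v := by
      have h1 : 208 / 243 ≤ g (Fm E0v) := by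
        simp only [g]
        rw [Fm_E0v, pp_F0m, ss_F0m]
        exact JR11.GG_val KA KB
      simp only [gh]
      rw [hE0last]
      linarith
    -- the upper bound
    have hup := hmin E0v (uext u) ⟨uext_contDiff u hu, fun x z => by
      simp only [uext, hper x z]⟩
    have hFmx : ∀ x, Fm (E0v + grad (uext u) x) = Fx x := by
      intro x
      ext i j
      have h1 := (grad_uext u hu x i).1 j
      simp only [Fm, Matrix.of_apply, Pi.add_apply, Fx, Matrix.add_apply, h1]
      congr 1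
      simp [E0v]
    have hlast0 : ∀ x, (E0v + grad (uext u) x) (0, Fin.last 11) = 1 := by
      intro x; rw [Pi.add_apply, (grad_uext u hu x 0).2, hE0last]; ring
    have hlast1 : ∀ x, (E0v + grad (uext u) x) (1, Fin.last 11) = 0 := by
      intro x; rw [Pi.add_apply, (grad_uext u hu x 1).2, hE1last]; ring
    have hpt : ∀ x, (E0v + grad (uext u) x) ⬝ᵥ (tens M1 M2 A x *ᵥ (E0v + grad (uext u) x)) =
        min (W1 x) (W2 x) + (N - 1 / 100) := by
      intro x
      by_cases hx : x ∈ A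
      · have : tens M1 M2 A x = M1 := by simp [tens, hx]
        rw [this, e1, hFmx, hlast0, hlast1, min_eq_left hx]
        have h2 := eq1 (Fx x)
        simp only [W1, one_smul] at h2 ⊢
        linarith
      · have : tens M1 M2 A x = M2 := by simp [tens, hx]
        rw [this, e2, hFmx, hlast0, hlast1, min_eq_right (not_le.1 hx).le]
        have h2 := eq2 (Fx x)
        simp only [W2, one_smul] at h2 ⊢
        linarith
    have hI : ∫ x in cell, (E0v + grad (uext u) x) ⬝ᵥ (tens M1 M2 A x *ᵥ (E0v + grad (uext u) x)) ≤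
        4 / 5 + (N - 1 / 100) := by
      rw [integral_congr_ae (Filter.Eventually.of_forall hpt)]
      rw [integral_add ((cW1.min cW2).continuousOn.integrableOn_compact isCompact_cell)
        ((continuous_const (y := N - 1 / 100)).continuousOn.integrableOn_compact isCompact_cell)]
      have h1 : ∫ x in cell, min (W1 x) (W2 x) ≤ 4 / 5 := hint
      have h2 : ∫ _x in cell, (N - 1 / 100) = N - 1 / 100 := by
        rw [setIntegral_const]
        simp [Measure.real, volume_cell]
      rw [h2]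
      linarith
    have := hval.trans (hlow.trans (hup.trans hI))
    norm_num at this
    linarith

end GClosure
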