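import Pool.Agent.TwoWell.GDefs
set_option autoImplicit false
open MeasureTheory Matrix
namespace GClosure

--@ target
theorem cell_eq849 : cell = Set.Icc (0 : Fin 2 → ℝ) 1 := by
  unfold cell
  rw [← Set.pi_univ_Icc]
  rfl

theorem cell_vol849 : volume cell = 1 := by
  unfold cell
  rw [volume_pi_pi]
  simp

theorem grad_cont849 {n : ℕ} (u : (Fin 2 → ℝ) → (Fin n → ℝ)) (hu : IsPot u) (p : Ix n) :
    Continuous (fun x => grad u x p) := by
  unfold grad
  have h1 : Continuous (fderiv ℝ u) := hu.1.continuous_fderiv (by simp)
  exact (continuous_apply p.2).comp (h1.clm_apply continuous_const)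

theorem int_grad849 {n : ℕ} (u : (Fin 2 → ℝ) → (Fin n → ℝ)) (hu : IsPot u) (p : Ix n) :
    ∫ x in cell, grad u x p = 0 := by
  have hd : ∀ x, HasFDerivAt (fun x => u x p.2)
      ((ContinuousLinearMap.proj p.2 : (Fin n → ℝ) →L[ℝ] ℝ).comp (fderiv ℝ u x)) x := by
    intro x
    have h1 : DifferentiableAt ℝ u x := (hu.1.differentiable (by simp)) x
    exact (ContinuousLinearMap.proj p.2 : (Fin n → ℝ) →L[ℝ] ℝ).hasFDerivAt.comp x h1.hasFDerivAt
  have hc : Continuous (fun x => u x p.2) := (continuous_apply p.2).comp hu.1.continuous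
  have hsum : ∀ x, (∑ i : Fin 2, (if i = p.1 then
      ((ContinuousLinearMap.proj p.2 : (Fin n → ℝ) →L[ℝ] ℝ).comp (fderiv ℝ u x)) else 0)
        (Pi.single i 1)) = grad u x p := by
    intro x
    rw [Finset.sum_eq_single p.1]
    · simp [grad]
    · intro b _ hb
      simp [hb]
    · intro h
      exact absurd (Finset.mem_univ _) h
  have key := integral_divergence_of_hasFDerivAt_off_countable' (n := 1) (0 : Fin 2 → ℝ) 1
    (fun i => by simp) (fun i x => if i = p.1 then u x p.2 else 0)
    (fun i x => if i = p.1 then
      ((ContinuousLinearMap.proj p.2 : (Fin n → ℝ) →L[ℝ] ℝ).comp (fderiv ℝ u x)) else 0)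
    ∅ Set.countable_empty (by
      intro i
      by_cases h : i = p.1
      · simp only [h, if_true]
        exact hc.continuousOn
      · simp only [h, if_false]
        exact continuousOn_const) (by
      intro x _ i
      by_cases h : i = p.1
      · simp only [h, if_true]
        exact hd x
      · simp only [h, if_false]
        exact hasFDerivAt_const _ _) (by
      simp only [hsum]
      exact (grad_cont849 u hu p).continuousOn.integrableOn_Icc)
  simp only [hsum] at key
  rw [cell_eq849, key]
  refine Finset.sum_eq_zero fun i _ => ?_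
  rw [sub_eq_zero]
  congr 1
  funext x
  by_cases h : i = p.1
  · simp only [h, if_true]
    have h2 := hu.2 (i.insertNth ((0 : Fin 2 → ℝ) i) x) (fun k => if k = i then 1 else 0)
    have h3 : (i.insertNth ((0 : Fin 2 → ℝ) i) x : Fin 2 → ℝ) +
        (fun k => (((if k = i then 1 else 0 : ℤ)) : ℝ)) =
        (i.insertNth ((1 : Fin 2 → ℝ) i) x : Fin 2 → ℝ) := by
      funext k
      rcases Fin.eq_self_or_eq_succAbove i k with rfl | ⟨l, rfl⟩
      · simp
      · simp [Fin.succAbove_ne]
    rw [h3] at h2
    rw [← h]
    exact congrFun h2 p.2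
  · simp only [h, if_false]

theorem mean_field {n : ℕ} (E0 : Mt n) (E : (Fin 2 → ℝ) → Mt n) (h : IsField E0 E) (p : Ix n) :
    ∫ x in cell, E x p = E0 p := by
  haveI : IsProbabilityMeasure (volume.restrict cell) :=
    ⟨by rw [Measure.restrict_apply_univ, cell_vol849]⟩
  have hcellm : MeasurableSet cell := by rw [cell_eq849]; exact measurableSet_Icc
  have hcellc : IsCompact cell := by rw [cell_eq849]; exact isCompact_Icc
  have hEm := h.1
  have hsq : ∀ e : ℝ, 0 < e → ((∫ x in cell, E x p) - E0 p) ^ 2 < e := by
    intro e he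
    obtain ⟨u, hu, hlt⟩ := h.2 e he
    have hg2 : ∀ q, MemLp (fun x => grad u x q) 2 (volume.restrict cell) := by
      intro q
      obtain ⟨C, hC⟩ := hcellc.exists_bound_of_continuousOn (grad_cont849 u hu q).continuousOn
      refine MemLp.of_bound (grad_cont849 u hu q).aestronglyMeasurable C ?_
      exact (ae_restrict_iff' hcellm).mpr (Filter.Eventually.of_forall hC)
    have hh2 : ∀ q, MemLp (fun x => E x q - E0 q - grad u x q) 2 (volume.restrict cell) := by
      intro q
      exact ((hEm q).sub (memLp_const _)).sub (hg2 q)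
    have hh1 : Integrable (fun x => E x p - E0 p - grad u x p) (volume.restrict cell) :=
      (hh2 p).integrable (by norm_num)
    have hhs : Integrable (fun x => (E x p - E0 p - grad u x p) ^ 2) (volume.restrict cell) :=
      (hh2 p).integrable_sq
    have hEi : Integrable (fun x => E x p) (volume.restrict cell) :=
      (hEm p).integrable (by norm_num)
    have hgi : Integrable (fun x => grad u x p) (volume.restrict cell) :=
      (hg2 p).integrable (by norm_num)
    have hmean : ∫ x in cell, (E x p - E0 p - grad u x p) = (∫ x in cell, E x p) - E0 p := by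
      have i1 : Integrable (fun x => E x p - E0 p) (volume.restrict cell) :=
        hEi.sub (integrable_const _)
      rw [integral_sub i1 hgi, integral_sub hEi (integrable_const _),
        int_grad849 u hu p, integral_const]
      simp
    obtain ⟨m, hm⟩ : ∃ m : ℝ, m = (∫ x in cell, E x p) - E0 p := ⟨_, rfl⟩
    have hnn : 0 ≤ ∫ x in cell, ((E x p - E0 p - grad u x p) - m) ^ 2 :=
      integral_nonneg fun x => sq_nonneg _
    have hexp : ∫ x in cell, ((E x p - E0 p - grad u x p) - m) ^ 2 =
        (∫ x in cell, (E x p - E0 p - grad u x p) ^ 2) - m ^ 2 := by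
      have h1 : ∀ x, ((E x p - E0 p - grad u x p) - m) ^ 2 =
          (E x p - E0 p - grad u x p) ^ 2 - (2 * m) * (E x p - E0 p - grad u x p) + m ^ 2 := by
        intro x
        ring
      simp only [h1]
      have i1 : Integrable (fun x => (E x p - E0 p - grad u x p) ^ 2 -
          (2 * m) * (E x p - E0 p - grad u x p)) (volume.restrict cell) :=
        hhs.sub (hh1.const_mul _)
      rw [integral_add i1 (integrable_const _),
        integral_sub hhs (hh1.const_mul _), integral_const_mul, hmean, ← hm, integral_const]
      simp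
      ring
    have hle : ∫ x in cell, (E x p - E0 p - grad u x p) ^ 2 ≤
        ∑ q, ∫ x in cell, (E x q - E0 q - grad u x q) ^ 2 :=
      Finset.single_le_sum (f := fun q => ∫ x in cell, (E x q - E0 q - grad u x q) ^ 2)
        (fun q _ => integral_nonneg fun x => sq_nonneg _) (Finset.mem_univ p)
    rw [← hm]
    linarith
  have hz : ((∫ x in cell, E x p) - E0 p) ^ 2 = 0 := by
    refine le_antisymm ?_ (sq_nonneg _)
    exact le_of_forall_pos_le_add fun e he => by
      have := hsq e he
      linarith
  have := pow_eq_zero_iff (two_ne_zero) |>.mp hz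
  linarith

end GClosure
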