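import Pool.Agent.TwoWell.Defs2
set_option autoImplicit false
open Set
namespace TwoWell.JM1b

open Matrix MeasureTheory
theorem R1_vecMulVec (a : Fin 2 → ℝ) (b : Fin 11 → ℝ) :
    R1 (pp (vecMulVec a b)) (ss (vecMulVec a b)) := by
  intro c d hcd
  have hD : ∀ c d : Fin 11, c ≠ d → nx c * ny d - ny c * nx d ≠ 0 := by decide
  have hN : ∀ c : Fin 11, nx c ^ 2 + ny c ^ 2 ≠ 0 := by decide
  have h1 : ((nx c : ℝ)) * ny d - ny c * nx d ≠ 0 := by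
    have := hD c d hcd
    exact_mod_cast this
  have h2 : ((nx c : ℝ)) ^ 2 + (ny c : ℝ) ^ 2 ≠ 0 := by
    have := hN c
    exact_mod_cast this
  have h3 : ((nx d : ℝ)) ^ 2 + (ny d : ℝ) ^ 2 ≠ 0 := by
    have := hN d
    exact_mod_cast this
  unfold pp ss cc dd nn
  simp only [vecMulVec_apply]
  generalize ((nx c : ℤ) : ℝ) = x1 at *
  generalize ((ny c : ℤ) : ℝ) = y1 at *
  generalize ((nx d : ℤ) : ℝ) = x2 at *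
  generalize ((ny d : ℤ) : ℝ) = y2 at *
  have key : (a 0 * x1 + a 1 * y1) * (a 0 * x2 + a 1 * y2) +
      (-(a 0 * y1) + a 1 * x1) * (-(a 0 * y2) + a 1 * x2) =
      (a 0 ^ 2 + a 1 ^ 2) * (x1 * x2 + y1 * y2) := by ring
  have key2 : (a 0 * x1 + a 1 * y1) * (-(a 0 * y2) + a 1 * x2) -
      (-(a 0 * y1) + a 1 * x1) * (a 0 * x2 + a 1 * y2) =
      -((a 0 ^ 2 + a 1 ^ 2) * (x1 * y2 - y1 * x2)) := by ring
  have e1 : (a 0 * b c * x1 + a 1 * b c * y1) / (x1 ^ 2 + y1 ^ 2) *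
      ((a 0 * b d * x2 + a 1 * b d * y2) / (x2 ^ 2 + y2 ^ 2)) +
      (-(a 0 * b c * y1) + a 1 * b c * x1) / (x1 ^ 2 + y1 ^ 2) *
      ((-(a 0 * b d * y2) + a 1 * b d * x2) / (x2 ^ 2 + y2 ^ 2)) =
      b c * b d / ((x1 ^ 2 + y1 ^ 2) * (x2 ^ 2 + y2 ^ 2)) *
        ((a 0 ^ 2 + a 1 ^ 2) * (x1 * x2 + y1 * y2)) := by
    rw [← key]
    field_simp
  have e2 : (a 0 * b c * x1 + a 1 * b c * y1) / (x1 ^ 2 + y1 ^ 2) *
      ((-(a 0 * b d * y2) + a 1 * b d * x2) / (x2 ^ 2 + y2 ^ 2)) -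
      (-(a 0 * b c * y1) + a 1 * b c * x1) / (x1 ^ 2 + y1 ^ 2) *
      ((a 0 * b d * x2 + a 1 * b d * y2) / (x2 ^ 2 + y2 ^ 2)) =
      b c * b d / ((x1 ^ 2 + y1 ^ 2) * (x2 ^ 2 + y2 ^ 2)) *
        (-((a 0 ^ 2 + a 1 ^ 2) * (x1 * y2 - y1 * x2))) := by
    rw [← key2]
    field_simp
  rw [e1, e2]
  have e3 : (x1 * x2 + y1 * y2) / (x1 * y2 - y1 * x2) *
      (b c * b d / ((x1 ^ 2 + y1 ^ 2) * (x2 ^ 2 + y2 ^ 2)) *
        (-((a 0 ^ 2 + a 1 ^ 2) * (x1 * y2 - y1 * x2)))) =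
      -(b c * b d / ((x1 ^ 2 + y1 ^ 2) * (x2 ^ 2 + y2 ^ 2)) *
        ((a 0 ^ 2 + a 1 ^ 2) * (x1 * x2 + y1 * y2))) := by
    have : (x1 * x2 + y1 * y2) / (x1 * y2 - y1 * x2) * (x1 * y2 - y1 * x2) =
        x1 * x2 + y1 * y2 := div_mul_cancel₀ _ h1
    linear_combination (-(b c * b d / ((x1 ^ 2 + y1 ^ 2) * (x2 ^ 2 + y2 ^ 2)) *
        (a 0 ^ 2 + a 1 ^ 2))) * this
  rw [e3]
  ring


end TwoWell.JM1b
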