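import Pool.Agent.TwoWell.Defs2
set_option autoImplicit false
open Set
namespace TwoWell.JM3

open Matrix MeasureTheory
theorem h170_tr {m : ℕ} (A B : Matrix (Fin 2) (Fin m) ℝ) :
    Matrix.trace (A * Bᵀ) = ∑ i, ∑ c, A i c * B i c := by
  simp [Matrix.trace, Matrix.mul_apply]

theorem h170_tr_comm {m : ℕ} (A B : Matrix (Fin 2) (Fin m) ℝ) :
    Matrix.trace (A * Bᵀ) = Matrix.trace (B * Aᵀ) := by
  rw [h170_tr, h170_tr]
  exact Finset.sum_congr rfl fun i _ => Finset.sum_congr rfl fun c _ => mul_comm _ _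

theorem h170_rep {m : ℕ} (l : Matrix (Fin 2) (Fin m) ℝ →ₗ[ℝ] ℝ) (A : Matrix (Fin 2) (Fin m) ℝ) :
    Matrix.trace (A * (Matrix.of fun i c => l (Matrix.single i c 1))ᵀ) = l A := by
  rw [h170_tr]
  conv_rhs => rw [Matrix.matrix_eq_sum_single A]
  rw [map_sum]
  refine Finset.sum_congr rfl fun i _ => ?_
  rw [map_sum]
  refine Finset.sum_congr rfl fun c _ => ?_
  have h : Matrix.single i c (A i c) = (A i c) • Matrix.single i c (1 : ℝ) := by
    rw [Matrix.smul_single, smul_eq_mul, mul_one]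
  rw [h, map_smul, smul_eq_mul, Matrix.of_apply]

theorem exists_quadratic_map {m : ℕ} {ι : Type} [Fintype ι] (w : ι → ℝ) (hw : ∀ a, 0 ≤ w a)
    (l : ι → (Matrix (Fin 2) (Fin m) ℝ →ₗ[ℝ] ℝ))
    (hinj : ∀ A : Matrix (Fin 2) (Fin m) ℝ, ∑ a, w a * l a A ^ 2 = 0 → A = 0) :
    ∃ L : Matrix (Fin 2) (Fin m) ℝ →ₗ[ℝ] Matrix (Fin 2) (Fin m) ℝ,
      (∀ A B : Matrix (Fin 2) (Fin m) ℝ, Matrix.trace (A * (L B)ᵀ) = Matrix.trace (L A * Bᵀ)) ∧
      (∀ A : Matrix (Fin 2) (Fin m) ℝ, A ≠ 0 → 0 < Matrix.trace (A * (L A)ᵀ)) ∧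
      ∀ A : Matrix (Fin 2) (Fin m) ℝ, Matrix.trace (A * (L A)ᵀ) = ∑ a, w a * l a A ^ 2 := by
  set R : ι → Matrix (Fin 2) (Fin m) ℝ := fun a => Matrix.of fun i c => l a (Matrix.single i c 1) with hR
  set L : Matrix (Fin 2) (Fin m) ℝ →ₗ[ℝ] Matrix (Fin 2) (Fin m) ℝ := ∑ a, w a • (l a).smulRight (R a) with hL
  have hLa : ∀ B, L B = ∑ a, (w a * l a B) • R a := by
    intro B
    rw [hL, LinearMap.sum_apply]
    refine Finset.sum_congr rfl fun a _ => ?_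
    rw [LinearMap.smul_apply, LinearMap.smulRight_apply, smul_smul]
  have key : ∀ A B : Matrix (Fin 2) (Fin m) ℝ, Matrix.trace (A * (L B)ᵀ) = ∑ a, w a * l a B * l a A := by
    intro A B
    rw [hLa, Matrix.transpose_sum, Matrix.mul_sum, Matrix.trace_sum]
    refine Finset.sum_congr rfl fun a _ => ?_
    rw [Matrix.transpose_smul, Matrix.mul_smul, Matrix.trace_smul, smul_eq_mul, hR]
    simp only
    rw [h170_rep]
  have hq : ∀ A : Matrix (Fin 2) (Fin m) ℝ, Matrix.trace (A * (L A)ᵀ) = ∑ a, w a * l a A ^ 2 := by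
    intro A
    rw [key]
    exact Finset.sum_congr rfl fun a _ => by ring
  refine ⟨L, fun A B => ?_, fun A hA => ?_, hq⟩
  · rw [h170_tr_comm (L A) B, key, key]
    exact Finset.sum_congr rfl fun a _ => by ring
  · rw [hq]
    refine lt_of_le_of_ne (Finset.sum_nonneg fun a _ => mul_nonneg (hw a) (sq_nonneg _)) ?_
    intro h
    exact hA (hinj A h.symm)


end TwoWell.JM3
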