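import Pool.Agent.TwoWell.Defs2
set_option autoImplicit false
open Set
namespace TwoWell.JM4

open Matrix MeasureTheory


theorem wnn_ne (a : Fin 11) : nn a ≠ 0 := by
  unfold nn
  fin_cases a <;> norm_num [nx, ny]

/-- `pp` as a linear functional -/
noncomputable def ppL (a : Fin 11) : Matrix (Fin 2) (Fin 11) ℝ →ₗ[ℝ] ℝ where
  toFun F := pp F a
  map_add' A B := by
    unfold pp
    rw [Matrix.add_apply, Matrix.add_apply]
    ring
  map_smul' c A := by
    unfold pp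
    rw [Matrix.smul_apply, Matrix.smul_apply, smul_eq_mul, smul_eq_mul, RingHom.id_apply,
      smul_eq_mul]
    ring

/-- `ss` as a linear functional -/
noncomputable def ssL (a : Fin 11) : Matrix (Fin 2) (Fin 11) ℝ →ₗ[ℝ] ℝ where
  toFun F := ss F a
  map_add' A B := by
    unfold ss
    rw [Matrix.add_apply, Matrix.add_apply]
    ring
  map_smul' c A := by
    unfold ss
    rw [Matrix.smul_apply, Matrix.smul_apply, smul_eq_mul, smul_eq_mul, RingHom.id_apply,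
      smul_eq_mul]
    ring

theorem ppL_apply (a : Fin 11) (F : Matrix (Fin 2) (Fin 11) ℝ) : ppL a F = pp F a := rfl

theorem ssL_apply (a : Fin 11) (F : Matrix (Fin 2) (Fin 11) ℝ) : ssL a F = ss F a := rfl

theorem pp_Fst (a : Fin 11) : pp Fst a = pstar a := by
  have h0 : Fst 0 a = pstar a * nx a := rfl
  have h1 : Fst 1 a = pstar a * ny a := rfl
  have h2 := wnn_ne a
  unfold pp
  rw [h0, h1]
  unfold nn at *
  field_simp

theorem ss_Fst (a : Fin 11) : ss Fst a = 0 := by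
  have h0 : Fst 0 a = pstar a * nx a := rfl
  have h1 : Fst 1 a = pstar a * ny a := rfl
  unfold ss
  rw [h0, h1]
  have : -(pstar a * (nx a : ℝ) * ny a) + pstar a * ny a * nx a = 0 := by ring
  rw [this, zero_div]

theorem pp_shift (H : Matrix (Fin 2) (Fin 11) ℝ) (sg : ℝ) (a : Fin 11) :
    pp (H - sg • Fst) a = pp H a - sg * pstar a := by
  rw [← ppL_apply, map_sub, map_smul, ppL_apply, ppL_apply, pp_Fst, smul_eq_mul]

theorem ss_shift (H : Matrix (Fin 2) (Fin 11) ℝ) (sg : ℝ) (a : Fin 11) :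
    ss (H - sg • Fst) a = ss H a := by
  rw [← ssL_apply, map_sub, map_smul, ssL_apply, ssL_apply, ss_Fst, smul_zero, sub_zero]

theorem eq_zero_of_pp_ss (A : Matrix (Fin 2) (Fin 11) ℝ) (h1 : ∀ a, pp A a = 0)
    (h2 : ∀ a, ss A a = 0) : A = 0 := by
  have key : ∀ a, A 0 a = 0 ∧ A 1 a = 0 := by
    intro a
    have e1 := h1 a
    have e2 := h2 a
    have e3 := wnn_ne a
    unfold pp at e1
    unfold ss at e2
    rw [div_eq_zero_iff, or_iff_left e3] at e1 e2
    unfold nn at e3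
    constructor
    · apply mul_left_cancel₀ e3
      linear_combination (nx a : ℝ) * e1 - (ny a : ℝ) * e2
    · apply mul_left_cancel₀ e3
      linear_combination (ny a : ℝ) * e1 + (nx a : ℝ) * e2
  ext i a
  fin_cases i
  · exact (key a).1
  · exact (key a).2

/-- index type of the functionals -/
abbrev WI : Type := Fin 8 ⊕ (Unit ⊕ (Fin 3 ⊕ (Fin 11 ⊕ Fin 11)))

/-- weights -/
noncomputable def Ww (k K : ℝ) : WI → ℝ :=
  Sum.elim (fun j => 1 - kap j) (Sum.elim (fun _ => k) (Sum.elim (fun _ => k)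
    (Sum.elim (fun _ => 1 / 100) (fun _ => K + 1 / 100))))

/-- functionals -/
noncomputable def Wl (sg : ℝ) : WI → (Matrix (Fin 2) (Fin 11) ℝ →ₗ[ℝ] ℝ) :=
  Sum.elim (fun j => ppL (iz j)) (Sum.elim (fun _ => ∑ j, ppL (iz j))
    (Sum.elim (fun i => (∑ j, kk j i • ppL (iz j)) - sg • ppL (iM i))
      (Sum.elim (fun a => ppL a) (fun a => ssL a))))

theorem W_sum (k K sg : ℝ) (A : Matrix (Fin 2) (Fin 11) ℝ) :
    ∑ a, Ww k K a * Wl sg a A ^ 2 =
      (∑ j, (1 - kap j) * pp A (iz j) ^ 2) + (k * (Y0 (pp A)) ^ 2 +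
        ((∑ i, k * (Yv (pp A) i - sg * pp A (iM i)) ^ 2) +
          ((∑ a, 1 / 100 * pp A a ^ 2) + ∑ a, (K + 1 / 100) * ss A a ^ 2))) := by
  rw [Fintype.sum_sum_type, Fintype.sum_sum_type, Fintype.sum_sum_type, Fintype.sum_sum_type]
  unfold Ww Wl
  simp only [Sum.elim_inl, Sum.elim_inr, Finset.univ_unique, Finset.sum_singleton]
  have e1 : (∑ j, ppL (iz j)) A = Y0 (pp A) := by
    rw [LinearMap.sum_apply]
    rfl
  have e2 : ∀ i, ((∑ j, kk j i • ppL (iz j)) - sg • ppL (iM i)) A =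
      Yv (pp A) i - sg * pp A (iM i) := by
    intro i
    rw [LinearMap.sub_apply, LinearMap.sum_apply, LinearMap.smul_apply, smul_eq_mul, ppL_apply]
    rfl
  simp_rw [e1, e2, ppL_apply, ssL_apply]

theorem kap_le (j : Fin 8) : 0 ≤ 1 - kap j := by
  fin_cases j <;> simp [kap]

theorem kap_pstar (j : Fin 8) : (1 - kap j) * pstar (iz j) = 0 := by
  fin_cases j <;> simp [kap, pstar, iz]

theorem Y0_pstar : Y0 pstar = 1 := by
  unfold Y0
  simp [Fin.sum_univ_succ, pstar, iz]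
  norm_num

theorem Yv_pstar (i : Fin 3) : Yv pstar i = 0 := by
  unfold Yv
  fin_cases i <;> simp [Fin.sum_univ_succ, pstar, iz, kk]

theorem iM_pstar (i : Fin 3) : pstar (iM i) = 0 := by
  fin_cases i <;> simp [pstar, iM]

theorem exists_well
    (h3 : ∀ (ι : Type) [Fintype ι] (w : ι → ℝ), (∀ a, 0 ≤ w a) →
      ∀ (l : ι → (Matrix (Fin 2) (Fin 11) ℝ →ₗ[ℝ] ℝ)),
      (∀ A : Matrix (Fin 2) (Fin 11) ℝ, ∑ a, w a * l a A ^ 2 = 0 → A = 0) →
      ∃ L : Matrix (Fin 2) (Fin 11) ℝ →ₗ[ℝ] Matrix (Fin 2) (Fin 11) ℝ,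
      (∀ A B : Matrix (Fin 2) (Fin 11) ℝ, Matrix.trace (A * (L B)ᵀ) = Matrix.trace (L A * Bᵀ)) ∧
      (∀ A : Matrix (Fin 2) (Fin 11) ℝ, A ≠ 0 → 0 < Matrix.trace (A * (L A)ᵀ)) ∧
      ∀ A : Matrix (Fin 2) (Fin 11) ℝ, Matrix.trace (A * (L A)ᵀ) = ∑ a, w a * l a A ^ 2)
    (k K : ℝ) (hk : 0 ≤ k) (hK : 0 ≤ K) (sg : ℝ) (hsg : sg = 1 ∨ sg = -1) :
    ∃ L : Matrix (Fin 2) (Fin 11) ℝ →ₗ[ℝ] Matrix (Fin 2) (Fin 11) ℝ,
      (∀ A B : Matrix (Fin 2) (Fin 11) ℝ, Matrix.trace (A * (L B)ᵀ) = Matrix.trace (L A * Bᵀ)) ∧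
      (∀ A : Matrix (Fin 2) (Fin 11) ℝ, A ≠ 0 → 0 < Matrix.trace (A * (L A)ᵀ)) ∧
      ∀ H : Matrix (Fin 2) (Fin 11) ℝ,
        Matrix.trace ((H - sg • Fst) * (L (H - sg • Fst))ᵀ) + 1 / 100 = Wv k K sg (pp H) (ss H) := by
  obtain ⟨L, hL1, hL2, hL3⟩ := h3 WI (Ww k K) (by
    rintro (j | _ | i | a | a)
    · exact kap_le j
    · exact hk
    · exact hk
    · change (0 : ℝ) ≤ 1 / 100
      norm_num
    · change (0 : ℝ) ≤ K + 1 / 100
      linarith) (Wl sg) (by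
    intro A hA
    rw [W_sum] at hA
    have e1 : 0 ≤ ∑ j, (1 - kap j) * pp A (iz j) ^ 2 :=
      Finset.sum_nonneg fun j _ => mul_nonneg (kap_le j) (sq_nonneg _)
    have e2 : 0 ≤ k * (Y0 (pp A)) ^ 2 := mul_nonneg hk (sq_nonneg _)
    have e3 : 0 ≤ ∑ i, k * (Yv (pp A) i - sg * pp A (iM i)) ^ 2 :=
      Finset.sum_nonneg fun i _ => mul_nonneg hk (sq_nonneg _)
    have e4 : 0 ≤ ∑ a, 1 / 100 * pp A a ^ 2 :=
      Finset.sum_nonneg fun a _ => mul_nonneg (by norm_num) (sq_nonneg _)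
    have e5 : 0 ≤ ∑ a, (K + 1 / 100) * ss A a ^ 2 :=
      Finset.sum_nonneg fun a _ => mul_nonneg (by linarith) (sq_nonneg _)
    have e4' : ∑ a, 1 / 100 * pp A a ^ 2 = 0 := by linarith
    have e5' : ∑ a, (K + 1 / 100) * ss A a ^ 2 = 0 := by linarith
    rw [Finset.sum_eq_zero_iff_of_nonneg
      (fun a _ => mul_nonneg (by norm_num) (sq_nonneg _))] at e4'
    rw [Finset.sum_eq_zero_iff_of_nonneg
      (fun a _ => mul_nonneg (by linarith) (sq_nonneg _))] at e5'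
    apply eq_zero_of_pp_ss
    · intro a
      have := e4' a (Finset.mem_univ a)
      rcases mul_eq_zero.mp this with h | h
      · norm_num at h
      · exact pow_eq_zero_iff two_ne_zero |>.mp h
    · intro a
      have := e5' a (Finset.mem_univ a)
      rcases mul_eq_zero.mp this with h | h
      · linarith
      · exact pow_eq_zero_iff two_ne_zero |>.mp h)
  refine ⟨L, hL1, hL2, fun H => ?_⟩
  rw [hL3, W_sum]
  have f1 : ∑ j, (1 - kap j) * pp (H - sg • Fst) (iz j) ^ 2 = cst (pp H) := by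
    unfold cst
    refine Finset.sum_congr rfl fun j _ => ?_
    rw [pp_shift]
    have h0 := kap_pstar j
    linear_combination (-2 * sg * pp H (iz j) + sg ^ 2 * pstar (iz j)) * h0
  have f2 : Y0 (pp (H - sg • Fst)) = Y0 (pp H) - sg := by
    have h0 := Y0_pstar
    unfold Y0 at *
    simp_rw [pp_shift]
    rw [Finset.sum_sub_distrib, ← Finset.mul_sum, h0, mul_one]
  have f3 : ∀ i, Yv (pp (H - sg • Fst)) i - sg * pp (H - sg • Fst) (iM i) =
      Yv (pp H) i - sg * pp H (iM i) := by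
    intro i
    have h0 := Yv_pstar i
    have h1 := iM_pstar i
    unfold Yv at *
    simp_rw [pp_shift]
    rw [h1]
    have e : ∑ j, kk j i * (pp H (iz j) - sg * pstar (iz j)) =
        (∑ j, kk j i * pp H (iz j)) - sg * ∑ j, kk j i * pstar (iz j) := by
      rw [Finset.mul_sum, ← Finset.sum_sub_distrib]
      exact Finset.sum_congr rfl fun j _ => by ring
    rw [e, h0]
    ring
  have f4 : ∑ a, 1 / 100 * pp (H - sg • Fst) a ^ 2 =
      1 / 100 * nrm (fun a => pp H a - sg * pstar a) := by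
    unfold nrm
    rw [Finset.mul_sum]
    exact Finset.sum_congr rfl fun a _ => by rw [pp_shift]
  have f5 : ∑ a, (K + 1 / 100) * ss (H - sg • Fst) a ^ 2 = (K + 1 / 100) * nrm (ss H) := by
    unfold nrm
    rw [Finset.mul_sum]
    exact Finset.sum_congr rfl fun a _ => by rw [ss_shift]
  rw [f1, f2, f4, f5]
  simp_rw [f3]
  unfold Wv
  rw [← Finset.mul_sum]
  ring


end TwoWell.JM4
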