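import Pool.Agent.TwoWell.Defs2
set_option autoImplicit false
open Set
namespace TwoWell.JR10



lemma GB_le_aux1 (p : Fin 11 → ℝ) (a : Fin 11) : |p a| ≤ S1 p :=
  Finset.single_le_sum (f := fun a => |p a|) (fun _ _ => abs_nonneg _) (Finset.mem_univ a)

lemma GB_le_aux2 (p : Fin 11 → ℝ) : S1 p ^ 2 ≤ 11 * nrm p := by
  have h := sq_sum_le_card_mul_sum_sq (s := (Finset.univ : Finset (Fin 11))) (f := fun a => |p a|)
  simp only [Finset.card_univ, Fintype.card_fin, sq_abs] at h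
  exact_mod_cast h

lemma GB_le_aux3 (p : Fin 11 → ℝ) (sg : ℝ) (h : sg = 1 ∨ sg = -1) :
    nrm p ≤ 2 * nrm (fun a => p a - sg * pstar a) + 1 / 2 := by
  have hsg : sg ^ 2 = 1 := by rcases h with rfl | rfl <;> norm_num
  have h1 : nrm pstar = 1 / 4 := by
    simp only [nrm, pstar, Fin.sum_univ_succ]
    norm_num [Fin.succ]
  have h2 : nrm p ≤ ∑ a, (2 * (p a - sg * pstar a) ^ 2 + 2 * pstar a ^ 2) := by
    apply Finset.sum_le_sum
    intro a _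
    have : 2 * pstar a ^ 2 = 2 * (sg * pstar a) ^ 2 := by rw [mul_pow, hsg, one_mul]
    rw [this]
    nlinarith [sq_nonneg (p a - sg * pstar a - sg * pstar a)]
  rw [Finset.sum_add_distrib, ← Finset.mul_sum, ← Finset.mul_sum] at h2
  unfold nrm at h1 h2 ⊢
  linarith

lemma GB_le_aux4 (p : Fin 11 → ℝ) : 0 ≤ S1 p := Finset.sum_nonneg fun _ _ => abs_nonneg _

lemma GB_le_aux5 (p : Fin 11 → ℝ) : 0 ≤ nrm p := Finset.sum_nonneg fun _ _ => sq_nonneg _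

lemma GB_le_phi (C : ℝ) (hC : 0 ≤ C) (p s : Fin 11 → ℝ) (h7 : ∀ (i : Fin 3),
    |Ul p s i - (p (iM i) * Y0 p - Yv p i)| ≤ C * S1 s * (S1 p + S1 s) ∧
    |Nl p s i - (p (iM i) ^ 2 - 1 + Y0 p ^ 2 - Yv p i ^ 2)| ≤ C * S1 s * (S1 p + S1 s))
    (sg : ℝ) (hsg : sg = 1 ∨ sg = -1) (E Q : ℝ)
    (hE : E = |Y0 p - sg| + ∑ i, |Yv p i - sg * p (iM i)|)
    (hQ : Q = (Y0 p - sg) ^ 2 + ∑ i, (Yv p i - sg * p (iM i)) ^ 2) :
    Phi p s ≤ 620 * ((1 + S1 p) * E) + 609 * C * (S1 s * (S1 p + S1 s)) + 9 * Q := by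
  have hsg1 : |sg| = 1 := by rcases hsg with rfl | rfl <;> simp
  have hsg2 : sg ^ 2 = 1 := by rcases hsg with rfl | rfl <;> norm_num
  have hT : 0 ≤ C * S1 s * (S1 p + S1 s) := by
    have := GB_le_aux4 p
    have := GB_le_aux4 s
    positivity
  set T := C * S1 s * (S1 p + S1 s) with hTdef
  have hP := GB_le_aux4 p
  have hE0 : |Y0 p - sg| ≤ E := by
    rw [hE]
    have : 0 ≤ ∑ i, |Yv p i - sg * p (iM i)| := Finset.sum_nonneg fun _ _ => abs_nonneg _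
    linarith
  have hEi : ∀ i, |Yv p i - sg * p (iM i)| ≤ E := by
    intro i
    rw [hE]
    have h1 : |Yv p i - sg * p (iM i)| ≤ ∑ i, |Yv p i - sg * p (iM i)| :=
      Finset.single_le_sum (f := fun i => |Yv p i - sg * p (iM i)|)
        (fun _ _ => abs_nonneg _) (Finset.mem_univ i)
    have h2 := abs_nonneg (Y0 p - sg)
    linarith
  have hEnn : 0 ≤ E := (abs_nonneg _).trans hE0
  have hQi : ∀ i, (Y0 p - sg) ^ 2 + (Yv p i - sg * p (iM i)) ^ 2 ≤ Q := by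
    intro i
    rw [hQ]
    have h1 : (Yv p i - sg * p (iM i)) ^ 2 ≤ ∑ i, (Yv p i - sg * p (iM i)) ^ 2 :=
      Finset.single_le_sum (f := fun i => (Yv p i - sg * p (iM i)) ^ 2)
        (fun _ _ => sq_nonneg _) (Finset.mem_univ i)
    linarith
  have hU : ∀ i, |Ul p s i| ≤ (1 + S1 p) * E + T := by
    intro i
    have h1 := (h7 i).1
    have h2 : p (iM i) * Y0 p - Yv p i = p (iM i) * (Y0 p - sg) - (Yv p i - sg * p (iM i)) := by
      ring
    have h3 : |p (iM i) * Y0 p - Yv p i| ≤ S1 p * E + E := by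
      rw [h2]
      calc _ ≤ |p (iM i) * (Y0 p - sg)| + |Yv p i - sg * p (iM i)| := abs_sub _ _
        _ ≤ S1 p * E + E := by
          rw [abs_mul]
          exact add_le_add (mul_le_mul (GB_le_aux1 p _) hE0 (abs_nonneg _) hP) (hEi i)
    have h4 : |Ul p s i| ≤ |Ul p s i - (p (iM i) * Y0 p - Yv p i)| +
        |p (iM i) * Y0 p - Yv p i| := by
      have := abs_add_le (Ul p s i - (p (iM i) * Y0 p - Yv p i)) (p (iM i) * Y0 p - Yv p i)
      rwa [sub_add_cancel] at this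
    linarith
  have hN : ∀ i, Nl p s i ≤ 2 * ((1 + S1 p) * E) + Q + T := by
    intro i
    have h1 := (h7 i).2
    have h2 : p (iM i) ^ 2 - 1 + Y0 p ^ 2 - Yv p i ^ 2 =
        (Y0 p - sg) ^ 2 + 2 * (sg * (Y0 p - sg)) - (Yv p i - sg * p (iM i)) ^ 2 -
          2 * (sg * ((Yv p i - sg * p (iM i)) * p (iM i))) := by
      linear_combination (-(p (iM i) ^ 2) + 1) * hsg2
    have h3 : sg * (Y0 p - sg) ≤ E := by
      refine (le_abs_self _).trans ?_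
      rw [abs_mul, hsg1, one_mul]
      exact hE0
    have h4 : -(sg * ((Yv p i - sg * p (iM i)) * p (iM i))) ≤ E * S1 p := by
      refine (neg_le_abs _).trans ?_
      rw [abs_mul, hsg1, one_mul, abs_mul]
      exact mul_le_mul (hEi i) (GB_le_aux1 p _) (abs_nonneg _) hEnn
    have h5 := hQi i
    have h6 := le_abs_self (Nl p s i - (p (iM i) ^ 2 - 1 + Y0 p ^ 2 - Yv p i ^ 2))
    have h7 := sq_nonneg (Yv p i - sg * p (iM i))
    have h8 : Nl p s i ≤ T + (p (iM i) ^ 2 - 1 + Y0 p ^ 2 - Yv p i ^ 2) := by linarith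
    rw [h2] at h8
    nlinarith
  have hQnn : 0 ≤ Q := by
    have := hQi 0
    nlinarith [sq_nonneg (Y0 p - sg), sq_nonneg (Yv p 0 - sg * p (iM 0))]
  have hPE : 0 ≤ (1 + S1 p) * E := by positivity
  have hN2 : max 0 (max (Nl p s 0) (max (Nl p s 1) (Nl p s 2))) ≤
      2 * ((1 + S1 p) * E) + Q + T := by
    refine max_le (by positivity) (max_le (hN 0) (max_le (hN 1) (hN 2)))
  have hY : max 0 (|Y0 p| - 1) ≤ (1 + S1 p) * E := by
    refine max_le hPE ?_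
    have h1 : |Y0 p| ≤ |Y0 p - sg| + |sg| := by
      have := abs_add_le (Y0 p - sg) sg
      rwa [sub_add_cancel] at this
    rw [hsg1] at h1
    nlinarith [mul_nonneg hP hEnn]
  have hUs : ∑ i, |Ul p s i| ≤ 3 * ((1 + S1 p) * E + T) := by
    calc ∑ i, |Ul p s i| ≤ ∑ _i : Fin 3, ((1 + S1 p) * E + T) :=
          Finset.sum_le_sum fun i _ => hU i
      _ = _ := by
          rw [Finset.sum_const, Finset.card_univ, Fintype.card_fin, nsmul_eq_mul]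
          norm_num
  unfold Phi
  have hT2 : T = C * (S1 s * (S1 p + S1 s)) := by rw [hTdef]; ring
  calc 200 * ∑ i, |Ul p s i| + 9 * max 0 (max (Nl p s 0) (max (Nl p s 1) (Nl p s 2))) +
        2 * max 0 (|Y0 p| - 1)
      ≤ 200 * (3 * ((1 + S1 p) * E + T)) + 9 * (2 * ((1 + S1 p) * E) + Q + T) +
        2 * ((1 + S1 p) * E) := by linarith
    _ = 620 * ((1 + S1 p) * E) + 609 * T + 9 * Q := by ring
    _ = _ := by rw [hT2]; ring

theorem GB_le (h7 : ∃ C : ℝ, 0 ≤ C ∧ ∀ (p s : Fin 11 → ℝ) (i : Fin 3),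
    |Ul p s i - (p (iM i) * Y0 p - Yv p i)| ≤ C * S1 s * (S1 p + S1 s) ∧
    |Nl p s i - (p (iM i) ^ 2 - 1 + Y0 p ^ 2 - Yv p i ^ 2)| ≤ C * S1 s * (S1 p + S1 s))
    (KB : ℝ) : ∃ k0 K0 : ℝ, 0 ≤ k0 ∧ 0 ≤ K0 ∧ ∀ k K : ℝ, k0 ≤ k → K0 ≤ K →
    ∀ sg : ℝ, (sg = 1 ∨ sg = -1) → ∀ p s : Fin 11 → ℝ, GB KB p s ≤ Wv k K sg p s := by
  obtain ⟨C, hC, h7⟩ := h7
  obtain ⟨C1, hC1, hC1a, hC1b⟩ : ∃ C1 : ℝ, 0 ≤ C1 ∧ 620 ≤ C1 ∧ 609 * C ≤ C1 :=
    ⟨max 620 (609 * C), by positivity, le_max_left _ _, le_max_right _ _⟩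
  refine ⟨9 + 10000 * C1 ^ 2, |KB| + 11 * C1 + 55000 * C1 ^ 2, by positivity, by positivity, ?_⟩
  intro k K hk hK sg hsg p s
  have hphi := GB_le_phi C hC p s (h7 p s) sg hsg _ _ rfl rfl
  set E := |Y0 p - sg| + ∑ i, |Yv p i - sg * p (iM i)| with hE
  set Q := (Y0 p - sg) ^ 2 + ∑ i, (Yv p i - sg * p (iM i)) ^ 2 with hQ
  have hEQ : E ^ 2 ≤ 4 * Q := by
    rw [hE, hQ, Fin.sum_univ_three, Fin.sum_univ_three]
    rw [← sq_abs (Y0 p - sg), ← sq_abs (Yv p 0 - sg * p (iM 0)),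
      ← sq_abs (Yv p 1 - sg * p (iM 1)), ← sq_abs (Yv p 2 - sg * p (iM 2))]
    generalize |Y0 p - sg| = a
    generalize |Yv p 0 - sg * p (iM 0)| = b
    generalize |Yv p 1 - sg * p (iM 1)| = c
    generalize |Yv p 2 - sg * p (iM 2)| = d
    nlinarith [sq_nonneg (a - b), sq_nonneg (a - c), sq_nonneg (a - d), sq_nonneg (b - c),
      sq_nonneg (b - d), sq_nonneg (c - d)]
  have hEnn : 0 ≤ E := by
    rw [hE]
    have : 0 ≤ ∑ i, |Yv p i - sg * p (iM i)| := Finset.sum_nonneg fun _ _ => abs_nonneg _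
    positivity
  have hQnn : 0 ≤ Q := by nlinarith [sq_nonneg E]
  have hP := GB_le_aux4 p
  have hS := GB_le_aux4 s
  have hP2 := GB_le_aux2 p
  have hS2 := GB_le_aux2 s
  have hnp := GB_le_aux5 p
  have hns := GB_le_aux5 s
  have hD := GB_le_aux3 p sg hsg
  unfold GB Wv
  set P := S1 p
  set S := S1 s
  set D := nrm (fun a => p a - sg * pstar a)
  set np := nrm p
  set ns := nrm s
  -- first bound
  have b1 : 620 * ((1 + P) * E) ≤ C1 * ((1 + P) * E) :=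
    mul_le_mul_of_nonneg_right hC1a (by positivity)
  have b2 : 609 * C * (S * (P + S)) ≤ C1 * (S * (P + S)) :=
    mul_le_mul_of_nonneg_right hC1b (by positivity)
  have b3 : C1 * ((1 + P) * E) ≤ (1 / 10000) * (1 + P) ^ 2 + 2500 * C1 ^ 2 * E ^ 2 := by
    nlinarith [sq_nonneg ((1 + P) / 100 - 50 * (C1 * E))]
  have b4 : (1 + P) ^ 2 ≤ 2 * (1 + P ^ 2) := by nlinarith [sq_nonneg (1 - P)]
  have b5 : C1 * (S * P) ≤ (1 / 20000) * P ^ 2 + 5000 * C1 ^ 2 * S ^ 2 := by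
    nlinarith [sq_nonneg (P - 10000 * (C1 * S))]
  have b6 : C1 * (S * S) ≤ 11 * C1 * ns := by
    have : C1 * S ^ 2 ≤ C1 * (11 * ns) := mul_le_mul_of_nonneg_left hS2 hC1
    linarith
  have b7 : 5000 * C1 ^ 2 * S ^ 2 ≤ 55000 * C1 ^ 2 * ns := by
    have : C1 ^ 2 * S ^ 2 ≤ C1 ^ 2 * (11 * ns) := mul_le_mul_of_nonneg_left hS2 (by positivity)
    linarith
  have b8 : 2500 * C1 ^ 2 * E ^ 2 ≤ 10000 * C1 ^ 2 * Q := by
    have : C1 ^ 2 * E ^ 2 ≤ C1 ^ 2 * (4 * Q) := mul_le_mul_of_nonneg_left hEQ (by positivity)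
    linarith
  have b9 : (9 + 10000 * C1 ^ 2) * Q ≤ k * Q := mul_le_mul_of_nonneg_right hk hQnn
  have b10 : (|KB| + 11 * C1 + 55000 * C1 ^ 2) * ns ≤ K * ns := mul_le_mul_of_nonneg_right hK hns
  have b11 : KB * ns ≤ |KB| * ns := mul_le_mul_of_nonneg_right (le_abs_self _) hns
  linarith


end TwoWell.JR10
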