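import Pool.Agent.TwoWell.Defs2
set_option autoImplicit false
open Set
namespace TwoWell.JR11

theorem p0_iz (j : Fin 8) : p0 (iz j) = 0 := by
  fin_cases j <;> rfl

theorem p0_iM0 : p0 (iM 0) = -1/3 := rfl
theorem p0_iM1 : p0 (iM 1) = -1/3 := rfl
theorem p0_iM2 : p0 (iM 2) = 1/3 := rfl

theorem GG_val (KA KB : ℝ) : 208 / 243 ≤ GG KA KB p0 0 := by
  have hY0 : Y0 p0 = 0 := by
    unfold Y0
    exact Finset.sum_eq_zero fun j _ => p0_iz j
  have hYv : ∀ i, Yv p0 i = 0 := fun i => by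
    unfold Yv
    exact Finset.sum_eq_zero fun j _ => by rw [p0_iz, mul_zero]
  have hcst : cst p0 = 0 := by
    unfold cst
    exact Finset.sum_eq_zero fun j _ => by rw [p0_iz]; ring
  have hnrm0 : nrm (0 : Fin 11 → ℝ) = 0 := by
    unfold nrm
    exact Finset.sum_eq_zero fun j _ => by simp
  have hnrm : 0 ≤ nrm p0 := by
    unfold nrm
    exact Finset.sum_nonneg fun j _ => sq_nonneg _
  have hin : inN p0 := by
    refine ⟨?_, ?_, ?_⟩
    · intro i
      fin_cases i
      · show |p0 (iM 0)| ≤ 9 / 8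
        rw [p0_iM0, abs_le]; norm_num
      · show |p0 (iM 1)| ≤ 9 / 8
        rw [p0_iM1, abs_le]; norm_num
      · show |p0 (iM 2)| ≤ 9 / 8
        rw [p0_iM2, abs_le]; norm_num
    · rw [hY0, abs_zero]; norm_num
    · intro i
      rw [hYv, abs_zero]; norm_num
  unfold GG
  rw [if_pos hin]
  refine le_trans ?_ (le_max_left _ _)
  unfold GA Psi
  rw [hcst, hY0, hYv, hYv, hYv, hnrm0]
  beta_reduce
  rw [p0_iM0, p0_iM1, p0_iM2]
  nlinarith


end TwoWell.JR11
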