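import Pool.Agent.TwoWell.Defs2
set_option autoImplicit false
open Set
namespace TwoWell.JR1a


theorem cubic_convexOn (c0 c1 c2 c3 : ℝ) (S : Set ℝ) (hS : Convex ℝ S)
    (h : ∀ w ∈ S, 0 ≤ c2 + 3 * c3 * w) :
    ConvexOn ℝ S (fun t => c0 + c1 * t + c2 * t ^ 2 + c3 * t ^ 3) := by
  refine ⟨hS, ?_⟩
  intro x hx y hy a b ha hb hab
  obtain rfl : b = 1 - a := by linarith
  have hw : ((1 + a) / 3) * x + ((1 + (1 - a)) / 3) * y ∈ S := by
    have := hS hx hy (a := (1 + a) / 3) (b := (1 + (1 - a)) / 3) (by positivity) (by positivity)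
      (by ring)
    simpa [smul_eq_mul] using this
  have h1 := h _ hw
  have h2 : 0 ≤ a * (1 - a) * (x - y) ^ 2 *
      (c2 + 3 * c3 * ((1 + a) / 3 * x + (1 + (1 - a)) / 3 * y)) :=
    mul_nonneg (mul_nonneg (mul_nonneg ha hb) (sq_nonneg _)) h1
  simp only [smul_eq_mul]
  have h3 : a * (c0 + c1 * x + c2 * x ^ 2 + c3 * x ^ 3) +
      (1 - a) * (c0 + c1 * y + c2 * y ^ 2 + c3 * y ^ 3) -
      (c0 + c1 * (a * x + (1 - a) * y) + c2 * (a * x + (1 - a) * y) ^ 2 +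
        c3 * (a * x + (1 - a) * y) ^ 3) = a * (1 - a) * (x - y) ^ 2 *
      (c2 + 3 * c3 * ((1 + a) / 3 * x + (1 + (1 - a)) / 3 * y)) := by
    ring
  linarith


end TwoWell.JR1a
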