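import Pool.Agent.TwoWell.Defs2
set_option autoImplicit false
open Set
namespace TwoWell.JR2


theorem glue_convexOn_left (S : Set ℝ) (hScl : IsClosed S) (x z : ℝ) (hz : z ∈ S) (hxz : x ≤ z) :
    ∃ x1 ∈ S, x ≤ x1 ∧ x1 ≤ z ∧ (x1 = x ∨ x1 ∈ frontier S) := by
  have hc : IsCompact (S ∩ Icc x z) := isCompact_Icc.inter_left hScl
  obtain ⟨x1, hx1⟩ := hc.exists_isLeast ⟨z, hz, hxz, le_refl z⟩
  refine ⟨x1, hx1.1.1, hx1.1.2.1, hx1.1.2.2, ?_⟩
  rcases eq_or_lt_of_le hx1.1.2.1 with h | h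
  · exact Or.inl h.symm
  · right
    rw [hScl.frontier_eq]
    refine ⟨hx1.1.1, fun hint => ?_⟩
    rw [mem_interior_iff_mem_nhds, mem_nhds_iff_exists_Ioo_subset] at hint
    obtain ⟨l, u, hlu, hsub⟩ := hint
    have h1 : max x l < x1 := max_lt h hlu.1
    have h2 := le_max_left x l
    have h3 := le_max_right x l
    have hw : (max x l + x1) / 2 ∈ S := hsub ⟨by linarith, by linarith [hlu.2]⟩
    have := hx1.2 ⟨hw, by linarith, by linarith [hx1.1.2.2]⟩
    linarith

theorem glue_convexOn_right (S : Set ℝ) (hScl : IsClosed S) (z y : ℝ) (hz : z ∈ S) (hzy : z ≤ y) :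
    ∃ y1 ∈ S, z ≤ y1 ∧ y1 ≤ y ∧ (y1 = y ∨ y1 ∈ frontier S) := by
  have hc : IsCompact (S ∩ Icc z y) := isCompact_Icc.inter_left hScl
  obtain ⟨x1, hx1⟩ := hc.exists_isGreatest ⟨z, hz, le_refl z, hzy⟩
  refine ⟨x1, hx1.1.1, hx1.1.2.1, hx1.1.2.2, ?_⟩
  rcases eq_or_lt_of_le hx1.1.2.2 with h | h
  · exact Or.inl h
  · right
    rw [hScl.frontier_eq]
    refine ⟨hx1.1.1, fun hint => ?_⟩
    rw [mem_interior_iff_mem_nhds, mem_nhds_iff_exists_Ioo_subset] at hint
    obtain ⟨l, u, hlu, hsub⟩ := hint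
    have h1 : x1 < min y u := lt_min h hlu.2
    have h2 := min_le_left y u
    have h3 := min_le_right y u
    have hw : (min y u + x1) / 2 ∈ S := hsub ⟨by linarith [hlu.1], by linarith⟩
    have := hx1.2 ⟨hw, by linarith [hx1.1.2.1], by linarith⟩
    linarith

theorem glue_convexOn_aff (T : Set ℝ) (f : ℝ → ℝ) (hf : ConvexOn ℝ T f) (m q : ℝ) :
    ConvexOn ℝ T (fun t => f t - (m * t + q)) := by
  refine ⟨hf.1, fun x hx y hy a b ha hb hab => ?_⟩
  have h := hf.2 hx hy ha hb hab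
  simp only [smul_eq_mul] at h ⊢
  have hb' : b = 1 - a := by linarith
  subst hb'
  nlinarith

open Classical in
theorem glue_convexOn (fA fB : ℝ → ℝ) (S : Set ℝ) (hScl : IsClosed S) (hS : Convex ℝ S)
    (hA : ConvexOn ℝ S fA) (hB : ConvexOn ℝ univ fB) (hbd : ∀ t ∈ frontier S, fA t ≤ fB t) :
    ConvexOn ℝ univ (fun t => if t ∈ S then max (fA t) (fB t) else fB t) := by
  set φ : ℝ → ℝ := fun t => if t ∈ S then max (fA t) (fB t) else fB t with hφ
  have hBφ : ∀ t, fB t ≤ φ t := by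
    intro t
    simp only [hφ]
    split_ifs
    · exact le_max_right _ _
    · exact le_refl _
  have hAφ : ∀ t ∈ S, fA t ≤ φ t := by
    intro t ht
    simp only [hφ]
    rw [if_pos ht]
    exact le_max_left _ _
  refine LinearOrder.convexOn_of_lt convex_univ ?_
  intro x _ y _ hxy a b ha hb hab
  have hyx : y - x ≠ 0 := (sub_pos.2 hxy).ne'
  set m : ℝ := (φ y - φ x) / (y - x) with hm
  set q : ℝ := φ x - m * x with hq
  have hmy : m * (y - x) = φ y - φ x := by rw [hm]; field_simp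
  have hLx : m * x + q = φ x := by rw [hq]; ring
  have hLy : m * y + q = φ y := by rw [hq]; linarith
  set z : ℝ := a • x + b • y with hz
  have hz' : z = a * x + b * y := by rw [hz]; simp
  have hLz : m * z + q = a • φ x + b • φ y := by
    rw [← hLx, ← hLy, hz']
    simp only [smul_eq_mul]
    have hb' : b = 1 - a := by linarith
    subst hb'
    ring
  have hb' : b = 1 - a := by linarith
  have hxz : x ≤ z := by rw [hz', hb']; nlinarith
  have hzy : z ≤ y := by rw [hz', hb']; nlinarith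
  have hBL : ∀ t, x ≤ t → t ≤ y → fB t ≤ m * t + q := by
    intro t h1 h2
    have h := (glue_convexOn_aff univ fB hB m q).le_max_of_mem_Icc (mem_univ x) (mem_univ y)
      ⟨h1, h2⟩
    have e1 : fB x - (m * x + q) ≤ 0 := by rw [hLx]; linarith [hBφ x]
    have e2 : fB y - (m * y + q) ≤ 0 := by rw [hLy]; linarith [hBφ y]
    have := h.trans (max_le e1 e2)
    linarith
  rw [← hLz]
  show φ z ≤ m * z + q
  by_cases hzS : z ∈ S
  · have hφz : φ z = max (fA z) (fB z) := by simp only [hφ]; rw [if_pos hzS]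
    rw [hφz]
    refine max_le ?_ (hBL z hxz hzy)
    obtain ⟨x1, hx1S, hx1, hx1z, hx1'⟩ := glue_convexOn_left S hScl x z hzS hxz
    obtain ⟨y1, hy1S, hy1z, hy1, hy1'⟩ := glue_convexOn_right S hScl z y hzS hzy
    have h := (glue_convexOn_aff S fA hA m q).le_max_of_mem_Icc hx1S hy1S ⟨hx1z, hy1z⟩
    have e1 : fA x1 - (m * x1 + q) ≤ 0 := by
      rcases hx1' with h1 | h1
      · rw [h1, hLx]
        rw [h1] at hx1S
        linarith [hAφ x hx1S]
      · linarith [hbd x1 h1, hBL x1 hx1 (by linarith)]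
    have e2 : fA y1 - (m * y1 + q) ≤ 0 := by
      rcases hy1' with h1 | h1
      · rw [h1, hLy]
        rw [h1] at hy1S
        linarith [hAφ y hy1S]
      · linarith [hbd y1 h1, hBL y1 (by linarith) hy1]
    have := h.trans (max_le e1 e2)
    linarith
  · have hφz : φ z = fB z := by simp only [hφ]; rw [if_neg hzS]
    rw [hφz]
    exact hBL z hxz hzy


end TwoWell.JR2
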