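import Pool.Agent.TwoWell.Defs2
set_option autoImplicit false
open Set
namespace TwoWell.JR3

theorem inN_line_Y0 (p h : Fin 11 → ℝ) (t : ℝ) : Y0 (p + t • h) = Y0 p + t * Y0 h := by
  unfold Y0
  rw [Finset.mul_sum, ← Finset.sum_add_distrib]
  apply Finset.sum_congr rfl
  intro j _
  simp only [Pi.add_apply, Pi.smul_apply, smul_eq_mul]

theorem inN_line_Yv (p h : Fin 11 → ℝ) (t : ℝ) (i : Fin 3) :
    Yv (p + t • h) i = Yv p i + t * Yv h i := by
  unfold Yv
  rw [Finset.mul_sum, ← Finset.sum_add_distrib]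
  apply Finset.sum_congr rfl
  intro j _
  simp only [Pi.add_apply, Pi.smul_apply, smul_eq_mul]
  ring

theorem inN_line_convex (α β c : ℝ) : Convex ℝ {t : ℝ | |α + t * β| ≤ c} := by
  intro x hx y hy a b ha hb hab
  have hx' : |α + x * β| ≤ c := hx
  have hy' : |α + y * β| ≤ c := hy
  show |α + (a • x + b • y) * β| ≤ c
  have h1 : α + (a • x + b • y) * β = a * (α + x * β) + b * (α + y * β) := by
    simp only [smul_eq_mul]
    linear_combination (-α) * hab
  rw [h1]
  calc |a * (α + x * β) + b * (α + y * β)|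
      ≤ |a * (α + x * β)| + |b * (α + y * β)| := abs_add_le _ _
    _ = a * |α + x * β| + b * |α + y * β| := by
        rw [abs_mul, abs_mul, abs_of_nonneg ha, abs_of_nonneg hb]
    _ ≤ a * c + b * c := add_le_add (mul_le_mul_of_nonneg_left hx' ha)
        (mul_le_mul_of_nonneg_left hy' hb)
    _ = c := by rw [← add_mul, hab, one_mul]

theorem inN_line_set (p h : Fin 11 → ℝ) : {t : ℝ | inN (p + t • h)} =
    (⋂ i : Fin 3, {t : ℝ | |p (iM i) + t * h (iM i)| ≤ 9 / 8}) ∩
      ({t : ℝ | |Y0 p + t * Y0 h| ≤ 2} ∩ ⋂ i : Fin 3, {t : ℝ | |Yv p i + t * Yv h i| ≤ 4}) := by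
  ext t
  constructor
  · rintro ⟨h1, h2, h3⟩
    refine ⟨?_, ?_, ?_⟩
    · rw [Set.mem_iInter]
      intro i
      exact h1 i
    · rw [inN_line_Y0] at h2
      exact h2
    · rw [Set.mem_iInter]
      intro i
      have := h3 i
      rw [inN_line_Yv] at this
      exact this
  · rintro ⟨h1, h2, h3⟩
    rw [Set.mem_iInter] at h1 h3
    refine ⟨fun i => h1 i, ?_, fun i => ?_⟩
    · rw [inN_line_Y0]
      exact h2
    · rw [inN_line_Yv]
      exact h3 i

theorem inN_line (p h : Fin 11 → ℝ) :
    IsClosed {t : ℝ | inN (p + t • h)} ∧ Convex ℝ {t : ℝ | inN (p + t • h)} ∧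
      ∀ t ∈ frontier {t : ℝ | inN (p + t • h)}, bdN (p + t • h) := by
  have hcont : ∀ α β : ℝ, Continuous (fun t : ℝ => |α + t * β|) := by
    intro α β
    fun_prop
  have hclosed : IsClosed {t : ℝ | inN (p + t • h)} := by
    rw [inN_line_set]
    refine IsClosed.inter (isClosed_iInter fun i => isClosed_le (hcont _ _) continuous_const)
      (IsClosed.inter (isClosed_le (hcont _ _) continuous_const)
        (isClosed_iInter fun i => isClosed_le (hcont _ _) continuous_const))
  refine ⟨hclosed, ?_, ?_⟩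
  · rw [inN_line_set]
    exact (convex_iInter fun i => inN_line_convex _ _ _).inter
      ((inN_line_convex _ _ _).inter (convex_iInter fun i => inN_line_convex _ _ _))
  · intro t ht
    have htS : inN (p + t • h) := by
      have h1 : t ∈ closure {t : ℝ | inN (p + t • h)} := ht.1
      rw [hclosed.closure_eq] at h1
      exact h1
    refine ⟨htS, ?_⟩
    by_contra hcon
    push Not at hcon
    obtain ⟨n1, n2, n3⟩ := hcon
    apply ht.2
    rw [mem_interior]
    refine ⟨(⋂ i : Fin 3, {t : ℝ | |p (iM i) + t * h (iM i)| < 9 / 8}) ∩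
      ({t : ℝ | |Y0 p + t * Y0 h| < 2} ∩ ⋂ i : Fin 3, {t : ℝ | |Yv p i + t * Yv h i| < 4}),
      ?_, ?_, ?_⟩
    · rw [inN_line_set]
      rintro r ⟨h1, h2, h3⟩
      rw [Set.mem_iInter] at h1 h3
      refine ⟨?_, ?_, ?_⟩
      · rw [Set.mem_iInter]
        intro i
        have h4 : |p (iM i) + r * h (iM i)| < 9 / 8 := h1 i
        exact h4.le
      · have h4 : |Y0 p + r * Y0 h| < 2 := h2
        exact h4.le
      · rw [Set.mem_iInter]
        intro i
        have h4 : |Yv p i + r * Yv h i| < 4 := h3 i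
        exact h4.le
    · refine IsOpen.inter (isOpen_iInter_of_finite fun i => isOpen_lt (hcont _ _) continuous_const)
        (IsOpen.inter (isOpen_lt (hcont _ _) continuous_const)
          (isOpen_iInter_of_finite fun i => isOpen_lt (hcont _ _) continuous_const))
    · refine ⟨?_, ?_, ?_⟩
      · rw [Set.mem_iInter]
        intro i
        exact lt_of_le_of_ne (htS.1 i) (n1 i)
      · have h1 := lt_of_le_of_ne htS.2.1 n2
        rw [inN_line_Y0] at h1
        exact h1
      · rw [Set.mem_iInter]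
        intro i
        have h1 := lt_of_le_of_ne (htS.2.2 i) (n3 i)
        rw [inN_line_Yv] at h1
        exact h1


end TwoWell.JR3
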