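import Pool.Agent.TwoWell.Defs2
set_option autoImplicit false
open Set
namespace TwoWell.JR4

/-- affine in one real variable -/
def Af (f : ℝ → ℝ) : Prop := ∃ a b : ℝ, ∀ r, f r = a + b * r

/-- convex, elementary form -/
def Cv (f : ℝ → ℝ) : Prop := ∀ x y a b : ℝ, 0 ≤ a → 0 ≤ b → a + b = 1 →
  f (a * x + b * y) ≤ a * f x + b * f y

lemma Af.const (c : ℝ) : Af (fun _ => c) := ⟨c, 0, fun r => by ring⟩

lemma Af.add {f g : ℝ → ℝ} (hf : Af f) (hg : Af g) : Af (fun r => f r + g r) := by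
  obtain ⟨a, b, h⟩ := hf
  obtain ⟨a', b', h'⟩ := hg
  exact ⟨a + a', b + b', fun r => by simp only [h, h']; ring⟩

lemma Af.sub {f g : ℝ → ℝ} (hf : Af f) (hg : Af g) : Af (fun r => f r - g r) := by
  obtain ⟨a, b, h⟩ := hf
  obtain ⟨a', b', h'⟩ := hg
  exact ⟨a - a', b - b', fun r => by simp only [h, h']; ring⟩

lemma Af.cmul {f : ℝ → ℝ} (c : ℝ) (hf : Af f) : Af (fun r => c * f r) := by
  obtain ⟨a, b, h⟩ := hf
  exact ⟨c * a, c * b, fun r => by simp only [h]; ring⟩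

lemma Af.sum {ι : Type} (s : Finset ι) {f : ι → ℝ → ℝ} (hf : ∀ i, Af (f i)) :
    Af (fun r => ∑ i ∈ s, f i r) := by
  choose a b h using hf
  refine ⟨∑ i ∈ s, a i, ∑ i ∈ s, b i, fun r => ?_⟩
  rw [Finset.sum_mul, ← Finset.sum_add_distrib]
  exact Finset.sum_congr rfl fun i _ => h i r

lemma Cv.add {f g : ℝ → ℝ} (hf : Cv f) (hg : Cv g) : Cv (fun r => f r + g r) := by
  intro x y a b ha hb hab
  have h1 := hf x y a b ha hb hab
  have h2 := hg x y a b ha hb hab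
  simp only
  linarith

lemma Cv.cmul {f : ℝ → ℝ} {c : ℝ} (hc : 0 ≤ c) (hf : Cv f) : Cv (fun r => c * f r) := by
  intro x y a b ha hb hab
  have h1 := mul_le_mul_of_nonneg_left (hf x y a b ha hb hab) hc
  simp only
  linarith

lemma Cv.of_aff {f : ℝ → ℝ} (hf : Af f) : Cv f := by
  obtain ⟨p, q, h⟩ := hf
  intro x y a b ha hb hab
  rw [h, h, h]
  have : p = (a + b) * p := by rw [hab, one_mul]
  nlinarith

lemma Cv.const (c : ℝ) : Cv (fun _ => c) := Cv.of_aff (Af.const c)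

lemma Cv.max {f g : ℝ → ℝ} (hf : Cv f) (hg : Cv g) : Cv (fun r => max (f r) (g r)) := by
  intro x y a b ha hb hab
  have h1 := hf x y a b ha hb hab
  have h2 := hg x y a b ha hb hab
  have u1 := mul_le_mul_of_nonneg_left (le_max_left (f x) (g x)) ha
  have u2 := mul_le_mul_of_nonneg_left (le_max_right (f x) (g x)) ha
  have u3 := mul_le_mul_of_nonneg_left (le_max_left (f y) (g y)) hb
  have u4 := mul_le_mul_of_nonneg_left (le_max_right (f y) (g y)) hb
  exact max_le (by linarith) (by linarith)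

lemma Cv.abs {f : ℝ → ℝ} (hf : Af f) : Cv (fun r => |f r|) := by
  have h1 : Cv (fun r => Max.max (f r) ((-1) * f r)) :=
    Cv.max (Cv.of_aff hf) (Cv.of_aff (Af.cmul (-1) hf))
  have e : (fun r => |f r|) = (fun r => Max.max (f r) ((-1) * f r)) := by
    funext r
    rw [abs_eq_max_neg, neg_one_mul]
  rw [e]; exact h1

lemma Cv.sq {f : ℝ → ℝ} (hf : Af f) : Cv (fun r => f r ^ 2) := by
  obtain ⟨p, q, h⟩ := hf
  intro x y a b ha hb hab
  simp only
  rw [h, h, h]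
  have e : a * (p + q * x) ^ 2 + b * (p + q * y) ^ 2 - (p + q * (a * x + b * y)) ^ 2 =
      a * b * (q * (x - y)) ^ 2 := by
    have hb' : b = 1 - a := by linarith
    subst hb'
    ring
  have : 0 ≤ a * b * (q * (x - y)) ^ 2 := by positivity
  linarith

lemma Cv.sum {ι : Type} (s : Finset ι) {f : ι → ℝ → ℝ} (hf : ∀ i, Cv (f i)) :
    Cv (fun r => ∑ i ∈ s, f i r) := by
  intro x y a b ha hb hab
  simp only
  rw [Finset.mul_sum, Finset.mul_sum, ← Finset.sum_add_distrib]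
  exact Finset.sum_le_sum fun i _ => hf i x y a b ha hb hab

lemma Cv.convexOn {f : ℝ → ℝ} (hf : Cv f) : ConvexOn ℝ univ f := by
  refine ⟨convex_univ, ?_⟩
  intro x _ y _ a b ha hb hab
  simpa only [smul_eq_mul] using hf x y a b ha hb hab

lemma af_coord (p h : Fin 11 → ℝ) (a : Fin 11) : Af (fun r : ℝ => (p + r • h) a) :=
  ⟨p a, h a, fun r => by simp only [Pi.add_apply, Pi.smul_apply, smul_eq_mul]; ring⟩

lemma af_mlt (p s h t : Fin 11 → ℝ) (hR : R1 h t) (a b : Fin 11) (hab : a ≠ b) :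
    Af (fun r : ℝ => mlt (p + r • h) (s + r • t) a b) := by
  refine ⟨mlt p s a b, p a * h b + h a * p b + s a * t b + t a * s b +
    cc a b * (p a * t b + h a * s b - s a * h b - t a * p b), fun r => ?_⟩
  have h1 := hR a b hab
  simp only [mlt, Pi.add_apply, Pi.smul_apply, smul_eq_mul]
  linear_combination r ^ 2 * h1

lemma cv_nrm (p h : Fin 11 → ℝ) : Cv (fun r : ℝ => nrm (p + r • h)) := by
  unfold nrm
  exact Cv.sum _ fun a => Cv.sq (af_coord p h a)

lemma kap_le (j : Fin 8) : 0 ≤ 1 - kap j := by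
  fin_cases j <;> norm_num [kap]

lemma cv_cst (p h : Fin 11 → ℝ) : Cv (fun r : ℝ => cst (p + r • h)) := by
  unfold cst
  exact Cv.sum _ fun j => Cv.cmul (kap_le j) (Cv.sq (af_coord p h (iz j)))

lemma af_Y0 (p h : Fin 11 → ℝ) : Af (fun r : ℝ => Y0 (p + r • h)) := by
  unfold Y0
  exact Af.sum _ fun j => af_coord p h (iz j)

lemma af_Yv (p h : Fin 11 → ℝ) (i : Fin 3) : Af (fun r : ℝ => Yv (p + r • h) i) := by
  unfold Yv
  exact Af.sum _ fun j => Af.cmul _ (af_coord p h (iz j))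

lemma iM_ne (i : Fin 3) (j : Fin 8) : iM i ≠ iz j := by
  revert i j; decide

lemma iz_ne (j l : Fin 8) (h : j ≠ l) : iz j ≠ iz l := by
  revert j l; decide

lemma kk_sq (j : Fin 8) (i : Fin 3) : kk j i * kk j i = 1 := by
  fin_cases j <;> fin_cases i <;> norm_num [kk]

lemma af_Ul (p s h t : Fin 11 → ℝ) (hR : R1 h t) (i : Fin 3) :
    Af (fun r : ℝ => Ul (p + r • h) (s + r • t) i) := by
  unfold Ul
  exact Af.sub (Af.sum _ fun j => af_mlt p s h t hR _ _ (iM_ne i j)) (af_Yv p h i)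

lemma cv_Nl (p s h t : Fin 11 → ℝ) (hR : R1 h t) (i : Fin 3) :
    Cv (fun r : ℝ => Nl (p + r • h) (s + r • t) i) := by
  unfold Nl
  have h1 : Cv (fun r : ℝ => (p + r • h) (iM i) ^ 2 + (-1)) :=
    Cv.add (Cv.sq (af_coord p h (iM i))) (Cv.const (-1))
  have h2 : Af (fun r : ℝ => ∑ j, ∑ l, (1 - kk j i * kk l i) *
      mlt (p + r • h) (s + r • t) (iz j) (iz l)) := by
    refine Af.sum _ fun j => Af.sum _ fun l => ?_
    by_cases hjl : j = l
    · subst hjl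
      rw [kk_sq, sub_self]
      exact ⟨0, 0, fun r => by ring⟩
    · exact Af.cmul _ (af_mlt p s h t hR _ _ (iz_ne j l hjl))
  have h3 := Cv.add h1 (Cv.of_aff h2)
  have e : (fun r : ℝ => (p + r • h) (iM i) ^ 2 - 1 + ∑ j, ∑ l, (1 - kk j i * kk l i) *
      mlt (p + r • h) (s + r • t) (iz j) (iz l)) =
      fun r : ℝ => (p + r • h) (iM i) ^ 2 + (-1) + ∑ j, ∑ l, (1 - kk j i * kk l i) *
      mlt (p + r • h) (s + r • t) (iz j) (iz l) := by
    funext r; ring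
  rw [e]; exact h3

lemma cv_Phi (p s h t : Fin 11 → ℝ) (hR : R1 h t) :
    Cv (fun r : ℝ => Phi (p + r • h) (s + r • t)) := by
  unfold Phi
  have h1 : Cv (fun r : ℝ => 200 * ∑ i, |Ul (p + r • h) (s + r • t) i|) :=
    Cv.cmul (by norm_num) (Cv.sum _ fun i => Cv.abs (af_Ul p s h t hR i))
  have h2 : Cv (fun r : ℝ => 9 * Max.max 0 (Max.max (Nl (p + r • h) (s + r • t) 0)
      (Max.max (Nl (p + r • h) (s + r • t) 1) (Nl (p + r • h) (s + r • t) 2)))) :=
    Cv.cmul (by norm_num) (Cv.max (Cv.const 0) (Cv.max (cv_Nl p s h t hR 0)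
      (Cv.max (cv_Nl p s h t hR 1) (cv_Nl p s h t hR 2))))
  have h3 : Cv (fun r : ℝ => 2 * Max.max 0 (|Y0 (p + r • h)| + (-1))) :=
    Cv.cmul (by norm_num) (Cv.max (Cv.const 0) (Cv.add (Cv.abs (af_Y0 p h)) (Cv.const (-1))))
  exact Cv.add (Cv.add h1 h2) h3

theorem GB_convexOn (KB : ℝ) (hKB : 0 ≤ KB) (p s h t : Fin 11 → ℝ) (hR : R1 h t) :
    ConvexOn ℝ univ (fun r : ℝ => GB KB (p + r • h) (s + r • t)) := by
  apply Cv.convexOn
  unfold GB
  exact Cv.add (Cv.add (Cv.add (cv_cst p h) (cv_Phi p s h t hR)) (Cv.cmul hKB (cv_nrm s t)))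
    (Cv.cmul (by norm_num) (Cv.add (cv_nrm p h) (cv_nrm s t)))


end TwoWell.JR4
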