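import Pool.Agent.TwoWell.Defs2
set_option autoImplicit false
open Set
namespace TwoWell.JR5





noncomputable def mu (a : Fin 11) (i : Fin 3) : ℝ := if a = iM i then 1 else 0

noncomputable def k0 : Fin 11 → ℝ := ![0, 0, 0, 1, 1, 1, 1, 1, 1, 1, 1]

noncomputable def kv : Fin 11 → Fin 3 → ℝ :=
  ![![0, 0, 0], ![0, 0, 0], ![0, 0, 0], ![1, 1, 1], ![-1, 1, 1], ![1, -1, 1], ![-1, -1, 1],
    ![1, 1, -1], ![-1, 1, -1], ![1, -1, -1], ![-1, -1, -1]]

noncomputable def kp : Fin 11 → ℝ := ![0, 0, 0, 0, 2, 2, 0, 2, 0, 0, 2]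

theorem hm_eq (h : Fin 11 → ℝ) (i : Fin 3) : h (iM i) = ∑ a, mu a i * h a := by
  simp [mu, Finset.sum_ite_eq]

theorem Y0_eq (h : Fin 11 → ℝ) : Y0 h = ∑ a, k0 a * h a := by
  simp [Y0, iz, k0, Fin.sum_univ_succ]

theorem Yv_eq (h : Fin 11 → ℝ) (i : Fin 3) : Yv h i = ∑ a, kv a i * h a := by
  fin_cases i <;> simp [Yv, iz, kk, kv, Fin.sum_univ_succ] <;> ring

theorem cst_eq (h : Fin 11 → ℝ) : cst h = ∑ a, kp a * h a ^ 2 := by
  simp [cst, kap, iz, kp, Fin.sum_univ_succ]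
  ring

noncomputable def ee (M : Fin 3 → ℝ) (y0 : ℝ) (y : Fin 3 → ℝ) (a b : Fin 11) : ℝ :=
  -(k0 a * k0 b) + (1 / 3) *
    ((kv a 0 * kv b 0 - (mu a 0 * k0 b * y 0 + y0 * (mu a 0 * kv b 0)) - M 0 * (k0 a * kv b 0)
        + (mu a 0 * kv b 1 * y 2 + y 1 * (mu a 0 * kv b 2)) + M 0 * (kv a 1 * kv b 2)) +
     (kv a 1 * kv b 1 - (mu a 1 * k0 b * y 1 + y0 * (mu a 1 * kv b 1)) - M 1 * (k0 a * kv b 1)
        + (mu a 1 * kv b 2 * y 0 + y 2 * (mu a 1 * kv b 0)) + M 1 * (kv a 2 * kv b 0)) +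
     (kv a 2 * kv b 2 - (mu a 2 * k0 b * y 2 + y0 * (mu a 2 * kv b 2)) - M 2 * (k0 a * kv b 2)
        + (mu a 2 * kv b 0 * y 1 + y 0 * (mu a 2 * kv b 1)) + M 2 * (kv a 0 * kv b 1)))
    - (mu a 0 * mu b 1 * M 2 + M 1 * (mu a 0 * mu b 2) + M 0 * (mu a 1 * mu b 2))

theorem key (x f g : Fin 11 → ℝ) : (∑ a, f a * x a) * (∑ b, g b * x b) =
    ∑ a, ∑ b, f a * g b * (x a * x b) := by
  rw [Finset.sum_mul_sum]
  apply Finset.sum_congr rfl
  intro a _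
  apply Finset.sum_congr rfl
  intro b _
  ring

theorem expand (x : Fin 11 → ℝ) (M : Fin 3 → ℝ) (y0 : ℝ) (y : Fin 3 → ℝ) :
    H2Psi M y0 y (fun i => ∑ a, mu a i * x a) (∑ a, k0 a * x a) (fun i => ∑ a, kv a i * x a) =
      ∑ a, ∑ b, ee M y0 y a b * (x a * x b) := by
  have e1 : ∀ a b, ee M y0 y a b * (x a * x b) =
      (-1) * (k0 a * k0 b * (x a * x b)) +
      (1 / 3) * (kv a 0 * kv b 0 * (x a * x b)) +
      (-(1 / 3) * y 0) * (mu a 0 * k0 b * (x a * x b)) +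
      (-(1 / 3) * y0) * (mu a 0 * kv b 0 * (x a * x b)) +
      (-(1 / 3) * M 0) * (k0 a * kv b 0 * (x a * x b)) +
      ((1 / 3) * y 2) * (mu a 0 * kv b 1 * (x a * x b)) +
      ((1 / 3) * y 1) * (mu a 0 * kv b 2 * (x a * x b)) +
      ((1 / 3) * M 0) * (kv a 1 * kv b 2 * (x a * x b)) +
      (1 / 3) * (kv a 1 * kv b 1 * (x a * x b)) +
      (-(1 / 3) * y 1) * (mu a 1 * k0 b * (x a * x b)) +
      (-(1 / 3) * y0) * (mu a 1 * kv b 1 * (x a * x b)) +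
      (-(1 / 3) * M 1) * (k0 a * kv b 1 * (x a * x b)) +
      ((1 / 3) * y 0) * (mu a 1 * kv b 2 * (x a * x b)) +
      ((1 / 3) * y 2) * (mu a 1 * kv b 0 * (x a * x b)) +
      ((1 / 3) * M 1) * (kv a 2 * kv b 0 * (x a * x b)) +
      (1 / 3) * (kv a 2 * kv b 2 * (x a * x b)) +
      (-(1 / 3) * y 2) * (mu a 2 * k0 b * (x a * x b)) +
      (-(1 / 3) * y0) * (mu a 2 * kv b 2 * (x a * x b)) +
      (-(1 / 3) * M 2) * (k0 a * kv b 2 * (x a * x b)) +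
      ((1 / 3) * y 1) * (mu a 2 * kv b 0 * (x a * x b)) +
      ((1 / 3) * y 0) * (mu a 2 * kv b 1 * (x a * x b)) +
      ((1 / 3) * M 2) * (kv a 0 * kv b 1 * (x a * x b)) +
      (-(M 2)) * (mu a 0 * mu b 1 * (x a * x b)) +
      (-(M 1)) * (mu a 0 * mu b 2 * (x a * x b)) +
      (-(M 0)) * (mu a 1 * mu b 2 * (x a * x b)) := by
    intro a b
    unfold ee
    ring
  simp only [e1, Finset.sum_add_distrib, ← Finset.mul_sum]
  rw [← key x k0 k0, ← key x (fun a => kv a 0) (fun a => kv a 0),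
    ← key x (fun a => mu a 0) k0, ← key x (fun a => mu a 0) (fun a => kv a 0),
    ← key x k0 (fun a => kv a 0), ← key x (fun a => mu a 0) (fun a => kv a 1),
    ← key x (fun a => mu a 0) (fun a => kv a 2), ← key x (fun a => kv a 1) (fun a => kv a 2),
    ← key x (fun a => kv a 1) (fun a => kv a 1), ← key x (fun a => mu a 1) k0,
    ← key x (fun a => mu a 1) (fun a => kv a 1), ← key x k0 (fun a => kv a 1),
    ← key x (fun a => mu a 1) (fun a => kv a 2), ← key x (fun a => mu a 1) (fun a => kv a 0),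
    ← key x (fun a => kv a 2) (fun a => kv a 0), ← key x (fun a => kv a 2) (fun a => kv a 2),
    ← key x (fun a => mu a 2) k0, ← key x (fun a => mu a 2) (fun a => kv a 2),
    ← key x k0 (fun a => kv a 2), ← key x (fun a => mu a 2) (fun a => kv a 0),
    ← key x (fun a => mu a 2) (fun a => kv a 1), ← key x (fun a => kv a 0) (fun a => kv a 1),
    ← key x (fun a => mu a 0) (fun a => mu a 1), ← key x (fun a => mu a 0) (fun a => mu a 2),
    ← key x (fun a => mu a 1) (fun a => mu a 2)]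
  unfold H2Psi
  ring

theorem mu_le (a : Fin 11) (i : Fin 3) : |mu a i| ≤ 1 := by
  unfold mu
  split_ifs <;> norm_num

theorem k0_le (a : Fin 11) : |k0 a| ≤ 1 := by
  fin_cases a <;> norm_num [k0]

theorem kv_le (a : Fin 11) (i : Fin 3) : |kv a i| ≤ 1 := by
  fin_cases a <;> fin_cases i <;> norm_num [kv]

theorem prod_le (c f g C : ℝ) (hc : |c| ≤ C) (hf : |f| ≤ 1) (hg : |g| ≤ 1) :
    |c * (f * g)| ≤ C := by
  rw [abs_mul, abs_mul]
  have h1 : |f| * |g| ≤ 1 := by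
    calc |f| * |g| ≤ 1 * 1 := mul_le_mul hf hg (abs_nonneg _) zero_le_one
      _ = 1 := by ring
  have h2 : 0 ≤ |f| * |g| := by positivity
  calc |c| * (|f| * |g|) ≤ C * 1 := mul_le_mul hc h1 h2 (le_trans (abs_nonneg _) hc)
    _ = C := by ring

theorem ee_le (M : Fin 3 → ℝ) (y0 : ℝ) (y : Fin 3 → ℝ) (hM : ∀ i, |M i| ≤ 9 / 8)
    (hy0 : |y0| ≤ 2) (hy : ∀ i, |y i| ≤ 4) (a b : Fin 11) : |ee M y0 y a b| ≤ 100 := by
  have h1 := abs_le.1 (prod_le 1 (k0 a) (k0 b) 1 (by norm_num) (k0_le a) (k0_le b))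
  have hv : ∀ i j : Fin 3, -1 ≤ 1 * (kv a i * kv b j) ∧ 1 * (kv a i * kv b j) ≤ 1 := fun i j =>
    abs_le.1 (prod_le 1 (kv a i) (kv b j) 1 (by norm_num) (kv_le a i) (kv_le b j))
  have hMv : ∀ l i j : Fin 3, -(9 / 8) ≤ M l * (kv a i * kv b j) ∧ M l * (kv a i * kv b j) ≤ 9 / 8 :=
    fun l i j => abs_le.1 (prod_le (M l) (kv a i) (kv b j) _ (hM l) (kv_le a i) (kv_le b j))
  have hMk : ∀ l j : Fin 3, -(9 / 8) ≤ M l * (k0 a * kv b j) ∧ M l * (k0 a * kv b j) ≤ 9 / 8 :=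
    fun l j => abs_le.1 (prod_le (M l) (k0 a) (kv b j) _ (hM l) (k0_le a) (kv_le b j))
  have hMm : ∀ l i j : Fin 3, -(9 / 8) ≤ M l * (mu a i * mu b j) ∧ M l * (mu a i * mu b j) ≤ 9 / 8 :=
    fun l i j => abs_le.1 (prod_le (M l) (mu a i) (mu b j) _ (hM l) (mu_le a i) (mu_le b j))
  have h0 : ∀ i j : Fin 3, -2 ≤ y0 * (mu a i * kv b j) ∧ y0 * (mu a i * kv b j) ≤ 2 :=
    fun i j => abs_le.1 (prod_le y0 (mu a i) (kv b j) _ hy0 (mu_le a i) (kv_le b j))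
  have hyk : ∀ l i : Fin 3, -4 ≤ y l * (mu a i * k0 b) ∧ y l * (mu a i * k0 b) ≤ 4 :=
    fun l i => abs_le.1 (prod_le (y l) (mu a i) (k0 b) _ (hy l) (mu_le a i) (k0_le b))
  have hyv : ∀ l i j : Fin 3, -4 ≤ y l * (mu a i * kv b j) ∧ y l * (mu a i * kv b j) ≤ 4 :=
    fun l i j => abs_le.1 (prod_le (y l) (mu a i) (kv b j) _ (hy l) (mu_le a i) (kv_le b j))
  have e : ee M y0 y a b = -(1 * (k0 a * k0 b)) + (1 / 3) *
    ((1 * (kv a 0 * kv b 0) - (y 0 * (mu a 0 * k0 b) + y0 * (mu a 0 * kv b 0)) - M 0 * (k0 a * kv b 0)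
        + (y 2 * (mu a 0 * kv b 1) + y 1 * (mu a 0 * kv b 2)) + M 0 * (kv a 1 * kv b 2)) +
     (1 * (kv a 1 * kv b 1) - (y 1 * (mu a 1 * k0 b) + y0 * (mu a 1 * kv b 1)) - M 1 * (k0 a * kv b 1)
        + (y 0 * (mu a 1 * kv b 2) + y 2 * (mu a 1 * kv b 0)) + M 1 * (kv a 2 * kv b 0)) +
     (1 * (kv a 2 * kv b 2) - (y 2 * (mu a 2 * k0 b) + y0 * (mu a 2 * kv b 2)) - M 2 * (k0 a * kv b 2)
        + (y 1 * (mu a 2 * kv b 0) + y 0 * (mu a 2 * kv b 1)) + M 2 * (kv a 0 * kv b 1)))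
    - (M 2 * (mu a 0 * mu b 1) + M 1 * (mu a 0 * mu b 2) + M 0 * (mu a 1 * mu b 2)) := by
    unfold ee
    ring
  rw [e, abs_le]
  constructor
  · linarith [h1.2, (hv 0 0).1, (hv 1 1).1, (hv 2 2).1, (hyk 0 0).2, (hyk 1 1).2, (hyk 2 2).2,
      (h0 0 0).2, (h0 1 1).2, (h0 2 2).2, (hMk 0 0).2, (hMk 1 1).2, (hMk 2 2).2,
      (hyv 2 0 1).1, (hyv 1 0 2).1, (hyv 0 1 2).1, (hyv 2 1 0).1, (hyv 1 2 0).1, (hyv 0 2 1).1,
      (hMv 0 1 2).1, (hMv 1 2 0).1, (hMv 2 0 1).1, (hMm 2 0 1).2, (hMm 1 0 2).2, (hMm 0 1 2).2]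
  · linarith [h1.1, (hv 0 0).2, (hv 1 1).2, (hv 2 2).2, (hyk 0 0).1, (hyk 1 1).1, (hyk 2 2).1,
      (h0 0 0).1, (h0 1 1).1, (h0 2 2).1, (hMk 0 0).1, (hMk 1 1).1, (hMk 2 2).1,
      (hyv 2 0 1).2, (hyv 1 0 2).2, (hyv 0 1 2).2, (hyv 2 1 0).2, (hyv 1 2 0).2, (hyv 0 2 1).2,
      (hMv 0 1 2).2, (hMv 1 2 0).2, (hMv 2 0 1).2, (hMm 2 0 1).1, (hMm 1 0 2).1, (hMm 0 1 2).1]

theorem ee_diag (M : Fin 3 → ℝ) (y0 : ℝ) (y : Fin 3 → ℝ) (hM : ∀ i, |M i| ≤ 9 / 8)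
    (a : Fin 11) : 0 ≤ kp a + (8 / 9) * ee M y0 y a a := by
  have h0 := abs_le.1 (hM 0)
  have h1 := abs_le.1 (hM 1)
  have h2 := abs_le.1 (hM 2)
  fin_cases a <;> simp [kp, ee, mu, iM, k0, kv] <;> linarith [h0.1, h0.2, h1.1, h1.2, h2.1, h2.2]

theorem le_nrm (t : Fin 11 → ℝ) (a : Fin 11) : t a ^ 2 ≤ nrm t := by
  unfold nrm
  exact Finset.single_le_sum (f := fun a => t a ^ 2) (fun i _ => sq_nonneg _) (Finset.mem_univ a)

theorem off_le (δ : ℝ) (hδ : 0 < δ) : ∃ K : ℝ, 0 ≤ K ∧ ∀ h t : Fin 11 → ℝ, R1 h t →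
    ∀ a b, a ≠ b → |h a * h b| ≤ δ * nrm h + K * nrm t := by
  set C : ℝ := ∑ a, ∑ b, |cc a b| with hC
  have hC0 : 0 ≤ C := Finset.sum_nonneg fun a _ => Finset.sum_nonneg fun b _ => abs_nonneg _
  have hcc : ∀ a b, |cc a b| ≤ C := by
    intro a b
    have h1 : |cc a b| ≤ ∑ b, |cc a b| :=
      Finset.single_le_sum (f := fun b => |cc a b|) (fun i _ => abs_nonneg _) (Finset.mem_univ b)
    have h2 : ∑ b, |cc a b| ≤ C :=
      Finset.single_le_sum (f := fun a => ∑ b, |cc a b|)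
        (fun i _ => Finset.sum_nonneg fun b _ => abs_nonneg _) (Finset.mem_univ a)
    exact h1.trans h2
  refine ⟨1 + C ^ 2 / δ, by positivity, ?_⟩
  intro h t hR a b hab
  have hr := hR a b hab
  have e : h a * h b = -(t a * t b) - cc a b * (h a * t b - t a * h b) := by linarith
  rw [e]
  have h1 : |-(t a * t b) - cc a b * (h a * t b - t a * h b)| ≤
      |t a| * |t b| + C * (|h a| * |t b| + |t a| * |h b|) := by
    calc |-(t a * t b) - cc a b * (h a * t b - t a * h b)|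
        ≤ |-(t a * t b)| + |cc a b * (h a * t b - t a * h b)| := abs_sub _ _
      _ ≤ |t a| * |t b| + C * (|h a| * |t b| + |t a| * |h b|) := by
        rw [abs_neg, abs_mul, abs_mul (cc a b)]
        have h2 : |h a * t b - t a * h b| ≤ |h a| * |t b| + |t a| * |h b| := by
          rw [← abs_mul, ← abs_mul]
          exact abs_sub _ _
        have h3 : |cc a b| * |h a * t b - t a * h b| ≤ C * (|h a| * |t b| + |t a| * |h b|) :=
          mul_le_mul (hcc a b) h2 (abs_nonneg _) hC0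
        linarith
  have ha := le_nrm h a
  have hb := le_nrm h b
  have ta := le_nrm t a
  have tb := le_nrm t b
  have g1 : |t a| * |t b| ≤ nrm t := by
    nlinarith [sq_nonneg (|t a| - |t b|), sq_abs (t a), sq_abs (t b)]
  have yng : ∀ u v : ℝ, C * (|u| * |v|) ≤ (δ / 2) * u ^ 2 + (C ^ 2 / δ / 2) * v ^ 2 := by
    intro u v
    have h5 : 0 ≤ (δ * |u| - C * |v|) ^ 2 / (2 * δ) := by positivity
    have h6 : (δ * |u| - C * |v|) ^ 2 / (2 * δ) =
        (δ / 2) * |u| ^ 2 + (C ^ 2 / δ / 2) * |v| ^ 2 - C * (|u| * |v|) := by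
      field_simp
      ring
    rw [h6, sq_abs, sq_abs] at h5
    linarith
  have g2 := yng (h a) (t b)
  have g3 := yng (h b) (t a)
  have hd : 0 ≤ C ^ 2 / δ / 2 := by positivity
  have m1 := mul_le_mul_of_nonneg_left ha (show 0 ≤ δ / 2 by positivity)
  have m2 := mul_le_mul_of_nonneg_left hb (show 0 ≤ δ / 2 by positivity)
  have m3 := mul_le_mul_of_nonneg_left ta hd
  have m4 := mul_le_mul_of_nonneg_left tb hd
  have e2 : |t a| * |h b| = |h b| * |t a| := mul_comm _ _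
  rw [e2] at h1
  have : C * (|h a| * |t b| + |h b| * |t a|) = C * (|h a| * |t b|) + C * (|h b| * |t a|) := by ring
  rw [this] at h1
  have e3 : (1 + C ^ 2 / δ) * nrm t = nrm t + (C ^ 2 / δ / 2) * nrm t + (C ^ 2 / δ / 2) * nrm t := by
    ring
  rw [e3]
  have e4 : δ * nrm h = δ / 2 * nrm h + δ / 2 * nrm h := by ring
  rw [e4]
  linarith

theorem nrm_nonneg (t : Fin 11 → ℝ) : 0 ≤ nrm t :=
  Finset.sum_nonneg fun a _ => sq_nonneg _

theorem HA_nonneg : ∃ KA : ℝ, 0 ≤ KA ∧ ∀ p : Fin 11 → ℝ, inN p → ∀ h t : Fin 11 → ℝ, R1 h t →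
    0 ≤ HA KA p h t := by
  obtain ⟨K, hK0, hK⟩ := off_le (1 / 12100000) (by norm_num)
  refine ⟨12100 * K, by positivity, ?_⟩
  intro p hp h t hR
  obtain ⟨hM, hy0, hy⟩ := hp
  have hH : H2Psi (fun i => p (iM i)) (Y0 p) (Yv p) (fun i => h (iM i)) (Y0 h) (Yv h) =
      ∑ a, ∑ b, ee (fun i => p (iM i)) (Y0 p) (Yv p) a b * (h a * h b) := by
    rw [← expand h]
    congr 1
    · funext i; exact hm_eq h i
    · exact Y0_eq h
    · funext i; exact Yv_eq h i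
  set e := ee (fun i => p (iM i)) (Y0 p) (Yv p) with he
  have hc : cst h = ∑ a, ∑ b, (if a = b then kp a else 0) * (h a * h b) := by
    rw [cst_eq]
    apply Finset.sum_congr rfl
    intro a _
    simp only [ite_mul, zero_mul, Finset.sum_ite_eq, Finset.mem_univ, if_true]
    ring
  have hsum : cst h + (8 / 9) * (∑ a, ∑ b, e a b * (h a * h b)) =
      ∑ a, ∑ b, ((if a = b then kp a else 0) + (8 / 9) * e a b) * (h a * h b) := by
    rw [hc, Finset.mul_sum, ← Finset.sum_add_distrib]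
    apply Finset.sum_congr rfl
    intro a _
    rw [Finset.mul_sum, ← Finset.sum_add_distrib]
    apply Finset.sum_congr rfl
    intro b _
    ring
  have hn1 := nrm_nonneg h
  have hn2 := nrm_nonneg t
  set D : ℝ := 100 * (1 / 12100000 * nrm h + K * nrm t) with hD
  have hD0 : 0 ≤ D := by positivity
  have hterm : ∀ a b, -D ≤ ((if a = b then kp a else 0) + (8 / 9) * e a b) * (h a * h b) := by
    intro a b
    by_cases hab : a = b
    · subst hab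
      rw [if_pos rfl]
      have h1 := ee_diag (fun i => p (iM i)) (Y0 p) (Yv p) hM a
      have h2 : 0 ≤ h a * h a := mul_self_nonneg _
      have := mul_nonneg h1 h2
      linarith
    · rw [if_neg hab, zero_add]
      have h1 := ee_le (fun i => p (iM i)) (Y0 p) (Yv p) hM hy0 hy a b
      have h2 := hK h t hR a b hab
      have h3 : |8 / 9 * e a b * (h a * h b)| ≤ D := by
        rw [abs_mul, abs_mul]
        have h4 : |(8 / 9 : ℝ)| * |e a b| ≤ 100 := by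
          rw [abs_of_pos (by norm_num : (0 : ℝ) < 8 / 9)]
          have : 0 ≤ |e a b| := abs_nonneg _
          have h1' : |e a b| ≤ 100 := h1
          linarith
        exact mul_le_mul h4 h2 (abs_nonneg _) (by norm_num)
      exact (abs_le.1 h3).1
  have htot : -(121 * D) ≤
      ∑ a, ∑ b, ((if a = b then kp a else 0) + (8 / 9) * e a b) * (h a * h b) := by
    have h1 : ∑ _a : Fin 11, ∑ _b : Fin 11, (-D) ≤
        ∑ a, ∑ b, ((if a = b then kp a else 0) + (8 / 9) * e a b) * (h a * h b) :=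
      Finset.sum_le_sum fun a _ => Finset.sum_le_sum fun b _ => hterm a b
    have h2 : ∑ _a : Fin 11, ∑ _b : Fin 11, (-D) = -(121 * D) := by
      simp
      ring
    linarith
  unfold HA
  rw [hH, hsum]
  rw [hD] at htot
  linarith


end TwoWell.JR5
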