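import Pool.Agent.TwoWell.Defs2
set_option autoImplicit false
open Set
namespace TwoWell.JR5b





/-- the cubic coefficient of `Psi` -/
noncomputable def P3Psi (m : Fin 3 → ℝ) (v0 : ℝ) (v : Fin 3 → ℝ) : ℝ :=
  (1 / 3) * ((- (m 0 * v0 * v 0) + m 0 * v 1 * v 2) + (- (m 1 * v0 * v 1) + m 1 * v 2 * v 0) +
    (- (m 2 * v0 * v 2) + m 2 * v 0 * v 1)) - m 0 * m 1 * m 2

theorem Psi_line (M m : Fin 3 → ℝ) (y0 v0 : ℝ) (y v : Fin 3 → ℝ) (r : ℝ) :
    Psi (fun i => M i + r * m i) (y0 + r * v0) (fun i => y i + r * v i) =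
      Psi M y0 y + (Psi (fun i => M i + m i) (y0 + v0) (fun i => y i + v i) - Psi M y0 y -
        H2Psi M y0 y m v0 v - P3Psi m v0 v) * r + H2Psi M y0 y m v0 v * r ^ 2 +
        P3Psi m v0 v * r ^ 3 := by
  simp only [Psi, H2Psi, P3Psi]
  ring

theorem H2Psi_line (M m : Fin 3 → ℝ) (y0 v0 : ℝ) (y v : Fin 3 → ℝ) (w : ℝ) :
    H2Psi (fun i => M i + w * m i) (y0 + w * v0) (fun i => y i + w * v i) m v0 v =
      H2Psi M y0 y m v0 v + 3 * P3Psi m v0 v * w := by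
  simp only [H2Psi, P3Psi]
  ring

theorem Y0_line (p h : Fin 11 → ℝ) (r : ℝ) : Y0 (p + r • h) = Y0 p + r * Y0 h := by
  simp only [Y0, Pi.add_apply, Pi.smul_apply, smul_eq_mul, Finset.sum_add_distrib, Finset.mul_sum]

theorem Yv_line (p h : Fin 11 → ℝ) (r : ℝ) : Yv (p + r • h) = fun i => Yv p i + r * Yv h i := by
  funext i
  simp only [Yv, Pi.add_apply, Pi.smul_apply, smul_eq_mul, mul_add, Finset.sum_add_distrib,
    Finset.mul_sum]
  congr 1
  exact Finset.sum_congr rfl fun j _ => by ring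

theorem cst_line (p h : Fin 11 → ℝ) (r : ℝ) : cst (p + r • h) =
    cst p + (∑ j, (1 - kap j) * (2 * p (iz j) * h (iz j))) * r + cst h * r ^ 2 := by
  simp only [cst, Pi.add_apply, Pi.smul_apply, smul_eq_mul, Finset.sum_mul,
    ← Finset.sum_add_distrib]
  exact Finset.sum_congr rfl fun j _ => by ring

theorem nrm_line (p h : Fin 11 → ℝ) (r : ℝ) : nrm (p + r • h) =
    nrm p + (∑ a, 2 * p a * h a) * r + nrm h * r ^ 2 := by
  simp only [nrm, Pi.add_apply, Pi.smul_apply, smul_eq_mul, Finset.sum_mul,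
    ← Finset.sum_add_distrib]
  exact Finset.sum_congr rfl fun j _ => by ring

theorem GA_line (KA : ℝ) (p s h t : Fin 11 → ℝ) : ∃ c0 c1 c2 c3 : ℝ,
    (∀ r : ℝ, GA KA (p + r • h) (s + r • t) = c0 + c1 * r + c2 * r ^ 2 + c3 * r ^ 3) ∧
    ∀ w : ℝ, c2 + 3 * c3 * w = HA KA (p + w • h) h t := by
  refine ⟨GA KA p s, (∑ j, (1 - kap j) * (2 * p (iz j) * h (iz j))) +
    (8 / 9) * (Psi (fun i => p (iM i) + h (iM i)) (Y0 p + Y0 h) (fun i => Yv p i + Yv h i) -
      Psi (fun i => p (iM i)) (Y0 p) (Yv p) -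
      H2Psi (fun i => p (iM i)) (Y0 p) (Yv p) (fun i => h (iM i)) (Y0 h) (Yv h) -
      P3Psi (fun i => h (iM i)) (Y0 h) (Yv h)) + KA * (∑ a, 2 * s a * t a) +
    (1 / 1000) * ((∑ a, 2 * p a * h a) + (∑ a, 2 * s a * t a)), HA KA p h t,
    (8 / 9) * P3Psi (fun i => h (iM i)) (Y0 h) (Yv h), fun r => ?_, fun w => ?_⟩
  · have h1 : (fun i => (p + r • h) (iM i)) = fun i => p (iM i) + r * h (iM i) := by
      funext i
      simp only [Pi.add_apply, Pi.smul_apply, smul_eq_mul]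
    have h2 := Psi_line (fun i => p (iM i)) (fun i => h (iM i)) (Y0 p) (Y0 h) (Yv p) (Yv h) r
    unfold GA HA
    rw [h1, Y0_line, Yv_line, cst_line, nrm_line, nrm_line]
    rw [h2]
    ring
  · have h1 : (fun i => (p + w • h) (iM i)) = fun i => p (iM i) + w * h (iM i) := by
      funext i
      simp only [Pi.add_apply, Pi.smul_apply, smul_eq_mul]
    have h2 := H2Psi_line (fun i => p (iM i)) (fun i => h (iM i)) (Y0 p) (Y0 h) (Yv p) (Yv h) w
    unfold HA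
    rw [h1, Y0_line, Yv_line]
    rw [h2]
    ring


end TwoWell.JR5b
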