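import Pool.Agent.TwoWell.Defs2
set_option autoImplicit false
open Set
namespace TwoWell.JR6

theorem bd_aux1 {x b c p : ℝ} (hx : |x| ≤ 2) (hb : |b| ≤ 9 / 8) (hc : |c| ≤ 9 / 8)
    (hp : |p| ≤ 4) : |p + 2 * x * b * c| ≤ 145 / 16 := by
  have h1 : |2 * x * b * c| ≤ 2 * 2 * (9 / 8) * (9 / 8) := by
    rw [abs_mul, abs_mul, abs_mul, abs_two]
    gcongr
  calc |p + 2 * x * b * c| ≤ |p| + |2 * x * b * c| := abs_add_le _ _
    _ ≤ 145 / 16 := by norm_num at h1 ⊢; linarith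

theorem bd_aux2 {a v w : ℝ} (ha : |a| ≤ 9 / 8) (hv : |v| ≤ 25 / 4) :
    a * v * w ≤ 225 / 32 * |w| := by
  refine (le_abs_self _).trans ?_
  rw [abs_mul, abs_mul]
  have : |a| * |v| ≤ 9 / 8 * (25 / 4) := by gcongr
  calc |a| * |v| * |w| ≤ 9 / 8 * (25 / 4) * |w| := by gcongr
    _ = 225 / 32 * |w| := by norm_num

theorem bd_aux3 {u z : ℝ} (hz : |z| ≤ 145 / 16) : -(u * z) ≤ 145 / 16 * |u| := by
  refine (neg_le_abs _).trans ?_
  rw [abs_mul, mul_comm]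
  gcongr

theorem bd_aux4 {a x p : ℝ} (ha : |a| ≤ 9 / 8) (hx : |x| ≤ 2) (hp : |p| ≤ 4) :
    |a * x - p| ≤ 25 / 4 := by
  have h1 : |a * x| ≤ 9 / 8 * 2 := by
    rw [abs_mul]
    gcongr
  calc |a * x - p| ≤ |a * x| + |p| := abs_sub _ _
    _ ≤ 25 / 4 := by norm_num at h1 ⊢; linarith

theorem bd_main {a b c x p q r : ℝ} (ha : |a| ≤ 9 / 8) (hb : |b| ≤ 9 / 8) (hc : |c| ≤ 9 / 8)
    (hx : |x| ≤ 2) (hp : |p| ≤ 4) (hq : |q| ≤ 4) (hr : |r| ≤ 4) :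
    (8 / 9) * ((1 - x ^ 2) + (1 / 3) *
    ((p ^ 2 - a * x * p + a * q * r) + (q ^ 2 - b * x * q + b * r * p) +
     (r ^ 2 - c * x * r + c * p * q)) - a * b * c) ≤
    (8 / 9) * ((1 - x ^ 2) * (1 - a * b * c)) +
      5 * (|a * x - p| + |b * x - q| + |c * x - r|) := by
  have u1 := bd_aux4 ha hx hp
  have v1 := bd_aux4 hb hx hq
  have w1 := bd_aux4 hc hx hr
  have k1 := bd_aux3 (u := a * x - p) (bd_aux1 hx hb hc hp)
  have k2 := bd_aux3 (u := b * x - q) (bd_aux1 hx ha hc hq)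
  have k3 := bd_aux3 (u := c * x - r) (bd_aux1 hx ha hb hr)
  have l1 := bd_aux2 (w := c * x - r) ha v1
  have l2 := bd_aux2 (w := a * x - p) hb w1
  have l3 := bd_aux2 (w := b * x - q) hc u1
  have id : (1 - x ^ 2) + (1 / 3) *
    ((p ^ 2 - a * x * p + a * q * r) + (q ^ 2 - b * x * q + b * r * p) +
     (r ^ 2 - c * x * r + c * p * q)) - a * b * c = (1 - x ^ 2) * (1 - a * b * c) +
     (1 / 3) * (-((a * x - p) * (p + 2 * x * b * c)) + -((b * x - q) * (q + 2 * x * a * c)) +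
      -((c * x - r) * (r + 2 * x * a * b))) +
     (1 / 3) * (a * (b * x - q) * (c * x - r) + b * (c * x - r) * (a * x - p) +
      c * (a * x - p) * (b * x - q)) := by ring
  rw [id]
  have n1 := abs_nonneg (a * x - p)
  have n2 := abs_nonneg (b * x - q)
  have n3 := abs_nonneg (c * x - r)
  linarith

theorem bd_prod {a b c : ℝ} (ha : |a| ≤ 9 / 8) (hb : |b| ≤ 9 / 8) (hc : |c| ≤ 9 / 8) :
    |a * b * c| ≤ 729 / 512 := by
  rw [abs_mul, abs_mul]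
  calc |a| * |b| * |c| ≤ 9 / 8 * (9 / 8) * (9 / 8) := by gcongr
    _ = 729 / 512 := by norm_num

theorem bd_caseB {a x p : ℝ} (ha : |a| = 9 / 8) (hx : |x| ≤ 1) (hp : |p| ≤ 4) :
    (153 / 64) * (1 - x ^ 2) - 77 * |a * x - p| ≤ 9 * (a ^ 2 - 1 + x ^ 2 - p ^ 2) := by
  have ha2 : a ^ 2 = 81 / 64 := by rw [← sq_abs, ha]; norm_num
  have u1 := bd_aux4 ha.le (hx.trans (by norm_num)) hp
  have h1 : -(2 * a * x * (a * x - p)) ≤ 9 / 4 * |a * x - p| := by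
    refine (neg_le_abs _).trans ?_
    rw [abs_mul, abs_mul, abs_mul, abs_two, ha]
    calc 2 * (9 / 8) * |x| * |a * x - p| ≤ 2 * (9 / 8) * 1 * |a * x - p| := by gcongr
      _ = 9 / 4 * |a * x - p| := by norm_num
  have h2 : (a * x - p) ^ 2 ≤ 25 / 4 * |a * x - p| := by
    rw [← sq_abs, sq]
    gcongr
  have id : 9 * (a ^ 2 - 1 + x ^ 2 - p ^ 2) = 9 * ((a ^ 2 - 1) * (1 - x ^ 2)) +
      9 * (2 * a * x * (a * x - p)) - 9 * (a * x - p) ^ 2 := by ring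
  rw [id, ha2]
  have n1 := abs_nonneg (a * x - p)
  linarith

theorem bd_caseC {a x p : ℝ} (ha : |a| ≤ 9 / 8) (hx : |x| ≤ 1) (hp : |p| = 4) :
    23 / 8 ≤ |a * x - p| := by
  have h1 : |a * x| ≤ 9 / 8 * 1 := by
    rw [abs_mul]
    gcongr
  have h2 := abs_sub_abs_le_abs_sub p (a * x)
  rw [abs_sub_comm p] at h2
  linarith

theorem bd_scalar {a b c x p q r : ℝ} (ha : |a| ≤ 9 / 8) (hb : |b| ≤ 9 / 8) (hc : |c| ≤ 9 / 8)
    (hx : |x| ≤ 2) (hp : |p| ≤ 4) (hq : |q| ≤ 4) (hr : |r| ≤ 4) {m k : ℝ}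
    (hm0 : 0 ≤ m) (hma : a ^ 2 - 1 + x ^ 2 - p ^ 2 ≤ m) (hmb : b ^ 2 - 1 + x ^ 2 - q ^ 2 ≤ m)
    (hmc : c ^ 2 - 1 + x ^ 2 - r ^ 2 ≤ m) (hk0 : 0 ≤ k) (hk : |x| - 1 ≤ k)
    (hB : (|a| = 9 / 8 ∨ |b| = 9 / 8 ∨ |c| = 9 / 8) ∨ |x| = 2 ∨
      (|p| = 4 ∨ |q| = 4 ∨ |r| = 4)) :
    (8 / 9) * ((1 - x ^ 2) + (1 / 3) *
    ((p ^ 2 - a * x * p + a * q * r) + (q ^ 2 - b * x * q + b * r * p) +
     (r ^ 2 - c * x * r + c * p * q)) - a * b * c) ≤
    200 * (|a * x - p| + |b * x - q| + |c * x - r|) + 9 * m + 2 * k := by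
  refine (bd_main ha hb hc hx hp hq hr).trans ?_
  have hM := abs_le.1 (bd_prod ha hb hc)
  have n1 := abs_nonneg (a * x - p)
  have n2 := abs_nonneg (b * x - q)
  have n3 := abs_nonneg (c * x - r)
  rcases le_or_gt 1 |x| with h1 | h1
  · -- |x| ≥ 1
    have hx2 : x ^ 2 = |x| ^ 2 := (sq_abs x).symm
    have h2 : x ^ 2 - 1 ≤ 3 * (|x| - 1) := by rw [hx2]; nlinarith
    have h3 : 0 ≤ x ^ 2 - 1 := by rw [hx2]; nlinarith
    have h4 : (1 - x ^ 2) * (1 - a * b * c) ≤ (x ^ 2 - 1) * (217 / 512) := by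
      have : (1 - x ^ 2) * (1 - a * b * c) = (x ^ 2 - 1) * (a * b * c - 1) := by ring
      rw [this]
      exact mul_le_mul_of_nonneg_left (by linarith [hM.2]) h3
    linarith
  · have h3 : 0 ≤ 1 - x ^ 2 := by
      have hx2 : x ^ 2 = |x| ^ 2 := (sq_abs x).symm
      have := abs_nonneg x
      rw [hx2]; nlinarith
    have h3' : 1 - x ^ 2 ≤ 1 := by nlinarith [sq_nonneg x]
    have h4 : (1 - x ^ 2) * (1 - a * b * c) ≤ (1 - x ^ 2) * (1241 / 512) :=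
      mul_le_mul_of_nonneg_left (by linarith [hM.1]) h3
    rcases hB with (h | h | h) | h | (h | h | h)
    · have := bd_caseB h h1.le hp
      linarith
    · have := bd_caseB h h1.le hq
      linarith
    · have := bd_caseB h h1.le hr
      linarith
    · linarith
    · have := bd_caseC ha h1.le h
      linarith
    · have := bd_caseC hb h1.le h
      linarith
    · have := bd_caseC hc h1.le h
      linarith

theorem bd_ineq (M : Fin 3 → ℝ) (y0 : ℝ) (y : Fin 3 → ℝ) (hM : ∀ i, |M i| ≤ 9 / 8)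
    (hy0 : |y0| ≤ 2) (hy : ∀ i, |y i| ≤ 4)
    (hb : (∃ i, |M i| = 9 / 8) ∨ |y0| = 2 ∨ ∃ i, |y i| = 4) :
    (8 / 9) * Psi M y0 y ≤ 200 * ∑ i, |M i * y0 - y i| +
      9 * max 0 (max (M 0 ^ 2 - 1 + y0 ^ 2 - y 0 ^ 2)
        (max (M 1 ^ 2 - 1 + y0 ^ 2 - y 1 ^ 2) (M 2 ^ 2 - 1 + y0 ^ 2 - y 2 ^ 2))) +
      2 * max 0 (|y0| - 1) := by
  have hB : (|M 0| = 9 / 8 ∨ |M 1| = 9 / 8 ∨ |M 2| = 9 / 8) ∨ |y0| = 2 ∨
      (|y 0| = 4 ∨ |y 1| = 4 ∨ |y 2| = 4) := by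
    rcases hb with ⟨i, hi⟩ | h | ⟨i, hi⟩
    · left
      fin_cases i
      · exact Or.inl hi
      · exact Or.inr (Or.inl hi)
      · exact Or.inr (Or.inr hi)
    · exact Or.inr (Or.inl h)
    · right; right
      fin_cases i
      · exact Or.inl hi
      · exact Or.inr (Or.inl hi)
      · exact Or.inr (Or.inr hi)
  rw [Fin.sum_univ_three]
  unfold Psi
  exact bd_scalar (hM 0) (hM 1) (hM 2) hy0 (hy 0) (hy 1) (hy 2)
    (le_max_left _ _) ((le_max_left _ _).trans (le_max_right _ _))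
    (((le_max_left _ _).trans (le_max_right _ _)).trans (le_max_right _ _))
    (((le_max_right _ _).trans (le_max_right _ _)).trans (le_max_right _ _))
    (le_max_left _ _) (le_max_right _ _) hB



end TwoWell.JR6
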