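import Pool.Agent.TwoWell.Defs2
set_option autoImplicit false
open Set
namespace TwoWell.JR7



lemma S1_nonneg (p : Fin 11 → ℝ) : 0 ≤ S1 p := Finset.sum_nonneg fun _ _ => abs_nonneg _

lemma le_S1 (p : Fin 11 → ℝ) (a : Fin 11) : |p a| ≤ S1 p :=
  Finset.single_le_sum (f := fun a => |p a|) (fun _ _ => abs_nonneg _) (Finset.mem_univ a)

lemma kk_abs (j : Fin 8) (i : Fin 3) : |kk j i| = 1 := by
  fin_cases j <;> fin_cases i <;> simp [kk]

lemma mlt_bd : ∃ c : ℝ, 0 ≤ c ∧ ∀ (p s : Fin 11 → ℝ) (a b : Fin 11),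
    |mlt p s a b - p a * p b| ≤ c * S1 s * (S1 p + S1 s) := by
  set c : ℝ := ∑ a, ∑ b, |cc a b| with hc
  have hc0 : 0 ≤ c := Finset.sum_nonneg fun _ _ => Finset.sum_nonneg fun _ _ => abs_nonneg _
  have hcc : ∀ a b, |cc a b| ≤ c := by
    intro a b
    have h1 : |cc a b| ≤ ∑ b, |cc a b| :=
      Finset.single_le_sum (f := fun b => |cc a b|) (fun _ _ => abs_nonneg _) (Finset.mem_univ b)
    have h2 : ∑ b, |cc a b| ≤ c :=
      Finset.single_le_sum (f := fun a => ∑ b, |cc a b|)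
        (fun _ _ => Finset.sum_nonneg fun _ _ => abs_nonneg _) (Finset.mem_univ a)
    exact h1.trans h2
  refine ⟨1 + 2 * c, by positivity, fun p s a b => ?_⟩
  have hp := S1_nonneg p
  have hs := S1_nonneg s
  have e : mlt p s a b - p a * p b = s a * s b + cc a b * (p a * s b - s a * p b) := by
    unfold mlt; ring
  rw [e]
  have h1 : |s a * s b| ≤ S1 s * S1 s := by
    rw [abs_mul]
    exact mul_le_mul (le_S1 s a) (le_S1 s b) (abs_nonneg _) hs
  have h2 : |p a * s b - s a * p b| ≤ 2 * (S1 p * S1 s) := by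
    have h3 : |p a * s b| ≤ S1 p * S1 s := by
      rw [abs_mul]
      exact mul_le_mul (le_S1 p a) (le_S1 s b) (abs_nonneg _) hp
    have h4 : |s a * p b| ≤ S1 s * S1 p := by
      rw [abs_mul]
      exact mul_le_mul (le_S1 s a) (le_S1 p b) (abs_nonneg _) hs
    have := abs_sub (p a * s b) (s a * p b)
    linarith
  have h5 : |cc a b * (p a * s b - s a * p b)| ≤ c * (2 * (S1 p * S1 s)) := by
    rw [abs_mul]
    exact mul_le_mul (hcc a b) h2 (abs_nonneg _) hc0
  have h6 := abs_add_le (s a * s b) (cc a b * (p a * s b - s a * p b))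
  nlinarith [mul_nonneg hp hs, mul_nonneg hs hs, mul_nonneg hc0 (mul_nonneg hs hs)]

theorem err_bd : ∃ C : ℝ, 0 ≤ C ∧ ∀ (p s : Fin 11 → ℝ) (i : Fin 3),
    |Ul p s i - (p (iM i) * Y0 p - Yv p i)| ≤ C * S1 s * (S1 p + S1 s) ∧
    |Nl p s i - (p (iM i) ^ 2 - 1 + Y0 p ^ 2 - Yv p i ^ 2)| ≤ C * S1 s * (S1 p + S1 s) := by
  obtain ⟨c, hc0, hc⟩ := mlt_bd
  refine ⟨128 * c, by positivity, fun p s i => ?_⟩
  have hp := S1_nonneg p
  have hs := S1_nonneg s
  set B := c * S1 s * (S1 p + S1 s) with hB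
  have hB0 : 0 ≤ B := by positivity
  have hB' : 128 * c * S1 s * (S1 p + S1 s) = 128 * B := by rw [hB]; ring
  rw [hB']
  constructor
  · have e : Ul p s i - (p (iM i) * Y0 p - Yv p i) =
        ∑ j, (mlt p s (iM i) (iz j) - p (iM i) * p (iz j)) := by
      unfold Ul Y0
      rw [Finset.sum_sub_distrib, ← Finset.mul_sum]
      ring
    rw [e]
    refine (Finset.abs_sum_le_sum_abs _ _).trans ?_
    calc ∑ j : Fin 8, |mlt p s (iM i) (iz j) - p (iM i) * p (iz j)| ≤ ∑ _j : Fin 8, B :=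
          Finset.sum_le_sum fun j _ => hc p s _ _
      _ = 8 * B := by simp
      _ ≤ 128 * B := by linarith
  · have e : Nl p s i - (p (iM i) ^ 2 - 1 + Y0 p ^ 2 - Yv p i ^ 2) =
        ∑ j, ∑ l, (1 - kk j i * kk l i) * (mlt p s (iz j) (iz l) - p (iz j) * p (iz l)) := by
      have e1 : Y0 p ^ 2 - Yv p i ^ 2 = ∑ j, ∑ l, (1 - kk j i * kk l i) * (p (iz j) * p (iz l)) := by
        unfold Y0 Yv
        rw [sq, sq, Finset.sum_mul_sum, Finset.sum_mul_sum, ← Finset.sum_sub_distrib]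
        refine Finset.sum_congr rfl fun j _ => ?_
        rw [← Finset.sum_sub_distrib]
        refine Finset.sum_congr rfl fun l _ => ?_
        ring
      have e2 : ∑ j, ∑ l, (1 - kk j i * kk l i) * (mlt p s (iz j) (iz l) - p (iz j) * p (iz l)) =
          ∑ j, ∑ l, (1 - kk j i * kk l i) * mlt p s (iz j) (iz l) -
          ∑ j, ∑ l, (1 - kk j i * kk l i) * (p (iz j) * p (iz l)) := by
        rw [← Finset.sum_sub_distrib]
        refine Finset.sum_congr rfl fun j _ => ?_
        rw [← Finset.sum_sub_distrib]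
        refine Finset.sum_congr rfl fun l _ => ?_
        ring
      rw [e2, ← e1]
      unfold Nl
      ring
    rw [e]
    refine (Finset.abs_sum_le_sum_abs _ _).trans ?_
    have h1 : ∀ j : Fin 8, |∑ l, (1 - kk j i * kk l i) * (mlt p s (iz j) (iz l) - p (iz j) * p (iz l))|
        ≤ 16 * B := by
      intro j
      refine (Finset.abs_sum_le_sum_abs _ _).trans ?_
      calc ∑ l : Fin 8, |(1 - kk j i * kk l i) * (mlt p s (iz j) (iz l) - p (iz j) * p (iz l))|
          ≤ ∑ _l : Fin 8, 2 * B := by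
            refine Finset.sum_le_sum fun l _ => ?_
            rw [abs_mul]
            refine mul_le_mul ?_ (hc p s _ _) (abs_nonneg _) (by norm_num)
            have h2 := abs_sub 1 (kk j i * kk l i)
            rw [abs_mul, kk_abs, kk_abs] at h2
            norm_num at h2
            linarith
        _ = 16 * B := by simp; ring
    calc ∑ j : Fin 8, |∑ l, (1 - kk j i * kk l i) * (mlt p s (iz j) (iz l) - p (iz j) * p (iz l))|
        ≤ ∑ _j : Fin 8, 16 * B := Finset.sum_le_sum fun j _ => h1 j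
      _ = 128 * B := by simp; ring


end TwoWell.JR7
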