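import Pool.Agent.TwoWell.Defs2
set_option autoImplicit false
open Set
namespace TwoWell.JR8



theorem bd_AB_S1 (p : Fin 11 → ℝ) : S1 p ^ 2 ≤ 11 * nrm p := by
  unfold S1 nrm
  have h := sq_sum_le_card_mul_sum_sq (s := (Finset.univ : Finset (Fin 11))) (f := fun a => |p a|)
  simp only [sq_abs, Finset.card_univ, Fintype.card_fin] at h
  exact_mod_cast h

theorem bd_AB_young (c x y : ℝ) : c * x * y ≤ (1 / 11000) * y ^ 2 + (c ^ 2 * 2750) * x ^ 2 := by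
  nlinarith [sq_nonneg (y - 5500 * c * x)]

theorem bd_AB_max {a b c a' b' c' D : ℝ} (ha : |a - a'| ≤ D) (hb : |b - b'| ≤ D)
    (hc : |c - c'| ≤ D) (hD : 0 ≤ D) :
    max 0 (max a' (max b' c')) ≤ max 0 (max a (max b c)) + D := by
  have h1 := (abs_le.1 ha).1
  have h2 := (abs_le.1 hb).1
  have h3 := (abs_le.1 hc).1
  have m0 : 0 ≤ max 0 (max a (max b c)) := le_max_left _ _
  have ma : a ≤ max 0 (max a (max b c)) := (le_max_left _ _).trans (le_max_right _ _)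
  have mb : b ≤ max 0 (max a (max b c)) :=
    ((le_max_left _ _).trans (le_max_right _ _)).trans (le_max_right _ _)
  have mc : c ≤ max 0 (max a (max b c)) :=
    ((le_max_right _ _).trans (le_max_right _ _)).trans (le_max_right _ _)
  refine max_le (by linarith) (max_le (by linarith) (max_le (by linarith) (by linarith)))

theorem bd_AB_abs {a b D : ℝ} (h : |a - b| ≤ D) : |b| ≤ |a| + D := by
  have h1 : |b| - |a| ≤ |b - a| := abs_sub_abs_le_abs_sub b a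
  rw [abs_sub_comm] at h1
  linarith

theorem bd_AB
    (h6 : ∀ (M : Fin 3 → ℝ) (y0 : ℝ) (y : Fin 3 → ℝ), (∀ i, |M i| ≤ 9 / 8) → |y0| ≤ 2 → (∀ i, |y i| ≤ 4) →
      ((∃ i, |M i| = 9 / 8) ∨ |y0| = 2 ∨ ∃ i, |y i| = 4) →
      (8 / 9) * Psi M y0 y ≤ 200 * ∑ i, |M i * y0 - y i| +
      9 * max 0 (max (M 0 ^ 2 - 1 + y0 ^ 2 - y 0 ^ 2)
        (max (M 1 ^ 2 - 1 + y0 ^ 2 - y 1 ^ 2) (M 2 ^ 2 - 1 + y0 ^ 2 - y 2 ^ 2))) +
      2 * max 0 (|y0| - 1))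
    (h7 : ∃ C : ℝ, 0 ≤ C ∧ ∀ (p s : Fin 11 → ℝ) (i : Fin 3),
    |Ul p s i - (p (iM i) * Y0 p - Yv p i)| ≤ C * S1 s * (S1 p + S1 s) ∧
    |Nl p s i - (p (iM i) ^ 2 - 1 + Y0 p ^ 2 - Yv p i ^ 2)| ≤ C * S1 s * (S1 p + S1 s))
    (KA : ℝ) : ∃ KB0 : ℝ, 0 ≤ KB0 ∧ ∀ KB, KB0 ≤ KB → ∀ p s : Fin 11 → ℝ, bdN p →
    GA KA p s ≤ GB KB p s := by
  obtain ⟨C, hC, h7⟩ := h7
  refine ⟨max 0 (KA + ((609 * C) ^ 2 * 2750 * 11 + 609 * 11 * C)), le_max_left _ _, ?_⟩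
  intro KB hKB p s hbd
  have hKB' : KA + ((609 * C) ^ 2 * 2750 * 11 + 609 * 11 * C) ≤ KB := (le_max_right _ _).trans hKB
  obtain ⟨⟨i1, i2, i3⟩, hb⟩ := hbd
  have H := h6 (fun i => p (iM i)) (Y0 p) (Yv p) i1 i2 i3 hb
  set D : ℝ := C * S1 s * (S1 p + S1 s) with hDdef
  have hSs : 0 ≤ S1 s := Finset.sum_nonneg fun a _ => abs_nonneg _
  have hSp : 0 ≤ S1 p := Finset.sum_nonneg fun a _ => abs_nonneg _
  have hD : 0 ≤ D := by positivity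
  have hu : ∑ i, |p (iM i) * Y0 p - Yv p i| ≤ ∑ i, |Ul p s i| + 3 * D := by
    have : ∑ i, |p (iM i) * Y0 p - Yv p i| ≤ ∑ i : Fin 3, (|Ul p s i| + D) :=
      Finset.sum_le_sum fun i _ => bd_AB_abs (h7 p s i).1
    refine this.trans (le_of_eq ?_)
    rw [Finset.sum_add_distrib]
    simp
  have hm := bd_AB_max (h7 p s 0).2 (h7 p s 1).2 (h7 p s 2).2 hD
  have hPhi : (8 / 9) * Psi (fun i => p (iM i)) (Y0 p) (Yv p) ≤ Phi p s + 609 * D := by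
    unfold Phi
    linarith
  have e1 := bd_AB_S1 p
  have e2 := bd_AB_S1 s
  have e3 := bd_AB_young (609 * C) (S1 s) (S1 p)
  have n1 : 0 ≤ nrm p := Finset.sum_nonneg fun a _ => sq_nonneg _
  have n2 : 0 ≤ nrm s := Finset.sum_nonneg fun a _ => sq_nonneg _
  have e4 : 609 * D = 609 * C * S1 s * S1 p + 609 * C * S1 s ^ 2 := by rw [hDdef]; ring
  have e5 : (609 * C) ^ 2 * 2750 * S1 s ^ 2 ≤ (609 * C) ^ 2 * 2750 * (11 * nrm s) :=
    mul_le_mul_of_nonneg_left e2 (by positivity)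
  have e6 : 609 * C * S1 s ^ 2 ≤ 609 * C * (11 * nrm s) :=
    mul_le_mul_of_nonneg_left e2 (by positivity)
  have e7 : 609 * D ≤ (1 / 1000) * nrm p + ((609 * C) ^ 2 * 2750 * 11 + 609 * 11 * C) * nrm s := by
    rw [e4]
    linarith
  have e8 : (KA + ((609 * C) ^ 2 * 2750 * 11 + 609 * 11 * C)) * nrm s ≤ KB * nrm s :=
    mul_le_mul_of_nonneg_right hKB' n2
  unfold GA GB
  have e9 : (KA + ((609 * C) ^ 2 * 2750 * 11 + 609 * 11 * C)) * nrm s = KA * nrm s +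
    ((609 * C) ^ 2 * 2750 * 11 + 609 * 11 * C) * nrm s := by ring
  rw [e9] at e8
  linarith



end TwoWell.JR8
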