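import Pool.Agent.TwoWell.Defs2
set_option autoImplicit false
open Set
namespace TwoWell.JR9

theorem GA_le_mul {a b A : ℝ} (h : |a| ≤ A) : a * b ≤ A * |b| := by
  calc a * b ≤ |a * b| := le_abs_self _
    _ = |a| * |b| := abs_mul _ _
    _ ≤ A * |b| := by gcongr

theorem GA_le_quad (e : ℝ) : 8 * |e| ≤ 128000 * e ^ 2 + 1 / 8000 := by
  have h : |e| ^ 2 = e ^ 2 := sq_abs e
  nlinarith [sq_nonneg (|e| - 1 / 32000)]

theorem GA_le_Psi (M y : Fin 3 → ℝ) (y0 sg : ℝ) (hs : sg = 1 ∨ sg = -1)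
    (hM : ∀ i, |M i| ≤ 9 / 8) (hy0 : |y0| ≤ 2) (hy : ∀ i, |y i| ≤ 4) :
    Psi M y0 y ≤ 8 * |y0 - sg| + 4 * (|y 0 - sg * M 0| + |y 1 - sg * M 1| + |y 2 - sg * M 2|) := by
  have hs2 : sg ^ 2 = 1 := by rcases hs with rfl | rfl <;> norm_num
  have hsa : |sg| = 1 := by rcases hs with rfl | rfl <;> norm_num
  set e0 := y0 - sg with he0
  set e1 := y 0 - sg * M 0 with he1
  set e2 := y 1 - sg * M 1 with he2
  set e3 := y 2 - sg * M 2 with he3
  have key : Psi M y0 y = -(sg + y0) * e0 +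
      (1 / 3) * ((y 0 * e1 + -(y 0 * M 0) * e0) + (y 1 * e2 + -(y 1 * M 1) * e0) +
        (y 2 * e3 + -(y 2 * M 2) * e0)) +
      (1 / 3) * (((M 0 * (sg * M 1)) * e3 + (M 0 * y 2) * e2) +
        ((M 1 * (sg * M 2)) * e1 + (M 1 * y 0) * e3) +
        ((M 2 * (sg * M 0)) * e2 + (M 2 * y 1) * e1)) := by
    simp only [Psi, he0, he1, he2, he3]
    linear_combination (-1 + M 0 * M 1 * M 2) * hs2
  have b0 : |-(sg + y0)| ≤ 3 := by
    rw [abs_neg]; exact (abs_add_le _ _).trans (by rw [hsa]; linarith)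
  have by1 : ∀ i j, |-(y i * M j)| ≤ 9 / 2 := by
    intro i j
    rw [abs_neg, abs_mul]
    have := mul_le_mul (hy i) (hM j) (abs_nonneg _) (by norm_num)
    linarith
  have bM : ∀ i j, |M i * (sg * M j)| ≤ 81 / 64 := by
    intro i j
    rw [abs_mul, abs_mul, hsa, one_mul]
    have := mul_le_mul (hM i) (hM j) (abs_nonneg _) (by norm_num)
    linarith
  have bMy : ∀ i j, |M i * y j| ≤ 9 / 2 := by
    intro i j
    rw [abs_mul]
    have := mul_le_mul (hM i) (hy j) (abs_nonneg _) (by norm_num)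
    linarith
  rw [key]
  have t0 := GA_le_mul (b := e0) b0
  have t1 := GA_le_mul (b := e1) (hy 0)
  have t2 := GA_le_mul (b := e2) (hy 1)
  have t3 := GA_le_mul (b := e3) (hy 2)
  have u1 := GA_le_mul (b := e0) (by1 0 0)
  have u2 := GA_le_mul (b := e0) (by1 1 1)
  have u3 := GA_le_mul (b := e0) (by1 2 2)
  have v1 := GA_le_mul (b := e3) (bM 0 1)
  have v2 := GA_le_mul (b := e1) (bM 1 2)
  have v3 := GA_le_mul (b := e2) (bM 2 0)
  have w1 := GA_le_mul (b := e2) (bMy 0 2)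
  have w2 := GA_le_mul (b := e3) (bMy 1 0)
  have w3 := GA_le_mul (b := e1) (bMy 2 1)
  have n0 := abs_nonneg e0
  have n1 := abs_nonneg e1
  have n2 := abs_nonneg e2
  have n3 := abs_nonneg e3
  linarith

theorem GA_le_nrm (p : Fin 11 → ℝ) (sg : ℝ) (hs : sg = 1 ∨ sg = -1) :
    nrm p ≤ 2 * nrm (fun a => p a - sg * pstar a) + 1 / 2 := by
  have hs2 : sg ^ 2 = 1 := by rcases hs with rfl | rfl <;> norm_num
  have h1 : ∀ a, p a ^ 2 ≤ 2 * (p a - sg * pstar a) ^ 2 + 2 * pstar a ^ 2 := by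
    intro a
    have : pstar a ^ 2 = (sg * pstar a) ^ 2 := by rw [mul_pow, hs2, one_mul]
    rw [this]
    nlinarith [sq_nonneg (p a - 2 * (sg * pstar a))]
  have h2 : nrm p ≤ ∑ a, (2 * (p a - sg * pstar a) ^ 2 + 2 * pstar a ^ 2) :=
    Finset.sum_le_sum (fun a _ => h1 a)
  rw [Finset.sum_add_distrib, ← Finset.mul_sum, ← Finset.mul_sum] at h2
  have h3 : ∑ a, pstar a ^ 2 = 1 / 4 := by
    simp [Fin.sum_univ_succ, pstar]
    norm_num
  rw [h3] at h2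
  unfold nrm at *
  linarith

theorem GA_le_nonneg (s : Fin 11 → ℝ) : 0 ≤ nrm s := Finset.sum_nonneg (fun a _ => sq_nonneg _)

theorem GA_le (KA : ℝ) : ∃ k0 K0 : ℝ, 0 ≤ k0 ∧ 0 ≤ K0 ∧ ∀ k K : ℝ, k0 ≤ k → K0 ≤ K →
    ∀ sg : ℝ, (sg = 1 ∨ sg = -1) → ∀ p s : Fin 11 → ℝ, inN p → GA KA p s ≤ Wv k K sg p s := by
  refine ⟨128000, |KA|, by norm_num, abs_nonneg _, ?_⟩
  intro k K hk hK sg hs p s hN
  obtain ⟨h1, h2, h3⟩ := hN
  have hP := GA_le_Psi (fun i => p (iM i)) (Yv p) (Y0 p) sg hs h1 h2 h3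
  have hn := GA_le_nrm p sg hs
  have hs0 := GA_le_nonneg s
  have hp0 := GA_le_nonneg (fun a => p a - sg * pstar a)
  have hKs : KA * nrm s ≤ K * nrm s :=
    mul_le_mul_of_nonneg_right ((le_abs_self _).trans hK) hs0
  have q0 := GA_le_quad (Y0 p - sg)
  have q1 := GA_le_quad (Yv p 0 - sg * p (iM 0))
  have q2 := GA_le_quad (Yv p 1 - sg * p (iM 1))
  have q3 := GA_le_quad (Yv p 2 - sg * p (iM 2))
  have hsum : 128000 * ((Y0 p - sg) ^ 2 + ∑ i, (Yv p i - sg * p (iM i)) ^ 2) ≤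
      k * ((Y0 p - sg) ^ 2 + ∑ i, (Yv p i - sg * p (iM i)) ^ 2) := by
    refine mul_le_mul_of_nonneg_right hk ?_
    exact add_nonneg (sq_nonneg _) (Finset.sum_nonneg (fun i _ => sq_nonneg _))
  rw [Fin.sum_univ_three] at hsum
  unfold GA Wv
  rw [Fin.sum_univ_three]
  have n0 := abs_nonneg (Y0 p - sg)
  have n1 := abs_nonneg (Yv p 0 - sg * p (iM 0))
  have n2 := abs_nonneg (Yv p 1 - sg * p (iM 1))
  have n3 := abs_nonneg (Yv p 2 - sg * p (iM 2))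
  linarith


end TwoWell.JR9
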