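import Pool.Agent.TwoWell.GDefs

set_option autoImplicit false
open MeasureTheory Matrix

namespace GClosure

/-- the phase function of a measurable periodic partition into `k` phases: `φ x` is the phase
at the point `x` -/
def IsPhase {k : ℕ} (φ : (Fin 2 → ℝ) → Fin k) : Prop :=
  Measurable φ ∧ ∀ (x : Fin 2 → ℝ) (z : Fin 2 → ℤ), φ (x + fun i => (z i : ℝ)) = φ x

/-- the current `J = L(x) E` is divergence free (weakly, on the torus) -/
def IsCurrentK {n k : ℕ} (L : Fin k → Tens n) (φ : (Fin 2 → ℝ) → Fin k)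
    (E : (Fin 2 → ℝ) → Mt n) : Prop :=
  ∀ u : (Fin 2 → ℝ) → (Fin n → ℝ), IsPot u → ∫ x in cell, (L (φ x) *ᵥ E x) ⬝ᵥ grad u x = 0

/-- `Ls` is the effective tensor: it maps the average field to the average current -/
def IsEffK {n k : ℕ} (L : Fin k → Tens n) (φ : (Fin 2 → ℝ) → Fin k) (Ls : Tens n) : Prop :=
  ∀ E0 : Mt n, ∃ E : (Fin 2 → ℝ) → Mt n, IsField E0 E ∧ IsCurrentK L φ E ∧
    ∀ p, ∫ x in cell, (L (φ x) *ᵥ E x) p = (Ls *ᵥ E0) p

/-- the closure of the set of all effective tensors of the phases `L 0, ..., L (k - 1)`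
(all volume fractions) -/
def GK {n k : ℕ} (L : Fin k → Tens n) : Set (Tens n) :=
  closure {Ls | ∃ φ : (Fin 2 → ℝ) → Fin k, IsPhase φ ∧ IsEffK L φ Ls}

/-- the effective tensors of multiple-rank laminates of the phases -/
inductive IsLamK {n k : ℕ} (L : Fin k → Tens n) : Tens n → Prop
  | pure (i : Fin k) : IsLamK L (L i)
  | layer (t : ℝ) (v : Fin 2 → ℝ) (A B C : Tens n) (hA : IsLamK L A) (hB : IsLamK L B)
      (ht0 : 0 ≤ t) (ht1 : t ≤ 1) (hv : v ≠ 0) (h : IsLayer t v A B C) : IsLamK L C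

/-- the lamination closure (all volume fractions) -/
def GLK {n k : ℕ} (L : Fin k → Tens n) : Set (Tens n) := closure {C | IsLamK L C}

/-- the least `n ≥ 1` for which some `k` self-adjoint positive definite phases on `2 × n` matrices
have a lamination closure different from the `G`-closure (infinite if there is none) -/
noncomputable def nL (k : ℕ) : ℕ∞ :=
  sInf {m | ∃ n : ℕ, 1 ≤ n ∧ m = (n : ℕ∞) ∧
    ∃ L : Fin k → Tens n, (∀ i, (L i).PosDef) ∧ GK L ≠ GLK L}

end GClosure
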