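import Pool.Agent.TwoWell.GFinal
import Pool.Agent.TwoWell.KDefs
import Pool.Agent.TwoWell.JK1
set_option autoImplicit false
open MeasureTheory Matrix
namespace GClosure
open TwoWell

/-- two phases, a rank-one convex lower bound of both energies, and a microstructure whose
effective energy is smaller at one average field -/
theorem two_phase_core : ∃ (M1 M2 : Tens 12) (gh : Mt 12 → ℝ) (A : Set (Fin 2 → ℝ)) (Ls : Tens 12)
    (E0 : Mt 12), M1.PosDef ∧ M2.PosDef ∧
    (∀ (E : Mt 12) (a : Fin 2 → ℝ) (b : Fin 12 → ℝ),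
      ConvexOn ℝ Set.univ (fun t : ℝ => gh (E + t • fun p : Ix 12 => a p.1 * b p.2))) ∧
    (∀ E, gh E ≤ E ⬝ᵥ (M1 *ᵥ E)) ∧ (∀ E, gh E ≤ E ⬝ᵥ (M2 *ᵥ E)) ∧
    IsMicro A ∧ IsEff M1 M2 A Ls ∧ E0 ⬝ᵥ (Ls *ᵥ E0) < gh E0 := by
  classical
  obtain ⟨KA, KB, hKA, hKB, hconv⟩ := GG_convexOn
  obtain ⟨k, K, hk, hK, hle⟩ := GG_le KA KB
  obtain ⟨L1, sym1, pd1, eq1⟩ := exists_well k K hk hK 1 (Or.inl rfl)
  obtain ⟨L2, sym2, pd2, eq2⟩ := exists_well k K hk hK (-1) (Or.inr rfl)
  obtain ⟨u, hu, hper, hint⟩ := Qside k K hk hK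
  let g : Matrix (Fin 2) (Fin 11) ℝ → ℝ := fun H => GG KA KB (pp H) (ss H)
  have hg1 : ∀ H, g H ≤ Matrix.trace ((H - (1 : ℝ) • Fst) * (L1 (H - (1 : ℝ) • Fst))ᵀ) + 1 / 100 := by
    intro H; rw [eq1 H]; exact hle 1 (Or.inl rfl) _ _
  have hg2 : ∀ H, g H ≤ Matrix.trace ((H - (-1 : ℝ) • Fst) * (L2 (H - (-1 : ℝ) • Fst))ᵀ) + 1 / 100 := by
    intro H; rw [eq2 H]; exact hle (-1) (Or.inr rfl) _ _
  obtain ⟨N1, hN1, q1⟩ := quad_lower L1 sym1 pd1 ((1 : ℝ) • Fst) g hg1
  obtain ⟨N2, hN2, q2⟩ := quad_lower L2 sym2 pd2 ((-1 : ℝ) • Fst) g hg2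
  let N : ℝ := max N1 N2 + 1
  have hN : 0 < N := by
    have := le_max_left N1 N2
    simp only [N]; linarith
  have hNN1 : N1 ≤ N := by
    have := le_max_left N1 N2
    simp only [N]; linarith
  have hNN2 : N2 ≤ N := by
    have := le_max_right N1 N2
    simp only [N]; linarith
  obtain ⟨M1, pM1, e1⟩ := exists_tensor L1 sym1 pd1 ((1 : ℝ) • Fst) N hN
  obtain ⟨M2, pM2, e2⟩ := exists_tensor L2 sym2 pd2 ((-1 : ℝ) • Fst) N hN
  -- the two energies along the test field
  let Fx : (Fin 2 → ℝ) → Matrix (Fin 2) (Fin 11) ℝ := fun x =>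
    F0m + Matrix.of (fun (i : Fin 2) (c : Fin 11) => fderiv ℝ u x (Pi.single i (1 : ℝ)) c)
  let W1 : (Fin 2 → ℝ) → ℝ := fun x => Wv k K 1 (pp (Fx x)) (ss (Fx x))
  let W2 : (Fin 2 → ℝ) → ℝ := fun x => Wv k K (-1) (pp (Fx x)) (ss (Fx x))
  have cF : Continuous Fx := by
    refine continuous_const.add (continuous_matrix ?_)
    intro i j
    have h1 : Continuous (fderiv ℝ u) := hu.continuous_fderiv (by norm_num)
    have h2 : Continuous (fun x => fderiv ℝ u x (Pi.single i (1 : ℝ))) := h1.clm_apply continuous_const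
    exact (continuous_apply j).comp h2
  have cTr : ∀ (L : Matrix (Fin 2) (Fin 11) ℝ →ₗ[ℝ] Matrix (Fin 2) (Fin 11) ℝ)
      (X : Matrix (Fin 2) (Fin 11) ℝ),
      Continuous (fun H => Matrix.trace ((H - X) * (L (H - X))ᵀ) + 1 / 100) := by
    intro L X
    have hL : Continuous L := L.continuous_of_finiteDimensional
    have h1 : Continuous (fun H : Matrix (Fin 2) (Fin 11) ℝ => H - X) := continuous_id.sub continuous_const
    have h2 : Continuous (fun H : Matrix (Fin 2) (Fin 11) ℝ => (L (H - X))ᵀ) := (hL.comp h1).matrix_transpose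
    exact ((h1.matrix_mul h2).matrix_trace).add continuous_const
  have cW1 : Continuous W1 := by
    have : W1 = fun x => Matrix.trace ((Fx x - (1 : ℝ) • Fst) * (L1 (Fx x - (1 : ℝ) • Fst))ᵀ) + 1 / 100 := by
      funext x; exact (eq1 (Fx x)).symm
    rw [this]; exact (cTr L1 _).comp cF
  have cW2 : Continuous W2 := by
    have : W2 = fun x => Matrix.trace ((Fx x - (-1 : ℝ) • Fst) * (L2 (Fx x - (-1 : ℝ) • Fst))ᵀ) + 1 / 100 := by
      funext x; exact (eq2 (Fx x)).symm
    rw [this]; exact (cTr L2 _).comp cF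
  let A : Set (Fin 2 → ℝ) := {x | W1 x ≤ W2 x}
  have hAm : MeasurableSet A := (isClosed_le cW1 cW2).measurableSet
  have hFper : ∀ (x : Fin 2 → ℝ) (z : Fin 2 → ℤ), Fx (x + fun i => (z i : ℝ)) = Fx x := by
    intro x z
    have h1 : fderiv ℝ u (x + fun i => (z i : ℝ)) = fderiv ℝ u x := by
      have h2 : (fun y => u (y + fun i => (z i : ℝ))) = u := funext fun y => hper y z
      have h3 := fderiv_comp_add_right (𝕜 := ℝ) (f := u) (x := x) (fun i => (z i : ℝ))
      rw [h2] at h3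
      exact h3.symm
    simp only [Fx, h1]
  have hA : IsMicro A := by
    refine ⟨hAm, fun x z => ?_⟩
    simp only [A, Set.mem_setOf_eq, W1, W2, hFper x z]
  obtain ⟨Ls, hLs, hmin⟩ := exists_eff M1 M2 pM1 pM2 A hAm
  -- lower bound for laminates
  let gh : Mt 12 → ℝ := fun E => (19 / 20) * (g (Fm E) - 1 / 100) + N * (2 * E (0, Fin.last 11) - 1)
  have hgh : ∀ (E : Mt 12) (a : Fin 2 → ℝ) (b : Fin 12 → ℝ),
      ConvexOn ℝ Set.univ (fun t : ℝ => gh (E + t • fun p : Ix 12 => a p.1 * b p.2)) := by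
    intro E a b
    have h := hconv (pp (Fm E)) (ss (Fm E)) _ _
      (JM1b.R1_vecMulVec a (fun j : Fin 11 => b (Fin.castSucc j)))
    have e : ∀ t : ℝ, gh (E + t • fun p : Ix 12 => a p.1 * b p.2) =
        (19 / 20 : ℝ) * GG KA KB (pp (Fm E) + t • pp (Matrix.vecMulVec a (fun j : Fin 11 => b (Fin.castSucc j))))
          (ss (Fm E) + t • ss (Matrix.vecMulVec a (fun j : Fin 11 => b (Fin.castSucc j)))) +
        ((-(19 / 20) * (1 / 100) + N * (2 * E (0, Fin.last 11) - 1)) + t * (N * 2 * (a 0 * b (Fin.last 11)))) := by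
      intro t
      have e1 : (E + t • fun p : Ix 12 => a p.1 * b p.2) (0, Fin.last 11) =
          E (0, Fin.last 11) + t * (a 0 * b (Fin.last 11)) := rfl
      show (19 / 20 : ℝ) * (GG KA KB (pp (Fm (E + t • fun p : Ix 12 => a p.1 * b p.2)))
        (ss (Fm (E + t • fun p : Ix 12 => a p.1 * b p.2))) - 1 / 100) +
        N * (2 * (E + t • fun p : Ix 12 => a p.1 * b p.2) (0, Fin.last 11) - 1) = _
      rw [Fm_line, pp_add_smul, ss_add_smul, e1]
      ring
    have haff : ConvexOn ℝ Set.univ (fun t : ℝ =>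
        (-(19 / 20) * (1 / 100) + N * (2 * E (0, Fin.last 11) - 1)) + t * (N * 2 * (a 0 * b (Fin.last 11)))) := by
      refine ⟨convex_univ, fun x _ y _ c d _ _ hcd => le_of_eq ?_⟩
      simp only [smul_eq_mul]
      have : d = 1 - c := by linarith
      subst this
      ring
    have hsum := (h.smul (by norm_num : (0 : ℝ) ≤ 19 / 20)).add haff
    refine hsum.congr ?_
    intro t _
    exact (e t).symm
  have hb1 : ∀ E, gh E ≤ E ⬝ᵥ (M1 *ᵥ E) := fun E => by rw [e1 E]; exact q1 N hNN1 E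
  have hb2 : ∀ E, gh E ≤ E ⬝ᵥ (M2 *ᵥ E) := fun E => by rw [e2 E]; exact q2 N hNN2 E
  -- value of the lower bound
  have hE0last : E0v (0, Fin.last 11) = 1 := by
    have : E0v (0, Fin.last 11) = (if (0 : Fin 2) = 0 then (1 : ℝ) else 0) :=
      Fin.snoc_last (α := fun _ => ℝ) _ _
    rw [this]; simp
  have hE1last : E0v (1, Fin.last 11) = 0 := by
    have : E0v (1, Fin.last 11) = (if (1 : Fin 2) = 0 then (1 : ℝ) else 0) :=
      Fin.snoc_last (α := fun _ => ℝ) _ _
    rw [this]; simp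
  have hval : (19 / 20) * (208 / 243 - 1 / 100) + N ≤ gh E0v := by
    have h1 : 208 / 243 ≤ g (Fm E0v) := by
      simp only [g]
      rw [Fm_E0v, pp_F0m, ss_F0m]
      exact JR11.GG_val KA KB
    simp only [gh]
    rw [hE0last]
    linarith
  -- the upper bound
  have hup := hmin E0v (uext u) ⟨uext_contDiff u hu, fun x z => by
    simp only [uext, hper x z]⟩
  have hFmx : ∀ x, Fm (E0v + grad (uext u) x) = Fx x := by
    intro x
    ext i j
    have h1 := (grad_uext u hu x i).1 j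
    simp only [Fm, Matrix.of_apply, Pi.add_apply, Fx, Matrix.add_apply, h1]
    congr 1
    simp [E0v]
  have hlast0 : ∀ x, (E0v + grad (uext u) x) (0, Fin.last 11) = 1 := by
    intro x; rw [Pi.add_apply, (grad_uext u hu x 0).2, hE0last]; ring
  have hlast1 : ∀ x, (E0v + grad (uext u) x) (1, Fin.last 11) = 0 := by
    intro x; rw [Pi.add_apply, (grad_uext u hu x 1).2, hE1last]; ring
  have hpt : ∀ x, (E0v + grad (uext u) x) ⬝ᵥ (tens M1 M2 A x *ᵥ (E0v + grad (uext u) x)) =
      min (W1 x) (W2 x) + (N - 1 / 100) := by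
    intro x
    by_cases hx : x ∈ A
    · have : tens M1 M2 A x = M1 := by simp [tens, hx]
      rw [this, e1, hFmx, hlast0, hlast1, min_eq_left hx]
      have h2 := eq1 (Fx x)
      simp only [W1, one_smul] at h2 ⊢
      linarith
    · have : tens M1 M2 A x = M2 := by simp [tens, hx]
      rw [this, e2, hFmx, hlast0, hlast1, min_eq_right (not_le.1 hx).le]
      have h2 := eq2 (Fx x)
      simp only [W2, one_smul] at h2 ⊢
      linarith
  have hI : ∫ x in cell, (E0v + grad (uext u) x) ⬝ᵥ (tens M1 M2 A x *ᵥ (E0v + grad (uext u) x)) ≤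
      4 / 5 + (N - 1 / 100) := by
    rw [integral_congr_ae (Filter.Eventually.of_forall hpt)]
    rw [integral_add ((cW1.min cW2).continuousOn.integrableOn_compact isCompact_cell)
      ((continuous_const (y := N - 1 / 100)).continuousOn.integrableOn_compact isCompact_cell)]
    have h1 : ∫ x in cell, min (W1 x) (W2 x) ≤ 4 / 5 := hint
    have h2 : ∫ _x in cell, (N - 1 / 100) = N - 1 / 100 := by
      rw [setIntegral_const]
      simp [Measure.real, volume_cell]
    rw [h2]
    linarith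
  refine ⟨M1, M2, gh, A, Ls, E0v, pM1, pM2, hgh, hb1, hb2, hA, hLs, ?_⟩
  refine lt_of_le_of_lt (hup.trans hI) (lt_of_lt_of_le ?_ hval)
  norm_num
  linarith


theorem lamK_lower {n k : ℕ} (L : Fin k → Tens n) (g : Mt n → ℝ)
    (hg : ∀ (E : Mt n) (a : Fin 2 → ℝ) (b : Fin n → ℝ),
      ConvexOn ℝ Set.univ (fun t : ℝ => g (E + t • fun p : Ix n => a p.1 * b p.2)))
    (h1 : ∀ i E, g E ≤ E ⬝ᵥ (L i *ᵥ E))
    (C : Tens n) (hC : C ∈ GLK L) (E0 : Mt n) : g E0 ≤ E0 ⬝ᵥ (C *ᵥ E0) := by
  have key : ∀ (C : Tens n), IsLamK L C → ∀ E0 : Mt n, g E0 ≤ E0 ⬝ᵥ (C *ᵥ E0) := by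
    intro C hC
    induction hC with
    | pure i => exact h1 i
    | layer t v A B C hA hB ht0 ht1 hv h ihA ihB =>
      intro E0
      obtain ⟨EA, EB, b, e1, e2, e3, e4⟩ := h E0
      have hconv := hg EB v b
      have h3 := hconv.2 (Set.mem_univ (1 : ℝ)) (Set.mem_univ (0 : ℝ)) ht0 (by linarith : 0 ≤ 1 - t)
        (by ring)
      simp only [smul_eq_mul, mul_one, mul_zero, add_zero, zero_smul, one_smul] at h3
      have h4 : (EB + fun p : Ix n => v p.1 * b p.2) = EA := by
        funext p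
        rw [Pi.add_apply, ← e1]
        ring
      have h5 : (EB + t • fun p : Ix n => v p.1 * b p.2) = E0 := by
        funext p
        rw [Pi.add_apply, Pi.smul_apply, smul_eq_mul, ← e1, ← e2]
        ring
      rw [h4, h5] at h3
      have h6 := layer_id834 t v b E0 EA EB (A *ᵥ EA) (B *ᵥ EB) (C *ᵥ E0) e1 e2 e3 e4
      rw [← h6]
      have h7 : t * g EA ≤ t * (EA ⬝ᵥ (A *ᵥ EA)) := mul_le_mul_of_nonneg_left (ihA EA) ht0
      have h8 : (1 - t) * g EB ≤ (1 - t) * (EB ⬝ᵥ (B *ᵥ EB)) :=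
        mul_le_mul_of_nonneg_left (ihB EB) (by linarith)
      linarith
  have hcl : IsClosed {C : Tens n | g E0 ≤ E0 ⬝ᵥ (C *ᵥ E0)} := by
    apply isClosed_le continuous_const
    exact continuous_const.dotProduct (continuous_id.matrix_mulVec continuous_const)
  exact closure_minimal (fun C hC => key C hC E0) hcl hC

theorem k_phase_gap (k : ℕ) (hk : 2 ≤ k) : ∃ L : Fin k → Tens 12, Function.Injective L ∧
    (∀ i, (L i).PosDef) ∧ ∃ Ls : Tens 12, Ls ∈ GK L ∧ Ls ∉ GLK L := by
  classical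
  obtain ⟨M1, M2, gh, A, Ls, E0, p1, p2, hgh, hb1, hb2, hA, hLs, hlt⟩ := two_phase_core
  obtain ⟨m, rfl⟩ : ∃ m, k = m + 2 := ⟨k - 2, by omega⟩
  have hne : M1 ≠ M2 := by
    rintro rfl
    obtain ⟨E, hE, -, hJ⟩ := hLs E0
    have hmean := mean_field E0 E hE
    have h1 : ∀ p, (Ls *ᵥ E0) p = (M1 *ᵥ E0) p := by
      intro p
      rw [← hJ p]
      have h2 : ∀ x, (tens M1 M1 A x *ᵥ E x) p = ∑ q, M1 p q * E x q := by
        intro x
        have : tens M1 M1 A x = M1 := by simp [tens]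
        rw [this]; rfl
      simp_rw [h2]
      rw [integral_finsetSum _ (fun q _ => ((hE.1 q).integrable (by norm_num)).const_mul _)]
      simp_rw [integral_const_mul, hmean]
      rfl
    have h3 : Ls *ᵥ E0 = M1 *ᵥ E0 := funext h1
    rw [h3] at hlt
    exact absurd (hb1 E0) (not_le.2 hlt)
  let L : Fin (m + 2) → Tens 12 := fun i =>
    if i = 0 then M1 else if i = 1 then M2 else M1 + M2 + (i.val : ℝ) • (1 : Tens 12)
  have hL0 : L 0 = M1 := by simp [L]
  have hL1 : L 1 = M2 := by simp [L]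
  have hLi : ∀ i, i ≠ 0 → i ≠ 1 → L i = M1 + M2 + (i.val : ℝ) • (1 : Tens 12) := by
    intro i h0 h1; simp [L, h0, h1]
  have hpd : ∀ i : Fin (m + 2), i ≠ 0 → (M2 + (i.val : ℝ) • (1 : Tens 12)).PosDef := by
    intro i h0
    have hi : 0 < (i.val : ℝ) := by
      have : i.val ≠ 0 := fun h => h0 (Fin.ext h)
      exact_mod_cast Nat.pos_of_ne_zero this
    exact p2.add (Matrix.PosDef.one.smul hi)
  have hpd' : ∀ i : Fin (m + 2), i ≠ 0 → (M1 + (i.val : ℝ) • (1 : Tens 12)).PosDef := by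
    intro i h0
    have hi : 0 < (i.val : ℝ) := by
      have : i.val ≠ 0 := fun h => h0 (Fin.ext h)
      exact_mod_cast Nat.pos_of_ne_zero this
    exact p1.add (Matrix.PosDef.one.smul hi)
  have hpos : ∀ (M : Tens 12), M.PosDef → ∀ E : Mt 12, 0 ≤ E ⬝ᵥ (M *ᵥ E) := by
    intro M hM E
    have := hM.posSemidef.dotProduct_mulVec_nonneg E
    simpa using this
  have hnz : ∀ M : Tens 12, M.PosDef → M ≠ 0 := by
    rintro M hM rfl
    have := hM.dotProduct_mulVec_pos (x := fun _ => (1 : ℝ)) (by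
      intro h; have := congrFun h (0, 0); simp at this)
    simp at this
  refine ⟨L, ?_, ?_, Ls, ?_, ?_⟩
  · intro i j hij
    by_contra hne'
    by_cases hi0 : i = 0
    · subst hi0
      by_cases hj1 : j = 1
      · subst hj1; exact hne (by rw [← hL0, ← hL1, hij])
      · have hj0 : j ≠ 0 := fun h => hne' h.symm
        rw [hL0, hLi j hj0 hj1, add_assoc] at hij
        exact hnz _ (hpd j hj0) (by simpa using hij.symm)
    · by_cases hj0 : j = 0
      · subst hj0
        by_cases hi1 : i = 1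
        · subst hi1; exact hne (by rw [← hL0, ← hL1, hij])
        · rw [hL0, hLi i hi0 hi1, add_assoc] at hij
          exact hnz _ (hpd i hi0) (by simpa using hij)
      · by_cases hi1 : i = 1
        · subst hi1
          have hj1 : j ≠ 1 := fun h => hne' h.symm
          rw [hL1, hLi j hj0 hj1, add_comm M1 M2, add_assoc] at hij
          exact hnz _ (hpd' j hj0) (by simpa using hij.symm)
        · by_cases hj1 : j = 1
          · subst hj1
            rw [hL1, hLi i hi0 hi1, add_comm M1 M2, add_assoc] at hij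
            exact hnz _ (hpd' i hi0) (by simpa using hij)
          · rw [hLi i hi0 hi1, hLi j hj0 hj1] at hij
            have h1 := add_left_cancel hij
            have h2 := congrFun (congrFun h1 (0, 0)) (0, 0)
            simp only [Matrix.smul_apply, Matrix.one_apply_eq, smul_eq_mul, mul_one] at h2
            exact hne' (Fin.ext (by exact_mod_cast h2))
  · intro i
    by_cases h0 : i = 0
    · subst h0; rw [hL0]; exact p1
    · by_cases h1 : i = 1
      · subst h1; rw [hL1]; exact p2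
      · rw [hLi i h0 h1, add_assoc]; exact p1.add (hpd i h0)
  · refine subset_closure ⟨fun x => if x ∈ A then 0 else 1, ⟨?_, ?_⟩, ?_⟩
    · exact Measurable.ite hA.1 measurable_const measurable_const
    · intro x z
      simp only [hA.2 x z]
    · have hT : ∀ x, L (if x ∈ A then 0 else 1) = tens M1 M2 A x := by
        intro x
        by_cases hx : x ∈ A
        · simp only [hx, if_true, tens, hL0]
        · simp only [hx, if_false, tens, hL1]
      intro F
      obtain ⟨E, hE1, hE2, hE3⟩ := hLs F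
      refine ⟨E, hE1, ?_, ?_⟩
      · intro u hu
        simp_rw [hT]
        exact hE2 u hu
      · intro p
        simp_rw [hT]
        exact hE3 p
  · intro hmem
    refine absurd (lamK_lower L gh hgh ?_ Ls hmem E0) (not_le.2 hlt)
    intro i E
    by_cases h0 : i = 0
    · subst h0; rw [hL0]; exact hb1 E
    · by_cases h1 : i = 1
      · subst h1; rw [hL1]; exact hb2 E
      · rw [hLi i h0 h1, add_assoc, Matrix.add_mulVec, dotProduct_add]
        have := hpos _ (hpd i h0) E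
        have := hb1 E
        linarith

theorem nL_le (k : ℕ) (hk : 2 ≤ k) : nL k ≤ 12 := by
  obtain ⟨L, -, hL, Ls, h1, h2⟩ := k_phase_gap k hk
  exact sInf_le ⟨12, by norm_num, rfl, L, hL, fun h => h2 (h ▸ h1)⟩

end GClosure
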