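import Pool.Agent.TwoWell.Defs2
import Pool.Agent.TwoWell.JR1a
import Pool.Agent.TwoWell.JR2
import Pool.Agent.TwoWell.JR3
import Pool.Agent.TwoWell.JR4
import Pool.Agent.TwoWell.JR5
import Pool.Agent.TwoWell.JR5b
import Pool.Agent.TwoWell.JR6
import Pool.Agent.TwoWell.JR7
import Pool.Agent.TwoWell.JR8
import Pool.Agent.TwoWell.JR9
import Pool.Agent.TwoWell.JR10
import Pool.Agent.TwoWell.JR11
import Pool.Agent.TwoWell.JM1b
import Pool.Agent.TwoWell.JM3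
import Pool.Agent.TwoWell.JM4

set_option autoImplicit false
open Set Matrix
namespace TwoWell

theorem GG_convexOn : ∃ KA KB : ℝ, 0 ≤ KA ∧ 0 ≤ KB ∧ ∀ p s h t : Fin 11 → ℝ, R1 h t →
    ConvexOn ℝ univ (fun r : ℝ => GG KA KB (p + r • h) (s + r • t)) := by
  classical
  obtain ⟨KA, hKA, hA⟩ := JR5.HA_nonneg
  obtain ⟨KB, hKB, hB⟩ := JR8.bd_AB JR6.bd_ineq JR7.err_bd KA
  refine ⟨KA, KB, hKA, hKB, ?_⟩
  intro p s h t hR
  obtain ⟨hcl, hcv, hfr⟩ := JR3.inN_line p h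
  have hconvA : ConvexOn ℝ {r : ℝ | inN (p + r • h)} (fun r : ℝ => GA KA (p + r • h) (s + r • t)) := by
    obtain ⟨c0, c1, c2, c3, h1, h2⟩ := JR5b.GA_line KA p s h t
    have : (fun r : ℝ => GA KA (p + r • h) (s + r • t)) = fun r => c0 + c1 * r + c2 * r ^ 2 + c3 * r ^ 3 := by
      funext r; exact h1 r
    rw [this]
    apply JR1a.cubic_convexOn _ _ _ _ _ hcv
    intro w hw
    rw [h2 w]
    exact hA _ hw _ _ hR
  have := JR2.glue_convexOn (fun r : ℝ => GA KA (p + r • h) (s + r • t))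
    (fun r : ℝ => GB KB (p + r • h) (s + r • t)) {r : ℝ | inN (p + r • h)} hcl hcv hconvA
    (JR4.GB_convexOn KB hKB p s h t hR) (fun r hr => hB KB le_rfl _ _ (hfr r hr))
  have e : (fun r : ℝ => GG KA KB (p + r • h) (s + r • t)) = fun t_1 : ℝ =>
    if t_1 ∈ {r : ℝ | inN (p + r • h)} then max (GA KA (p + t_1 • h) (s + t_1 • t)) (GB KB (p + t_1 • h) (s + t_1 • t))
    else GB KB (p + t_1 • h) (s + t_1 • t) := by
    funext r
    unfold GG
    by_cases hr : inN (p + r • h)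
    · rw [if_pos hr, if_pos (show r ∈ {r : ℝ | inN (p + r • h)} from hr)]
    · rw [if_neg hr, if_neg (show r ∉ {r : ℝ | inN (p + r • h)} from hr)]
  rw [e]
  exact this

theorem GG_le (KA KB : ℝ) : ∃ k K : ℝ, 0 ≤ k ∧ 0 ≤ K ∧
    ∀ sg : ℝ, (sg = 1 ∨ sg = -1) → ∀ p s : Fin 11 → ℝ, GG KA KB p s ≤ Wv k K sg p s := by
  obtain ⟨k1, K1, hk1, hK1, h1⟩ := JR9.GA_le KA
  obtain ⟨k2, K2, hk2, hK2, h2⟩ := JR10.GB_le JR7.err_bd KB
  refine ⟨max k1 k2, max K1 K2, le_max_of_le_left hk1, le_max_of_le_left hK1, ?_⟩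
  intro sg hsg p s
  unfold GG
  split_ifs with hin
  · exact max_le (h1 _ _ (le_max_left _ _) (le_max_left _ _) sg hsg p s hin)
      (h2 _ _ (le_max_right _ _) (le_max_right _ _) sg hsg p s)
  · exact h2 _ _ (le_max_right _ _) (le_max_right _ _) sg hsg p s

theorem pp_add_smul (A B : Matrix (Fin 2) (Fin 11) ℝ) (t : ℝ) : pp (A + t • B) = pp A + t • pp B := by
  funext c
  simp only [pp, Matrix.add_apply, Matrix.smul_apply, smul_eq_mul, Pi.add_apply, Pi.smul_apply]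
  ring

theorem ss_add_smul (A B : Matrix (Fin 2) (Fin 11) ℝ) (t : ℝ) : ss (A + t • B) = ss A + t • ss B := by
  funext c
  simp only [ss, Matrix.add_apply, Matrix.smul_apply, smul_eq_mul, Pi.add_apply, Pi.smul_apply]
  ring

theorem nn_ne (c : Fin 11) : nn c ≠ 0 := by
  fin_cases c <;> simp [nn, nx, ny] <;> norm_num

theorem pp_F0m : pp F0m = p0 := by
  funext c
  have h := nn_ne c
  simp only [pp, F0m, Matrix.of_apply, Matrix.cons_val_zero, Matrix.cons_val_one]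
  rw [div_eq_iff h]
  unfold nn
  ring

theorem ss_F0m : ss F0m = 0 := by
  funext c
  simp only [ss, F0m, Matrix.of_apply, Matrix.cons_val_zero, Matrix.cons_val_one, Pi.zero_apply]
  rw [div_eq_zero_iff]
  left
  ring

theorem exists_well (k K : ℝ) (hk : 0 ≤ k) (hK : 0 ≤ K) (sg : ℝ) (hsg : sg = 1 ∨ sg = -1) :
    ∃ L : Matrix (Fin 2) (Fin 11) ℝ →ₗ[ℝ] Matrix (Fin 2) (Fin 11) ℝ,
      (∀ A B : Matrix (Fin 2) (Fin 11) ℝ, Matrix.trace (A * (L B)ᵀ) = Matrix.trace (L A * Bᵀ)) ∧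
      (∀ A : Matrix (Fin 2) (Fin 11) ℝ, A ≠ 0 → 0 < Matrix.trace (A * (L A)ᵀ)) ∧
      ∀ H : Matrix (Fin 2) (Fin 11) ℝ,
        Matrix.trace ((H - sg • Fst) * (L (H - sg • Fst))ᵀ) + 1 / 100 = Wv k K sg (pp H) (ss H) := by
  refine JM4.exists_well ?_ k K hk hK sg hsg
  intro ι _ w hw l hl
  exact JM3.exists_quadratic_map w hw l hl

end TwoWell
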